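import Mathlib

/-!
# Trail Trap: positions won by the player to move
-/

namespace Pool.Agent.H33.TT

/-- `MW A U a b`: the edges in `U` have been traversed, the player to move has its token on `a`,
the other token is on `b`, and the player to move has a winning strategy. `A` is the adjacency
relation. -/
inductive MW {V : Type*} (A : V → V → Prop) : Set (Sym2 V) → V → V → Prop
  | intro {U : Set (Sym2 V)} {a b : V} (a' : V) (h : A a a') (hu : s(a, a') ∉ U)
      (hr : ∀ b', A b b' → s(b, b') ∉ insert s(a, a') U →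
        MW A (insert s(b, b') (insert s(a, a') U)) a' b') : MW A U a b

variable {V : Type*} {A : V → V → Prop}

/-- The two players cannot both have a winning strategy. -/
theorem MW.not_both {U : Set (Sym2 V)} {a b : V} (h : MW A U a b)
    (h' : ∀ a', A a a' → s(a, a') ∉ U → MW A (insert s(a, a') U) b a') : False := by
  induction h with
  | intro a' ha hu hr ih =>
    rcases h' a' ha hu with ⟨b', hb, hub, hr'⟩
    exact ih b' hb hub hr'

/-- Induction principle for strategies given by an invariant `Inv n U a b` (player at `a` to move),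
`n` bounding the number of rounds. -/
theorem MW.of_inv (Inv : ℕ → Set (Sym2 V) → V → V → Prop)
    (hstep : ∀ n U a b, Inv (n + 1) U a b → ∃ a', A a a' ∧ s(a, a') ∉ U ∧
      ∀ b', A b b' → s(b, b') ∉ insert s(a, a') U →
        Inv n (insert s(b, b') (insert s(a, a') U)) a' b' ∨
        MW A (insert s(b, b') (insert s(a, a') U)) a' b')
    (hzero : ∀ U a b, Inv 0 U a b → MW A U a b) :
    ∀ n U a b, Inv n U a b → MW A U a b := by
  intro n
  induction n with
  | zero => exact hzero
  | succ n ih =>
    intro U a b h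
    obtain ⟨a', h1, h2, h3⟩ := hstep n U a b h
    refine MW.intro a' h1 h2 (fun b' hb hu => ?_)
    rcases h3 b' hb hu with h | h
    · exact ih _ _ _ h
    · exact h

/-- No edge inside `S` has been used. -/
def Fr (S : V → Prop) (U : Set (Sym2 V)) : Prop := ∀ v w, S v → S w → s(v, w) ∉ U

lemma Fr.mono {S S' : V → Prop} {U : Set (Sym2 V)} (h : Fr S U) (hs : ∀ v, S' v → S v) :
    Fr S' U := fun v w hv hw => h v w (hs v hv) (hs w hw)

lemma Fr.ins {S : V → Prop} {U : Set (Sym2 V)} {b b' : V} (h : Fr S U) (hb : ¬ (S b ∧ S b')) :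
    Fr S (insert s(b, b') U) := by
  intro v w hv hw hmem
  rcases hmem with hmem | hmem
  · rcases Sym2.eq_iff.1 hmem with ⟨rfl, rfl⟩ | ⟨rfl, rfl⟩
    · exact hb ⟨hv, hw⟩
    · exact hb ⟨hw, hv⟩
  · exact h v w hv hw hmem

lemma Fr.insl {S : V → Prop} {U : Set (Sym2 V)} {b b' : V} (h : Fr S U) (hb : ¬ S b) :
    Fr S (insert s(b, b') U) := h.ins (fun h => hb h.1)

lemma Fr.insr {S : V → Prop} {U : Set (Sym2 V)} {b b' : V} (h : Fr S U) (hb : ¬ S b') :
    Fr S (insert s(b, b') U) := h.ins (fun h => hb h.2)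

/-- The part of a finite set of edges that has been used. -/
noncomputable def cnt (Z : Finset (Sym2 V)) (U : Set (Sym2 V)) : ℕ :=
  open Classical in (Z.filter (fun e => e ∈ U)).card

lemma cnt_le (Z : Finset (Sym2 V)) (U : Set (Sym2 V)) : cnt Z U ≤ Z.card := by
  classical
  unfold cnt
  exact Finset.card_filter_le _ _

lemma cnt_mono (Z : Finset (Sym2 V)) {U U' : Set (Sym2 V)} (h : U ⊆ U') : cnt Z U ≤ cnt Z U' := by
  classical
  unfold cnt
  exact Finset.card_le_card (fun e he => by
    rw [Finset.mem_filter] at he ⊢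
    exact ⟨he.1, h he.2⟩)

lemma cnt_insert {Z : Finset (Sym2 V)} {U : Set (Sym2 V)} {e : Sym2 V} (he : e ∈ Z) (hu : e ∉ U) :
    cnt Z (insert e U) = cnt Z U + 1 := by
  classical
  unfold cnt
  have hn : e ∉ Z.filter (fun x => x ∈ U) := by
    simp only [Finset.mem_filter, not_and]
    exact fun _ => hu
  rw [← Finset.card_insert_of_notMem hn]
  congr 1
  ext x
  simp only [Finset.mem_filter, Finset.mem_insert, Set.mem_insert_iff]
  constructor
  · rintro ⟨h1, h2 | h2⟩
    · exact Or.inl h2
    · exact Or.inr ⟨h1, h2⟩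
  · rintro (h | ⟨h1, h2⟩)
    · exact ⟨h ▸ he, Or.inl h⟩
    · exact ⟨h1, Or.inr h2⟩

end Pool.Agent.H33.TT
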