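import Mathlib
import Pool.Agent.H33.TT.Game

/-!
# The reduction graph

Vertices: the `x`-part (`z`, `x`, `y1`, `y2`, `x2`, `w`), two triangles `y1, m1, u1` and
`y2, m2, u2`, two lanes `ln true i s` and `ln false i s` (`0 ≤ i ≤ Len`), the vertices `R`, `n1`,
`n2`, and the interior vertices `I c j` of the long corridors `c`.

The corridor `kap` leads from `x2` to `q = ln false 0 false`, the corridor `lam` from `u1` to
`ln true 0 false`, the corridors `J` and `G` from `h = ln true Len false` to `n2`, the corridors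
`K c r` (`r ≤ 3`) form the path of clause `c` from `Q = ln false Len false` to `R`.
-/

namespace Pool.Agent.H33.TT

/-- Names of the long corridors. -/
inductive Cor
  | kap | lam | J | G
  | K (c r : ℕ)
  deriving DecidableEq

/-- Vertices. -/
inductive V
  | z | x | y1 | y2 | x2 | w | m1 | m2 | u1 | u2 | R | n1 | n2
  | ln (l : Bool) (i : ℕ) (s : Bool)
  | I (c : Cor) (j : ℕ)
  deriving DecidableEq

open V Cor

/-- Parameters of the construction. -/
structure Par where
  /-- number of stages -/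
  N : ℕ
  /-- number of clause paths -/
  M : ℕ
  /-- lane of the literal `r < 3` of clause path `c` (`true`: first player) -/
  lane : ℕ → ℕ → Bool
  /-- stage of a literal -/
  st : ℕ → ℕ → ℕ
  /-- side of a literal -/
  sd : ℕ → ℕ → Bool
  /-- length of the trunks of the lanes -/
  sg : ℕ
  /-- period of the lanes -/
  P : ℕ
  /-- length of the lanes -/
  Len : ℕ
  /-- length of `lam` -/
  la : ℕ
  /-- length of `kap` -/
  ka : ℕ
  /-- length of `J` -/
  lJ : ℕ
  /-- length of the clause corridors -/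
  lK : ℕ
  /-- length of `G` -/
  lG : ℕ
  /-- bound for the number of edges outside of `G` -/
  EO : ℕ
  hst : ∀ c r, c < M → r < 3 → st c r < N
  hsg : sg = 2 * M + 9
  hP : P = 4 * M + 10
  hLen : Len = N * P + sg
  hla : (2 * Len + 10) ^ 2 + 2 * Len + 100 ≤ la
  hla2 : la % 2 = 0
  hka : ka = la + 2 * M + 7
  hJ : 2 * (la + ka + Len + 100) ≤ lJ
  hJ2 : lJ % 2 = 0
  hK : 2 * (lJ + la + ka + Len + 100) ≤ lK
  hK2 : lK % 2 = 1
  hEO : (20 + 4 * (Len + 1) + la + ka + lJ + 4 * M * lK) ^ 2 ≤ EO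
  hG : 10 * (EO + lK + lJ + la + ka + Len + 100) ≤ lG
  hG2 : lG % 2 = 0

variable (p : Par)

/-- Lane positions inside a gadget. -/
def Par.inn (i : ℕ) : Prop := p.sg < i % p.P

instance (i : ℕ) : Decidable (p.inn i) := inferInstanceAs (Decidable (_ < _))

/-- Valid lane positions: outside of the gadgets the side is `false`. -/
def Par.ok (i : ℕ) (s : Bool) : Prop := s = false ∨ p.inn i

/-- Position of the first vertex of the edge of the literal `r` of clause path `c`; the second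
vertex is at the next position. -/
def Par.ai (c r : ℕ) : ℕ := p.st c r * p.P + p.sg + 1 + 2 * c

/-- `h`, the end of the lane of the first player -/
def Par.h : V := ln true p.Len false
/-- `q`, the beginning of the lane of the second player -/
def Par.q : V := ln false 0 false
/-- `Q`, the end of the lane of the second player -/
def Par.Q : V := ln false p.Len false

/-- Corridors that occur. -/
def Par.vc : Cor → Prop
  | .K c r => c < p.M ∧ r ≤ 3
  | _ => True

/-- Length of a corridor. -/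
def Par.len : Cor → ℕ
  | .kap => p.ka
  | .lam => p.la
  | .J => p.lJ
  | .G => p.lG
  | .K _ _ => p.lK

/-- First end of a corridor. -/
def Par.src : Cor → V
  | .kap => x2
  | .lam => u1
  | .J => ln true p.Len false
  | .G => ln true p.Len false
  | .K _ 0 => ln false p.Len false
  | .K c (r + 1) => ln (p.lane c r) (p.ai c r + 1) (p.sd c r)

/-- Second end of a corridor. -/
def Par.dst : Cor → V
  | .kap => ln false 0 false
  | .lam => ln true 0 false
  | .J => n2
  | .G => n2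
  | .K c r => if r < 3 then ln (p.lane c r) (p.ai c r) (p.sd c r) else R

/-- Directed edges. -/
inductive Par.E : V → V → Prop
  | zx : Par.E z x
  | xy1 : Par.E x y1
  | xy2 : Par.E x y2
  | x2y1 : Par.E x2 y1
  | wx2 : Par.E w x2
  | y1m1 : Par.E y1 m1
  | y1u1 : Par.E y1 u1
  | m1u1 : Par.E m1 u1
  | y2m2 : Par.E y2 m2
  | y2u2 : Par.E y2 u2
  | m2u2 : Par.E m2 u2
  | u2q : Par.E u2 (ln false 0 false)
  | Qn1 : Par.E (ln false p.Len false) n1
  | Rn1 : Par.E R n1
  | n1n2 : Par.E n1 n2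
  | lane (l : Bool) (i : ℕ) (s s' : Bool) (hi : i < p.Len) (h1 : p.ok i s) (h2 : p.ok (i + 1) s')
      (h3 : p.inn i → p.inn (i + 1) → s = s') : Par.E (ln l i s) (ln l (i + 1) s')
  | kap0 : Par.E x2 (I kap 1)
  | lam0 : Par.E u1 (I lam 1)
  | J0 : Par.E (ln true p.Len false) (I J 1)
  | G0 : Par.E (ln true p.Len false) (I G 1)
  | KQ (c : ℕ) (hc : c < p.M) : Par.E (ln false p.Len false) (I (K c 0) 1)
  | Ks (c r : ℕ) (hc : c < p.M) (hr : r < 3) :
      Par.E (ln (p.lane c r) (p.ai c r + 1) (p.sd c r)) (I (K c (r + 1)) 1)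
  | mid (c : Cor) (hc : p.vc c) (j : ℕ) (h1 : 1 ≤ j) (h2 : j + 1 < p.len c) :
      Par.E (I c j) (I c (j + 1))
  | kape : Par.E (I kap (p.ka - 1)) (ln false 0 false)
  | lame : Par.E (I lam (p.la - 1)) (ln true 0 false)
  | Je : Par.E (I J (p.lJ - 1)) n2
  | Ge : Par.E (I G (p.lG - 1)) n2
  | Ke (c r : ℕ) (hc : c < p.M) (hr : r < 3) :
      Par.E (I (K c r) (p.lK - 1)) (ln (p.lane c r) (p.ai c r) (p.sd c r))
  | KR (c : ℕ) (hc : c < p.M) : Par.E (I (K c 3) (p.lK - 1)) R

/-- Adjacency. -/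
def Par.Adj (v w : V) : Prop := p.E v w ∨ p.E w v

/-- The vertex at position `j` of a corridor, `0 ≤ j ≤ len`. -/
def Par.pt (c : Cor) (j : ℕ) : V :=
  if j = 0 then p.src c else if j = p.len c then p.dst c else I c j

variable {p}

lemma Par.Adj.symm {v w : V} (h : p.Adj v w) : p.Adj w v := Or.symm h

/-! ### Numerical facts -/

lemma Par.P_pos : 0 < p.P := by have := p.hP; omega
lemma Par.hP' : p.P = p.sg + 2 * p.M + 1 := by have := p.hP; have := p.hsg; omega
lemma Par.len_ge (c : Cor) : 100 ≤ p.len c := by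
  have h1 := p.hla; have h2 := p.hka; have h3 := p.hJ; have h4 := p.hK; have h5 := p.hG
  cases c <;> simp only [Par.len] <;> omega
lemma Par.Len_odd : p.Len % 2 = 1 := by
  have h1 := p.hLen; have h2 := p.hP; have h3 := p.hsg
  have : (p.N * p.P) % 2 = 0 := by
    rw [h2, Nat.mul_mod]
    have : (4 * p.M + 10) % 2 = 0 := by omega
    rw [this, mul_zero, Nat.zero_mod]
  omega
lemma Par.la_pos : 700 ≤ p.la := by
  have h1 := p.hla; have h2 := p.hLen; have h3 := p.hsg
  have : 28 ^ 2 ≤ (2 * p.Len + 10) ^ 2 := Nat.pow_le_pow_left (by omega) 2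
  omega
lemma Par.la_ge : (2 * p.Len + 10) ^ 2 + 2 * p.Len + 100 ≤ p.la := p.hla

lemma Par.ai_lt {c r : ℕ} (hc : c < p.M) (hr : r < 3) : p.ai c r + 1 < p.N * p.P := by
  have h1 := p.hst c r hc hr
  have h2 : (p.st c r + 1) * p.P ≤ p.N * p.P := Nat.mul_le_mul_right _ h1
  have h3 := p.hP'
  have h4 : (p.st c r + 1) * p.P = p.st c r * p.P + p.P := by ring
  unfold Par.ai
  omega

lemma Par.mod_of {n k : ℕ} (hk : k < p.P) : (n * p.P + k) % p.P = k := by
  rw [Nat.add_comm, Nat.add_mul_mod_self_right, Nat.mod_eq_of_lt hk]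

lemma Par.div_of {n k : ℕ} (hk : k < p.P) : (n * p.P + k) / p.P = n := by
  rw [Nat.add_comm, Nat.add_mul_div_right _ _ p.P_pos, Nat.div_eq_of_lt hk, zero_add]

lemma Par.ai_eq (c r : ℕ) : p.ai c r = p.st c r * p.P + (p.sg + 1 + 2 * c) := by
  unfold Par.ai; omega

lemma Par.ai_mod {c r : ℕ} (hc : c < p.M) : p.ai c r % p.P = p.sg + 1 + 2 * c := by
  rw [Par.ai_eq]
  exact p.mod_of (by have := p.hP'; omega)
lemma Par.ai1_mod {c r : ℕ} (hc : c < p.M) : (p.ai c r + 1) % p.P = p.sg + 2 + 2 * c := by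
  rw [Par.ai_eq, show p.st c r * p.P + (p.sg + 1 + 2 * c) + 1
    = p.st c r * p.P + (p.sg + 2 + 2 * c) by omega]
  exact p.mod_of (by have := p.hP'; omega)
lemma Par.ai_div {c r : ℕ} (hc : c < p.M) : p.ai c r / p.P = p.st c r := by
  rw [Par.ai_eq]
  exact p.div_of (by have := p.hP'; omega)
lemma Par.ai1_div {c r : ℕ} (hc : c < p.M) : (p.ai c r + 1) / p.P = p.st c r := by
  rw [Par.ai_eq, show p.st c r * p.P + (p.sg + 1 + 2 * c) + 1
    = p.st c r * p.P + (p.sg + 2 + 2 * c) by omega]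
  exact p.div_of (by have := p.hP'; omega)
lemma Par.inn_ai {c r : ℕ} (hc : c < p.M) : p.inn (p.ai c r) := by
  unfold Par.inn; rw [p.ai_mod hc]; omega
lemma Par.inn_ai1 {c r : ℕ} (hc : c < p.M) : p.inn (p.ai c r + 1) := by
  unfold Par.inn; rw [p.ai1_mod hc]; omega
lemma Par.ai_even {c r : ℕ} : p.ai c r % 2 = 0 := by
  unfold Par.ai
  have h1 : (p.st c r * p.P) % 2 = 0 := by
    rw [p.hP, Nat.mul_mod]
    have : (4 * p.M + 10) % 2 = 0 := by omega
    rw [this, mul_zero, Nat.zero_mod]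
  have := p.hsg
  omega
lemma Par.not_inn_zero : ¬ p.inn 0 := by unfold Par.inn; simp
lemma Par.not_inn_Len : ¬ p.inn p.Len := by
  unfold Par.inn
  rw [p.hLen, p.mod_of (by have := p.hP'; omega)]
  omega
lemma Par.ok_false (i : ℕ) : p.ok i false := Or.inl rfl

/-! ### Endpoints of corridors -/

@[simp] lemma Par.pt_zero (c : Cor) : p.pt c 0 = p.src c := by simp [Par.pt]
@[simp] lemma Par.pt_len (c : Cor) : p.pt c (p.len c) = p.dst c := by
  have := p.len_ge c
  unfold Par.pt
  rw [if_neg (by omega), if_pos rfl]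
lemma Par.pt_mid {c : Cor} {j : ℕ} (h1 : 1 ≤ j) (h2 : j < p.len c) : p.pt c j = I c j := by
  unfold Par.pt
  rw [if_neg (by omega), if_neg (by omega)]

lemma Par.E_src {c : Cor} (hc : p.vc c) : p.E (p.src c) (I c 1) := by
  rcases c with _ | _ | _ | _ | ⟨c, _ | r⟩
  · exact .kap0
  · exact .lam0
  · exact .J0
  · exact .G0
  · exact .KQ c hc.1
  · exact .Ks c r hc.1 (by have := hc.2; omega)

lemma Par.E_dst {c : Cor} (hc : p.vc c) : p.E (I c (p.len c - 1)) (p.dst c) := by
  rcases c with _ | _ | _ | _ | ⟨c, r⟩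
  · exact .kape
  · exact .lame
  · exact .Je
  · exact .Ge
  · by_cases h : r < 3
    · simp only [Par.dst, if_pos h]
      exact .Ke c r hc.1 h
    · have : r = 3 := by have := hc.2; omega
      subst this
      simp only [Par.dst, if_neg h]
      exact .KR c hc.1

lemma Par.adj_pt {c : Cor} (hc : p.vc c) {j : ℕ} (hj : j < p.len c) :
    p.Adj (p.pt c j) (p.pt c (j + 1)) := by
  have hl := p.len_ge c
  rcases Nat.eq_zero_or_pos j with rfl | h0
  · rw [Par.pt_zero, zero_add, Par.pt_mid (by omega) (by omega)]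
    exact Or.inl (Par.E_src hc)
  · by_cases h : j + 1 = p.len c
    · rw [h, Par.pt_len, Par.pt_mid (by omega) (by omega)]
      have : j = p.len c - 1 := by omega
      rw [this]
      exact Or.inl (Par.E_dst hc)
    · rw [Par.pt_mid (by omega) (by omega), Par.pt_mid (by omega) (by omega)]
      exact Or.inl (.mid c hc j h0 (by omega))

lemma Par.src_ne_I (c c' : Cor) (j : ℕ) : p.src c ≠ I c' j := by
  rcases c with _ | _ | _ | _ | ⟨c, _ | r⟩ <;> simp [Par.src]
lemma Par.dst_ne_I (c c' : Cor) (j : ℕ) : p.dst c ≠ I c' j := by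
  rcases c with _ | _ | _ | _ | ⟨c, r⟩ <;> simp only [Par.dst] <;> try simp
  split_ifs <;> simp

lemma Par.src_cases (c : Cor) :
    (c = kap ∧ p.src c = x2) ∨ (c = lam ∧ p.src c = u1) ∨ (c = J ∧ p.src c = ln true p.Len false) ∨
    (c = G ∧ p.src c = ln true p.Len false) ∨
    (∃ k, c = .K k 0 ∧ p.src c = ln false p.Len false) ∨
    (∃ k r, c = .K k (r + 1) ∧ p.src c = ln (p.lane k r) (p.ai k r + 1) (p.sd k r)) := by
  rcases c with _ | _ | _ | _ | ⟨c, _ | r⟩ <;> simp [Par.src]

lemma Par.dst_cases (c : Cor) :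
    (c = kap ∧ p.dst c = ln false 0 false) ∨ (c = lam ∧ p.dst c = ln true 0 false) ∨
    (c = J ∧ p.dst c = n2) ∨ (c = G ∧ p.dst c = n2) ∨
    (∃ k r, r < 3 ∧ c = .K k r ∧ p.dst c = ln (p.lane k r) (p.ai k r) (p.sd k r)) ∨
    (∃ k r, 3 ≤ r ∧ c = .K k r ∧ p.dst c = R) := by
  rcases c with _ | _ | _ | _ | ⟨c, r⟩
  · simp [Par.dst]
  · simp [Par.dst]
  · simp [Par.dst]
  · simp [Par.dst]
  · by_cases h : r < 3
    · right; right; right; right; left
      exact ⟨c, r, h, rfl, by simp [Par.dst, h]⟩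
    · right; right; right; right; right
      exact ⟨c, r, by omega, rfl, by simp [Par.dst, h]⟩

/-! ### Neighbours -/

lemma Par.nb_z {v : V} (h : p.Adj z v) : v = x := by
  rcases h with h | h
  · cases h; rfl
  · cases h

lemma Par.nb_x {v : V} (h : p.Adj x v) : v = z ∨ v = y1 ∨ v = y2 := by
  rcases h with h | h <;> cases h <;> simp

lemma Par.nb_w {v : V} (h : p.Adj w v) : v = x2 := by
  rcases h with h | h <;> cases h; rfl

lemma Par.nb_x2 {v : V} (h : p.Adj x2 v) : v = y1 ∨ v = w ∨ v = I kap 1 := by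
  rcases h with h | h <;> cases h <;> simp

lemma Par.nb_y1 {v : V} (h : p.Adj y1 v) : v = x ∨ v = x2 ∨ v = m1 ∨ v = u1 := by
  rcases h with h | h <;> cases h <;> simp

lemma Par.nb_m1 {v : V} (h : p.Adj m1 v) : v = y1 ∨ v = u1 := by
  rcases h with h | h <;> cases h <;> simp

lemma Par.nb_u1 {v : V} (h : p.Adj u1 v) : v = y1 ∨ v = m1 ∨ v = I lam 1 := by
  rcases h with h | h <;> cases h <;> simp

lemma Par.nb_y2 {v : V} (h : p.Adj y2 v) : v = x ∨ v = m2 ∨ v = u2 := by
  rcases h with h | h <;> cases h <;> simp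

lemma Par.nb_m2 {v : V} (h : p.Adj m2 v) : v = y2 ∨ v = u2 := by
  rcases h with h | h <;> cases h <;> simp

lemma Par.nb_u2 {v : V} (h : p.Adj u2 v) : v = y2 ∨ v = m2 ∨ v = ln false 0 false := by
  rcases h with h | h <;> cases h <;> simp

lemma Par.nb_R {v : V} (h : p.Adj R v) : v = n1 ∨ ∃ c, c < p.M ∧ v = I (K c 3) (p.lK - 1) := by
  rcases h with h | h <;> cases h
  · simp
  · rename_i c hc
    exact Or.inr ⟨c, hc, rfl⟩

lemma Par.nb_n1 {v : V} (h : p.Adj n1 v) : v = ln false p.Len false ∨ v = R ∨ v = n2 := by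
  rcases h with h | h <;> cases h <;> simp

lemma Par.nb_n2 {v : V} (h : p.Adj n2 v) : v = n1 ∨ v = I J (p.lJ - 1) ∨ v = I G (p.lG - 1) := by
  rcases h with h | h <;> cases h <;> simp

/-- Neighbours of an interior vertex of a corridor. -/
lemma Par.nb_I {c : Cor} {j : ℕ} {v : V} (h : p.Adj (I c j) v) :
    p.vc c ∧ 1 ≤ j ∧ j < p.len c ∧ (v = p.pt c (j - 1) ∨ v = p.pt c (j + 1)) := by
  rcases h with h | h
  · cases h with
    | mid _ hc _ h1 h2 =>
      exact ⟨hc, h1, by omega, Or.inr (by rw [Par.pt_mid (by omega) (by omega)])⟩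
    | kape =>
      have hl := p.len_ge kap
      have hl' : p.len kap = p.ka := rfl
      refine ⟨trivial, by omega, by omega, Or.inr ?_⟩
      rw [show p.ka - 1 + 1 = p.len kap by omega, Par.pt_len]; rfl
    | lame =>
      have hl := p.len_ge lam
      have hl' : p.len lam = p.la := rfl
      refine ⟨trivial, by omega, by omega, Or.inr ?_⟩
      rw [show p.la - 1 + 1 = p.len lam by omega, Par.pt_len]; rfl
    | Je =>
      have hl := p.len_ge J
      have hl' : p.len J = p.lJ := rfl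
      refine ⟨trivial, by omega, by omega, Or.inr ?_⟩
      rw [show p.lJ - 1 + 1 = p.len J by omega, Par.pt_len]; rfl
    | Ge =>
      have hl := p.len_ge G
      have hl' : p.len G = p.lG := rfl
      refine ⟨trivial, by omega, by omega, Or.inr ?_⟩
      rw [show p.lG - 1 + 1 = p.len G by omega, Par.pt_len]; rfl
    | Ke c r hc hr =>
      have hl := p.len_ge (K c r)
      have hl' : p.len (K c r) = p.lK := rfl
      refine ⟨⟨hc, by omega⟩, by omega, by omega, Or.inr ?_⟩
      rw [show p.lK - 1 + 1 = p.len (K c r) by omega, Par.pt_len]; simp [Par.dst, hr]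
    | KR c hc =>
      have hl := p.len_ge (K c 3)
      have hl' : p.len (K c 3) = p.lK := rfl
      refine ⟨⟨hc, by omega⟩, by omega, by omega, Or.inr ?_⟩
      rw [show p.lK - 1 + 1 = p.len (K c 3) by omega, Par.pt_len]; simp [Par.dst]
  · cases h with
    | mid _ hc j h1 h2 =>
      exact ⟨hc, by omega, by omega, Or.inl (by rw [Par.pt_mid (by omega) (by omega)]; simp)⟩
    | kap0 => exact ⟨trivial, le_rfl, by have := p.len_ge kap; omega, Or.inl (by simp [Par.src])⟩
    | lam0 => exact ⟨trivial, le_rfl, by have := p.len_ge lam; omega, Or.inl (by simp [Par.src])⟩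
    | J0 => exact ⟨trivial, le_rfl, by have := p.len_ge J; omega, Or.inl (by simp [Par.src])⟩
    | G0 => exact ⟨trivial, le_rfl, by have := p.len_ge G; omega, Or.inl (by simp [Par.src])⟩
    | KQ c hc =>
      exact ⟨⟨hc, by omega⟩, le_rfl, by have := p.len_ge (K c 0); omega,
        Or.inl (by simp [Par.src])⟩
    | Ks c r hc hr =>
      exact ⟨⟨hc, by omega⟩, le_rfl, by have := p.len_ge (K c (r + 1)); omega,
        Or.inl (by simp [Par.src])⟩

/-- Neighbours of a lane vertex. -/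
lemma Par.nb_ln {l : Bool} {i : ℕ} {s : Bool} {v : V} (h : p.Adj (ln l i s) v) :
    (∃ s', v = ln l (i + 1) s' ∧ i < p.Len ∧ p.ok i s ∧ p.ok (i + 1) s' ∧
      (p.inn i → p.inn (i + 1) → s = s')) ∨
    (∃ s' i', i = i' + 1 ∧ v = ln l i' s' ∧ i ≤ p.Len ∧ p.ok i s ∧ p.ok i' s' ∧
      (p.inn i' → p.inn i → s' = s)) ∨
    (i = 0 ∧ s = false ∧ l = true ∧ v = I lam (p.la - 1)) ∨
    (i = 0 ∧ s = false ∧ l = false ∧ (v = u2 ∨ v = I kap (p.ka - 1))) ∨
    (i = p.Len ∧ s = false ∧ l = true ∧ (v = I J 1 ∨ v = I G 1)) ∨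
    (i = p.Len ∧ s = false ∧ l = false ∧ (v = n1 ∨ ∃ c, c < p.M ∧ v = I (K c 0) 1)) ∨
    (∃ c r, c < p.M ∧ r < 3 ∧ l = p.lane c r ∧ s = p.sd c r ∧
      ((i = p.ai c r ∧ v = I (K c r) (p.lK - 1)) ∨
       (i = p.ai c r + 1 ∧ v = I (K c (r + 1)) 1))) := by
  rcases h with h | h
  · cases h with
    | lane _ _ _ s' hi h1 h2 h3 => exact Or.inl ⟨s', rfl, hi, h1, h2, h3⟩
    | Qn1 => simp
    | J0 => simp
    | G0 => simp
    | KQ c hc =>
      right; right; right; right; right; left
      exact ⟨rfl, rfl, rfl, Or.inr ⟨c, hc, rfl⟩⟩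
    | Ks c r hc hr =>
      right; right; right; right; right; right
      exact ⟨c, r, hc, hr, rfl, rfl, Or.inr ⟨rfl, rfl⟩⟩
  · cases h with
    | lane _ i' s' _ hi h1 h2 h3 =>
      exact Or.inr (Or.inl ⟨s', i', rfl, rfl, hi, h2, h1, h3⟩)
    | u2q => simp
    | kape => simp
    | lame => simp
    | Ke c r hc hr =>
      right; right; right; right; right; right
      exact ⟨c, r, hc, hr, rfl, rfl, Or.inl ⟨rfl, rfl⟩⟩

/-! ### A proper colouring (up to three edges) -/

/-- A colouring which is proper except on the two triangles and the edge `R n1`. -/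
def col : V → ℕ
  | .ln _ i _ => i
  | .R => 0
  | .n1 => 0
  | .n2 => 1
  | .I (.K _ _) j => 1 + j
  | .I .J j => 1 + j
  | .I .G j => 1 + j
  | .I .lam j => j
  | .I .kap j => j + 1
  | .u2 => 1
  | .x2 => 1
  | _ => 0

end Pool.Agent.H33.TT
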