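import Mathlib
import Pool.Agent.H33.TT.Graph

/-!
# Corridors
-/

namespace Pool.Agent.H33.TT

open V Cor

variable {p : Par}

/-- The vertex of the corridor `c` at distance `k` from the first end (`d = true`) or from the
second end (`d = false`). -/
def Par.cp (p : Par) (c : Cor) (d : Bool) (k : ℕ) : V :=
  if d then p.pt c k else p.pt c (p.len c - k)

/-- The end of a corridor. -/
def Par.fin (p : Par) (c : Cor) (d : Bool) : V := if d then p.src c else p.dst c

/-- The edge number `k` of `c`, counted from the end `d`. -/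
def Par.ce (p : Par) (c : Cor) (d : Bool) (k : ℕ) : Sym2 V := s(p.cp c d k, p.cp c d (k + 1))

lemma Par.cp_zero (c : Cor) (d : Bool) : p.cp c d 0 = p.fin c d := by
  cases d <;> simp [Par.cp, Par.fin]

lemma Par.cp_len (c : Cor) (d : Bool) : p.cp c d (p.len c) = p.fin c (!d) := by
  cases d <;> simp [Par.cp, Par.fin]

lemma Par.cp_mid {c : Cor} {d : Bool} {k : ℕ} (h1 : 1 ≤ k) (h2 : k < p.len c) :
    p.cp c d k = I c (if d then k else p.len c - k) := by
  cases d
  · simp only [Par.cp, Bool.false_eq_true, if_false]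
    exact p.pt_mid (by omega) (by omega)
  · simp only [Par.cp, if_true]
    exact p.pt_mid h1 h2

lemma Par.cp_rev {c : Cor} {d : Bool} {k : ℕ} (h : k ≤ p.len c) :
    p.cp c (!d) k = p.cp c d (p.len c - k) := by
  cases d
  · simp only [Par.cp, Bool.not_false, if_true, Bool.false_eq_true, if_false]
    congr 1; omega
  · simp only [Par.cp, Bool.not_true, if_true, Bool.false_eq_true, if_false]

lemma Par.I_eq_cp {c : Cor} {d : Bool} {j : ℕ} (h1 : 1 ≤ j) (h2 : j < p.len c) :
    I c j = p.cp c d (if d then j else p.len c - j) := by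
  cases d
  · rw [Par.cp_mid (by simp; omega) (by simp; omega)]; simp only [Bool.false_eq_true, if_false]
    congr 1; omega
  · rw [Par.cp_mid (by simpa using h1) (by simpa using h2)]; simp

lemma Par.cp_adj {c : Cor} (hc : p.vc c) (d : Bool) {k : ℕ} (hk : k < p.len c) :
    p.Adj (p.cp c d k) (p.cp c d (k + 1)) := by
  cases d
  · simp only [Par.cp, Bool.false_eq_true, if_false]
    have := p.adj_pt hc (j := p.len c - (k + 1)) (by omega)
    rw [show p.len c - (k + 1) + 1 = p.len c - k by omega] at this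
    exact this.symm
  · simp only [Par.cp, if_true]
    exact p.adj_pt hc hk

/-- Neighbours of an interior vertex of a corridor. -/
lemma Par.cp_nb {c : Cor} {d : Bool} {k : ℕ} (h1 : 1 ≤ k) (h2 : k < p.len c) {v : V}
    (h : p.Adj (p.cp c d k) v) : v = p.cp c d (k - 1) ∨ v = p.cp c d (k + 1) := by
  rw [p.cp_mid h1 h2] at h
  obtain ⟨_, h3, h4, h5⟩ := p.nb_I h
  cases d
  · simp only [Bool.false_eq_true, if_false] at h5
    simp only [Par.cp, Bool.false_eq_true, if_false]
    rcases h5 with h5 | h5
    · right; rw [h5]; congr 1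
    · left; rw [h5]; congr 1; omega
  · simp only [if_true] at h5
    simp only [Par.cp, if_true]
    exact h5

/-- A player inside a corridor cannot turn around. -/
lemma Par.cp_fwd {c : Cor} {d : Bool} {k : ℕ} {U : Set (Sym2 V)} (h1 : 1 ≤ k) (h2 : k < p.len c)
    (hb : p.ce c d k ∈ U) {v : V} (h : p.Adj (p.cp c d k) v) (hu : s(p.cp c d k, v) ∉ U) :
    v = p.cp c d (k - 1) := by
  rcases p.cp_nb h1 h2 h with h | h
  · exact h
  · subst h; exact absurd hb hu

lemma Par.ce_pred {c : Cor} {d : Bool} {k : ℕ} (h1 : 1 ≤ k) :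
    p.ce c d (k - 1) = s(p.cp c d k, p.cp c d (k - 1)) := by
  unfold Par.ce
  rw [show k - 1 + 1 = k by omega, Sym2.eq_swap]

lemma Par.ce_rev {c : Cor} {d : Bool} {k : ℕ} (h : k < p.len c) :
    p.ce c (!d) k = p.ce c d (p.len c - 1 - k) := by
  unfold Par.ce
  rw [p.cp_rev (by omega), p.cp_rev (by omega), Sym2.eq_swap,
    show p.len c - 1 - k + 1 = p.len c - k by omega,
    show p.len c - (k + 1) = p.len c - 1 - k by omega]

/-- A vertex in the interior of the corridor `c`. -/
def inC (c : Cor) (v : V) : Prop := ∃ j, v = I c j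

lemma Par.cp_inC {c : Cor} {d : Bool} {k : ℕ} (h1 : 1 ≤ k) (h2 : k < p.len c) :
    inC c (p.cp c d k) := by
  rw [p.cp_mid h1 h2]; exact ⟨_, rfl⟩

/-- Neighbours of a vertex which is not in the interior of `c`. -/
lemma Par.fin_ne_I (c c' : Cor) (d : Bool) (j : ℕ) : p.fin c d ≠ I c' j := by
  cases d
  · simpa [Par.fin] using p.dst_ne_I c c' j
  · simpa [Par.fin] using p.src_ne_I c c' j

lemma Par.I_inj_cp {c : Cor} {d : Bool} {k k' : ℕ} (h1 : 1 ≤ k) (h2 : k < p.len c)
    (h3 : k' ≤ p.len c) (h : p.cp c d k = p.cp c d k') : k = k' := by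
  rw [p.cp_mid h1 h2] at h
  rcases Nat.eq_zero_or_pos k' with rfl | h4
  · rw [Par.cp_zero] at h; exact absurd h.symm (p.fin_ne_I _ _ _ _)
  · rcases Nat.lt_or_ge k' (p.len c) with h5 | h5
    · rw [p.cp_mid h4 h5] at h
      have := (V.I.inj h).2
      cases d
      · simp only [Bool.false_eq_true, if_false] at this; omega
      · simp only [if_true] at this; omega
    · have : k' = p.len c := by omega
      subst this
      rw [Par.cp_len] at h; exact absurd h.symm (p.fin_ne_I _ _ _ _)

/-- Edges of a corridor of length at least three are distinct. -/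
lemma Par.ce_inj {c : Cor} {d : Bool} {i j : ℕ} (hi : i < p.len c) (hj : j < p.len c)
    (h : p.ce c d i = p.ce c d j) : i = j := by
  have hl := p.len_ge c
  by_contra hne
  rcases Sym2.eq_iff.1 h with ⟨h1, h2⟩ | ⟨h1, h2⟩
  · rcases Nat.eq_zero_or_pos i with rfl | h0
    · exact hne (by have := p.I_inj_cp (k := 0 + 1) (k' := j + 1) (by omega) (by omega) (by omega) h2
                    omega)
    · exact hne (p.I_inj_cp h0 hi (by omega) h1)
  · rcases Nat.eq_zero_or_pos i with rfl | h0
    · have := p.I_inj_cp (k := 0 + 1) (k' := j) (by omega) (by omega) (by omega) h2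
      have hj1 : j = 1 := by omega
      subst hj1
      have := p.I_inj_cp (k := 1 + 1) (k' := 0) (by omega) (by omega) (by omega) h1.symm
      omega
    · have := p.I_inj_cp h0 hi (by omega) h1
      subst this
      by_cases h3 : j + 1 + 1 ≤ p.len c
      · rcases Nat.eq_zero_or_pos j with rfl | h4
        · have := p.I_inj_cp (k := 0 + 1 + 1) (k' := 0) (by omega) (by omega) (by omega) h2
          omega
        · have := p.I_inj_cp h4 hj (by omega) h2.symm
          omega
      · omega

/-- Edges of distinct corridors are distinct. -/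
lemma Par.ce_ne {c c' : Cor} {d d' : Bool} {i j : ℕ} (hi : i < p.len c) (hj : j < p.len c')
    (hne : c ≠ c') : p.ce c d i ≠ p.ce c' d' j := by
  intro h
  have hl := p.len_ge c
  have hl' := p.len_ge c'
  -- an interior end of the first edge
  have key : ∀ (c c' : Cor) (d d' : Bool) (i j : ℕ), i < p.len c → j < p.len c' → c ≠ c' →
      p.ce c d i = p.ce c' d' j → False := by
    intro c c' d d' i j hi hj hne h
    have hl := p.len_ge c
    obtain ⟨k, hk1, hk2, hk3⟩ : ∃ k, 1 ≤ k ∧ k < p.len c ∧ (p.cp c d k ∈ p.ce c d i) := by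
      rcases Nat.eq_zero_or_pos i with rfl | h0
      · exact ⟨0 + 1, le_rfl, by omega, Sym2.mem_mk_right _ _⟩
      · exact ⟨i, h0, hi, Sym2.mem_mk_left _ _⟩
    rw [h, p.cp_mid hk1 hk2] at hk3
    have aux : ∀ j, j ≤ p.len c' → p.cp c' d' j ≠ I c (if d then k else p.len c - k) := by
      intro j hj h
      rcases Nat.eq_zero_or_pos j with rfl | h4
      · rw [Par.cp_zero] at h; exact p.fin_ne_I _ _ _ _ h
      · rcases Nat.lt_or_ge j (p.len c') with h5 | h5
        · rw [p.cp_mid h4 h5] at h
          exact hne (V.I.inj h).1.symm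
        · have : j = p.len c' := by omega
          subst this
          rw [Par.cp_len] at h; exact p.fin_ne_I _ _ _ _ h
    rcases Sym2.mem_iff.1 hk3 with h' | h'
    · exact aux j (by omega) h'.symm
    · exact aux (j + 1) (by omega) h'.symm
  exact key c c' d d' i j hi hj hne h

/-- An edge with a vertex in the interior of a corridor is an edge of this corridor. -/
lemma Par.I_edge {c : Cor} (d : Bool) {j : ℕ} {v : V} (h : p.Adj (I c j) v) :
    ∃ k, k < p.len c ∧ s(I c j, v) = p.ce c d k := by
  obtain ⟨_, h1, h2, h3⟩ := p.nb_I h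
  rw [p.I_eq_cp (d := d) h1 h2] at h
  rw [p.I_eq_cp (d := d) h1 h2]
  set k := (if d then j else p.len c - j) with hk
  have hk1 : 1 ≤ k := by rw [hk]; cases d <;> simp <;> omega
  have hk2 : k < p.len c := by rw [hk]; cases d <;> simp <;> omega
  rcases p.cp_nb hk1 hk2 h with h | h
  · exact ⟨k - 1, by omega, by rw [h, p.ce_pred hk1]⟩
  · exact ⟨k, hk2, by rw [h]; rfl⟩

end Pool.Agent.H33.TT
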