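import Mathlib
import Pool.Agent.H33.TT.Corr

/-!
# Running through the prize corridor `G`
-/

namespace Pool.Agent.H33.TT

open V Cor

variable {p : Par}

lemma Par.len_G : p.len G = p.lG := rfl
lemma Par.len_J : p.len J = p.lJ := rfl
lemma Par.len_K (c r : ℕ) : p.len (K c r) = p.lK := rfl
lemma Par.len_kap : p.len kap = p.ka := rfl
lemma Par.len_lam : p.len lam = p.la := rfl

/-- **Head-on.** The players move towards each other in a corridor, the number of free edges
between them is odd: the player to move wins. -/
theorem headon {c : Cor} (hc : p.vc c) (d : Bool) :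
    ∀ (n i k : ℕ) (U : Set (Sym2 V)), k = i + 2 * n + 1 → k < p.len c →
    (∀ j, i ≤ j → j < k → p.ce c d j ∉ U) → p.ce c d k ∈ U →
    MW p.Adj U (p.cp c d i) (p.cp c d k) := by
  intro n
  induction n with
  | zero =>
    intro i k U hk hkl hfree hback
    have hk' : k = i + 1 := by omega
    subst hk'
    refine MW.intro (p.cp c d (i + 1)) (p.cp_adj hc d (by omega)) (hfree i le_rfl (by omega)) ?_
    intro b' hb hu
    rcases p.cp_nb (by omega) hkl hb with rfl | rfl
    · exact absurd (Set.mem_insert_iff.2 (Or.inl (by simp [Sym2.eq_swap]))) hu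
    · exact absurd (Set.mem_insert_of_mem _ hback) hu
  | succ n ih =>
    intro i k U hk hkl hfree hback
    refine MW.intro (p.cp c d (i + 1)) (p.cp_adj hc d (by omega)) (hfree i le_rfl (by omega)) ?_
    intro b' hb hu
    rcases p.cp_nb (by omega) hkl hb with rfl | rfl
    · refine ih (i + 1) (k - 1) _ (by omega) (by omega) ?_ ?_
      · intro j hj1 hj2 hmem
        rcases hmem with hmem | hmem | hmem
        · have : p.ce c d j = p.ce c d (k - 1) := by
            rw [hmem, p.ce_pred (by omega)]
          have := p.ce_inj (by omega) (by omega) this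
          omega
        · have := p.ce_inj (c := c) (d := d) (i := j) (j := i) (by omega) (by omega) hmem
          omega
        · exact hfree j (by omega) (by omega) hmem
      · left
        rw [p.ce_pred (by omega)]
    · exact absurd (Set.mem_insert_of_mem _ hback) hu

/-- **Running through a corridor.** The player to move is on position `i` of `c` and runs towards
position `m ≤ len c` (all edges up to there are free). `Md i r U b` is a property of the opponent:
the number of its remaining moves is at most `r`, it never uses an edge of the free part of `c`,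
except possibly entering at the far end with the good parity. -/
theorem grun {c : Cor} (hc : p.vc c) (d : Bool) (m : ℕ) (hm : m ≤ p.len c)
    (Md : ℕ → ℕ → Set (Sym2 V) → V → Prop)
    (hstep : ∀ i r U b b', Md i r U b → i + r + 2 ≤ m → (∀ j, i ≤ j → j < m → p.ce c d j ∉ U) →
      p.Adj b b' → s(b, b') ∉ insert (p.ce c d i) U →
      (1 ≤ r ∧ (∀ j, i + 1 ≤ j → j < m → p.ce c d j ≠ s(b, b')) ∧
        Md (i + 1) (r - 1) (insert s(b, b') (insert (p.ce c d i) U)) b') ∨
      (m = p.len c ∧ s(b, b') = p.ce c d (m - 1) ∧ b' = p.cp c d (m - 1) ∧ (m - i) % 2 = 1)) :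
    ∀ (r i : ℕ) (U : Set (Sym2 V)) (b : V), i + r + 2 ≤ m →
      (∀ j, i ≤ j → j < m → p.ce c d j ∉ U) → Md i r U b → MW p.Adj U (p.cp c d i) b := by
  intro r
  induction r using Nat.strong_induction_on with
  | _ r ih =>
    intro i U b hir hfree hMd
    refine MW.intro (p.cp c d (i + 1)) (p.cp_adj hc d (by omega)) (hfree i le_rfl (by omega)) ?_
    intro b' hb hu
    rcases hstep i r U b b' hMd hir hfree hb hu with ⟨hr, hne, hMd'⟩ | ⟨hmg, he, hb', hpar⟩
    · refine ih (r - 1) (by omega) (i + 1) _ b' (by omega) ?_ hMd'
      intro j hj1 hj2 hmem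
      rcases hmem with hmem | hmem | hmem
      · exact hne j hj1 hj2 hmem
      · have := p.ce_inj (c := c) (d := d) (i := j) (j := i) (by omega) (by omega) hmem
        omega
      · exact hfree j (by omega) hj2 hmem
    · subst hb'
      obtain ⟨n, hn⟩ : ∃ n, m - 1 = (i + 1) + 2 * n + 1 := ⟨(m - i - 3) / 2, by omega⟩
      refine headon hc d n (i + 1) (m - 1) _ hn (by omega) ?_ ?_
      · intro j hj1 hj2 hmem
        rcases hmem with hmem | hmem | hmem
        · rw [he] at hmem
          have := p.ce_inj (c := c) (d := d) (i := j) (j := m - 1) (by omega) (by omega) hmem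
          omega
        · have := p.ce_inj (c := c) (d := d) (i := j) (j := i) (by omega) (by omega) hmem
          omega
        · exact hfree j (by omega) (by omega) hmem
      · left; exact he.symm

end Pool.Agent.H33.TT
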