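import Mathlib
import Pool.Agent.H33.TT.Prize

/-!
# Counting edges
-/

namespace Pool.Agent.H33.TT

open V Cor

variable {p : Par}

lemma sym2_card (S : Finset V) :
    ((S ×ˢ S).image (fun x => s(x.1, x.2))).card ≤ S.card ^ 2 := by
  refine Finset.card_image_le.trans ?_
  rw [Finset.card_product, sq]

/-- Lane vertices. -/
def Par.laneV (p : Par) (l : Bool) : Finset V :=
  ((Finset.range (p.Len + 1)) ×ˢ (Finset.univ : Finset Bool)).image (fun x => ln l x.1 x.2)

lemma Par.laneV_card (l : Bool) : (p.laneV l).card ≤ 2 * (p.Len + 1) := by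
  refine Finset.card_image_le.trans ?_
  rw [Finset.card_product, Finset.card_range, Finset.card_univ, Fintype.card_bool]
  omega

lemma Par.mem_laneV {l : Bool} {i : ℕ} {s : Bool} (hi : i ≤ p.Len) : ln l i s ∈ p.laneV l := by
  unfold Par.laneV
  rw [Finset.mem_image]
  exact ⟨(i, s), by simp; omega, rfl⟩

/-- The named vertices. -/
def nameV : Finset V := {z, x, y1, y2, x2, w, m1, m2, u1, u2, R, n1, n2}

/-- Vertices outside of `G`. -/
def Par.VO (p : Par) : Finset V :=
  nameV ∪ p.laneV true ∪ p.laneV false ∪ (Finset.range p.ka).image (I kap) ∪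
    (Finset.range p.la).image (I lam) ∪ (Finset.range p.lJ).image (I J) ∪
    ((Finset.range p.M ×ˢ Finset.range 4) ×ˢ Finset.range p.lK).image
      (fun x => I (K x.1.1 x.1.2) x.2)

lemma Par.VO_card : p.VO.card ≤ 20 + 4 * (p.Len + 1) + p.la + p.ka + p.lJ + 4 * p.M * p.lK := by
  have h1 := p.laneV_card true
  have h2 := p.laneV_card false
  have h0 : nameV.card = 13 := rfl
  have h3 : ((Finset.range p.ka).image (I kap)).card ≤ p.ka := by
    refine Finset.card_image_le.trans ?_; rw [Finset.card_range]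
  have h4 : ((Finset.range p.la).image (I lam)).card ≤ p.la := by
    refine Finset.card_image_le.trans ?_; rw [Finset.card_range]
  have h5 : ((Finset.range p.lJ).image (I J)).card ≤ p.lJ := by
    refine Finset.card_image_le.trans ?_; rw [Finset.card_range]
  have h6 : (((Finset.range p.M ×ˢ Finset.range 4) ×ˢ Finset.range p.lK).image
      (fun x => I (K x.1.1 x.1.2) x.2)).card ≤ 4 * p.M * p.lK := by
    refine Finset.card_image_le.trans ?_
    rw [Finset.card_product, Finset.card_product, Finset.card_range, Finset.card_range,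
      Finset.card_range]
    apply le_of_eq; ring
  unfold Par.VO
  have a1 := Finset.card_union_le nameV (p.laneV true)
  have a2 := Finset.card_union_le (nameV ∪ p.laneV true) (p.laneV false)
  have a3 := Finset.card_union_le (nameV ∪ p.laneV true ∪ p.laneV false)
    ((Finset.range p.ka).image (I kap))
  have a4 := Finset.card_union_le (nameV ∪ p.laneV true ∪ p.laneV false ∪
    (Finset.range p.ka).image (I kap)) ((Finset.range p.la).image (I lam))
  have a5 := Finset.card_union_le (nameV ∪ p.laneV true ∪ p.laneV false ∪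
    (Finset.range p.ka).image (I kap) ∪ (Finset.range p.la).image (I lam))
    ((Finset.range p.lJ).image (I J))
  have a6 := Finset.card_union_le (nameV ∪ p.laneV true ∪ p.laneV false ∪
    (Finset.range p.ka).image (I kap) ∪ (Finset.range p.la).image (I lam) ∪
    (Finset.range p.lJ).image (I J)) (((Finset.range p.M ×ˢ Finset.range 4) ×ˢ
      Finset.range p.lK).image (fun x => I (K x.1.1 x.1.2) x.2))
  omega

/-- A vertex with a neighbour which is not inside of `G` is in `VO`. -/
lemma Par.mem_VO {v v' : V} (h : p.Adj v v') (hG : ¬ inC G v) : v ∈ p.VO := by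
  have hname : ∀ u ∈ nameV, u ∈ p.VO := fun u hu => by
    simp only [Par.VO, Finset.mem_union]; simp [hu]
  have hlane : ∀ (l : Bool) (i : ℕ) (s : Bool), i ≤ p.Len → ln l i s ∈ p.VO := fun l i s hi => by
    have := p.mem_laneV (l := l) (s := s) hi
    simp only [Par.VO, Finset.mem_union]
    cases l <;> simp [this]
  cases v with
  | ln l i s =>
    apply hlane
    rcases p.nb_ln h with ⟨_, _, h, _⟩ | ⟨_, _, _, _, h, _⟩ | ⟨h, _⟩ | ⟨h, _⟩ | ⟨h, _⟩ | ⟨h, _⟩ |
      ⟨c, r, hc, hr, _, _, h | h⟩
    · omega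
    · exact h
    · omega
    · omega
    · omega
    · omega
    · have := p.ai_lt hc hr; have := p.hLen; omega
    · have := p.ai_lt hc hr; have := p.hLen; omega
  | I c j =>
    obtain ⟨hc, h1, h2, _⟩ := p.nb_I h
    simp only [Par.VO, Finset.mem_union, Finset.mem_image, Finset.mem_range]
    cases c with
    | kap => simp; right; exact h2
    | lam => simp; right; exact h2
    | J => simp; right; exact h2
    | G => exact absurd ⟨j, rfl⟩ hG
    | K c r =>
      right
      exact ⟨((c, r), j), by simpa using ⟨⟨hc.1, by have := hc.2; omega⟩, h2⟩, rfl⟩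
  | _ => exact hname _ (by simp [nameV])

/-- The edges outside of `G`. -/
def Par.outE (p : Par) : Finset (Sym2 V) := (p.VO ×ˢ p.VO).image (fun x => s(x.1, x.2))

lemma Par.outE_card : p.outE.card ≤ p.EO :=
  (sym2_card _).trans ((Nat.pow_le_pow_left p.VO_card 2).trans p.hEO)

lemma Par.mem_outE {v v' : V} (h : p.Adj v v') (hv : ¬ inC G v) (hv' : ¬ inC G v') :
    s(v, v') ∈ p.outE := by
  unfold Par.outE
  rw [Finset.mem_image]
  exact ⟨(v, v'), Finset.mem_product.2 ⟨p.mem_VO h hv, p.mem_VO h.symm hv'⟩, rfl⟩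

/-- Vertices of the east zone. -/
def Par.zoneV (p : Par) : Finset V := p.laneV false ∪ {R, n1, n2, y2, m2, u2}

/-- Edges of the east zone. -/
def Par.zoneE (p : Par) : Finset (Sym2 V) := (p.zoneV ×ˢ p.zoneV).image (fun x => s(x.1, x.2))

lemma Par.zoneE_card : p.zoneE.card ≤ (2 * p.Len + 10) ^ 2 := by
  refine (sym2_card _).trans (Nat.pow_le_pow_left ?_ 2)
  have h1 := p.laneV_card false
  have h2 : ({R, n1, n2, y2, m2, u2} : Finset V).card = 6 := rfl
  have := Finset.card_union_le (p.laneV false) ({R, n1, n2, y2, m2, u2} : Finset V)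
  unfold Par.zoneV
  omega

lemma Par.mem_zoneE {v v' : V} (hv : v ∈ p.zoneV) (hv' : v' ∈ p.zoneV) : s(v, v') ∈ p.zoneE := by
  unfold Par.zoneE
  rw [Finset.mem_image]
  exact ⟨(v, v'), Finset.mem_product.2 ⟨hv, hv'⟩, rfl⟩

lemma Par.zoneV_ln {i : ℕ} {s : Bool} (hi : i ≤ p.Len) : ln false i s ∈ p.zoneV :=
  Finset.mem_union_left _ (p.mem_laneV hi)

lemma Par.zoneV_name {v : V} (h : v = R ∨ v = n1 ∨ v = n2 ∨ v = y2 ∨ v = m2 ∨ v = u2) :
    v ∈ p.zoneV := by
  refine Finset.mem_union_right _ ?_
  simpa using h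

/-- **The final run through `G`**, with a mode `Md` of the opponent which is closed under moves
outside of `G`. -/
theorem gfinal (d : Bool) (m : ℕ) (hm : m ≤ p.lG) (Md : ℕ → Set (Sym2 V) → V → Prop)
    (hcl : ∀ i U b b', Md i U b → i < m → p.Adj b b' → s(b, b') ∉ insert (p.ce G d i) U →
      p.ce G d i ∉ U →
      (¬ inC G b ∧ ¬ inC G b' ∧ Md (i + 1) (insert s(b, b') (insert (p.ce G d i) U)) b') ∨
      (m = p.lG ∧ b = p.fin G (!d) ∧ b' = p.cp G d (m - 1) ∧ (m - i) % 2 = 1))
    (i : ℕ) (U : Set (Sym2 V)) (b : V) (hi : i + p.EO + 2 ≤ m)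
    (hfree : ∀ j, i ≤ j → j < m → p.ce G d j ∉ U) (hMd : Md i U b) :
    MW p.Adj U (p.cp G d i) b := by
  classical
  have hG : p.vc G := trivial
  refine grun (c := G) hG d m hm (fun i r U b => p.outE.card ≤ r + cnt p.outE U ∧ Md i U b) ?_
    (p.outE.card - cnt p.outE U) i U b ?_ hfree ⟨by omega, hMd⟩
  · intro i r U b b' hMd hir hfr hb hu
    have hfi := hfr i le_rfl (by omega)
    rcases hcl i U b b' hMd.2 (by omega) hb hu hfi with ⟨h1, h2, h3⟩ | ⟨h1, h2, h3, h4⟩
    · left
      have hmem := p.mem_outE hb h1 h2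
      have hc1 := cnt_insert (U := insert (p.ce G d i) U) hmem hu
      have hc2 := cnt_mono p.outE (Set.subset_insert (p.ce G d i) U)
      have hc3 := cnt_le p.outE (insert s(b, b') (insert (p.ce G d i) U))
      have hr : 1 ≤ r := by have := hMd.1; omega
      refine ⟨hr, ?_, ?_, h3⟩
      · intro j hj1 hj2 he
        -- a `G` edge has an interior end
        have hl := p.len_ge G
        have hlG : p.len G = p.lG := rfl
        rcases Nat.eq_zero_or_pos j with rfl | h0
        · omega
        · have hin := p.cp_inC (c := G) (d := d) h0 (by omega)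
          have : p.cp G d j ∈ s(b, b') := he ▸ Sym2.mem_mk_left _ _
          rcases Sym2.mem_iff.1 this with h | h
          · exact h1 (h ▸ hin)
          · exact h2 (h ▸ hin)
      · have := hMd.1; omega
    · right
      refine ⟨h1, ?_, h3, h4⟩
      have hl := p.len_ge G
      have hlG : p.len G = p.lG := rfl
      rw [h3, h2, ← p.cp_len, hlG, ← h1, Par.ce, show m - 1 + 1 = m by omega, Sym2.eq_swap]
  · have := p.outE_card
    omega

end Pool.Agent.H33.TT
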