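import Mathlib
import Pool.Agent.H33.TT.Count

/-!
# Specification of the parts of the proof
-/

namespace Pool.Agent.H33.TT

open V Cor

/-- The matrix of the formula: every clause has a true literal. `xs` are the values chosen by the
first player, `ys` the values chosen by the second player. -/
def Par.mat (p : Par) (xs ys : ℕ → Bool) : Prop :=
  ∀ c, c < p.M → ∃ r, r < 3 ∧ (if p.lane c r then xs else ys) (p.st c r) = p.sd c r

/-- Truth of the formula, when stages `< n` are decided by `xs`, `ys`, and `k` stages are left. -/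
def Par.QT (p : Par) : ℕ → ℕ → (ℕ → Bool) → (ℕ → Bool) → Prop
  | 0, _, xs, ys => p.mat xs ys
  | k + 1, n, xs, ys => ∃ a, ∀ b, p.QT k (n + 1) (Function.update xs n a) (Function.update ys n b)

/-- Truth of the formula. -/
def Par.truth (p : Par) : Prop := p.QT p.N 0 (fun _ => false) (fun _ => false)

/-- The side of a literal. -/
def Par.lit (p : Par) (c r : ℕ) : Bool × ℕ × Bool := (p.lane c r, p.st c r, p.sd c r)

/-- The literals at the first, second and third place of the clauses are different, and the literals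
at the second place occur only once. -/
structure Par.Typed (p : Par) : Prop where
  ne : ∀ c c' r r', c < p.M → c' < p.M → r < 3 → r' < 3 → r ≠ r' → p.lit c r ≠ p.lit c' r'
  mid : ∀ c c', c < p.M → c' < p.M → c ≠ c' → p.lit c 1 ≠ p.lit c' 1

/-- If the first player starts with `z → x`, then it wins whatever the second player does. -/
def Par.WinsT (p : Par) : Prop :=
  ∀ v v', p.Adj v v' → s(v, v') ≠ s(z, x) → MW p.Adj {s(v, v'), s(z, x)} x v'

/-- The second player wins whatever the first player does. -/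
def Par.WinsF (p : Par) : Prop :=
  ∀ u u', p.Adj u u' → ∃ v v', p.Adj v v' ∧ s(v, v') ≠ s(u, u') ∧
    ∀ u'', p.Adj u' u'' → s(u', u'') ∉ ({s(v, v'), s(u, u')} : Set (Sym2 V)) →
      MW p.Adj (insert s(u', u'') {s(v, v'), s(u, u')}) v' u''

/-! ### Paths in the lanes -/

/-- The vertex at position `i` of lane `l`, if the sides are chosen according to `xs`. -/
def Par.lp (p : Par) (l : Bool) (xs : ℕ → Bool) (i : ℕ) : V :=
  ln l i (if p.inn i then xs (i / p.P) else false)

lemma Par.lp_ok {p : Par} (xs : ℕ → Bool) (i : ℕ) :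
    p.ok i (if p.inn i then xs (i / p.P) else false) := by
  unfold Par.ok
  split_ifs with h
  · exact Or.inr h
  · exact Or.inl rfl

lemma Par.inn_div {p : Par} {i : ℕ} (h1 : p.inn i) (h2 : p.inn (i + 1)) :
    i / p.P = (i + 1) / p.P := by
  unfold Par.inn at h1 h2
  have h3 := p.hP'
  have h4 := p.hsg
  have hP := p.P_pos
  have e1 := Nat.div_add_mod i p.P
  have e2 := Nat.div_add_mod (i + 1) p.P
  have l1 := Nat.mod_lt i hP
  have l2 := Nat.mod_lt (i + 1) hP
  by_contra hne
  have : i / p.P + 1 ≤ (i + 1) / p.P := by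
    have := Nat.div_le_div_right (c := p.P) (Nat.le_succ i)
    have h5 : i / p.P ≤ (i + 1) / p.P := this
    omega
  have h6 : p.P * (i / p.P + 1) ≤ p.P * ((i + 1) / p.P) := Nat.mul_le_mul_left _ this
  rw [mul_add] at h6
  omega

lemma Par.lp_adj {p : Par} (l : Bool) (xs : ℕ → Bool) {i : ℕ} (hi : i < p.Len) :
    p.Adj (p.lp l xs i) (p.lp l xs (i + 1)) := by
  refine Or.inl (.lane l i _ _ hi (p.lp_ok xs i) (p.lp_ok xs (i + 1)) ?_)
  intro h1 h2
  rw [if_pos h1, if_pos h2, p.inn_div h1 h2]

/-- The edge number `i` of this path. -/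
def Par.le (p : Par) (l : Bool) (xs : ℕ → Bool) (i : ℕ) : Sym2 V :=
  s(p.lp l xs i, p.lp l xs (i + 1))

/-- The lane vertices at positions `≥ i`. -/
def lnS (l : Bool) (i : ℕ) (v : V) : Prop := ∃ j s, i ≤ j ∧ v = ln l j s

/-- The vertices of a corridor at positions `≥ k` (counted from the first end), with the second
end. -/
def Par.ptS (p : Par) (c : Cor) (k : ℕ) (v : V) : Prop := ∃ j, k ≤ j ∧ j ≤ p.len c ∧ v = p.pt c j

/-- All edges of the corridor are unused. -/
def Par.cfree (p : Par) (c : Cor) (U : Set (Sym2 V)) : Prop :=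
  ∀ k, k < p.len c → p.ce c true k ∉ U

lemma Par.cfree_rev {p : Par} {c : Cor} {U : Set (Sym2 V)} (h : p.cfree c U) (d : Bool) {k : ℕ}
    (hk : k < p.len c) : p.ce c d k ∉ U := by
  cases d
  · have := p.ce_rev (c := c) (d := true) hk
    rw [Bool.not_true] at this
    rw [this]
    exact h _ (by omega)
  · exact h k hk

/-- `J` and `G` are unused. -/
def Par.JG (p : Par) (U : Set (Sym2 V)) : Prop := p.cfree J U ∧ p.cfree G U

/-- `G` is unused, except perhaps close to `n2`. -/
def Par.GS (p : Par) (U : Set (Sym2 V)) : Prop := ∀ k, k + p.Len + 40 < p.lG → p.ce G true k ∉ U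

lemma Par.JG.GS {p : Par} {U : Set (Sym2 V)} (h : p.JG U) : p.GS U := fun k hk =>
  h.2 k (by have : p.len G = p.lG := rfl; omega)

end Pool.Agent.H33.TT
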