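import Mathlib
import Pool.Agent.H33.TT.Spec

/-!
# The slow road: modes of the opponent
-/

namespace Pool.Agent.H33.TT

open V Cor

variable {p : Par}

/-- An edge with no end inside `c` is not an edge of `c`. -/
lemma Par.ne_ce {c : Cor} {d : Bool} {k : ℕ} {b b' : V} (hk : k < p.len c) (hb : ¬ inC c b)
    (hb' : ¬ inC c b') : s(b, b') ≠ p.ce c d k := by
  intro h
  have hl := p.len_ge c
  rcases Nat.eq_zero_or_pos k with rfl | h0
  · have h1 : p.cp c d (0 + 1) ∈ s(b, b') := h ▸ Sym2.mem_mk_right _ _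
    have h2 := p.cp_inC (c := c) (d := d) (k := 0 + 1) le_rfl (by omega)
    rcases Sym2.mem_iff.1 h1 with h1 | h1 <;> rw [h1] at h2
    · exact hb h2
    · exact hb' h2
  · have h1 : p.cp c d k ∈ s(b, b') := h ▸ Sym2.mem_mk_left _ _
    have h2 := p.cp_inC (c := c) (d := d) h0 hk
    rcases Sym2.mem_iff.1 h1 with h1 | h1 <;> rw [h1] at h2
    · exact hb h2
    · exact hb' h2

/-- Vertices which are not inside of `J` or `G`. -/
def nJG (v : V) : Prop := ¬ inC J v ∧ ¬ inC G v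

lemma Par.cfree.ins {c : Cor} {U : Set (Sym2 V)} {e : Sym2 V} (h : p.cfree c U)
    (he : ∀ k, k < p.len c → e ≠ p.ce c true k) : p.cfree c (insert e U) := by
  intro k hk hmem
  rcases hmem with hmem | hmem
  · exact he k hk hmem.symm
  · exact h k hk hmem

lemma Par.JG.ins {U : Set (Sym2 V)} {v w : V} (h : p.JG U) (hv : nJG v) (hw : nJG w) :
    p.JG (insert s(v, w) U) :=
  ⟨h.1.ins (fun _ hk => p.ne_ce hk hv.1 hw.1), h.2.ins (fun _ hk => p.ne_ce hk hv.2 hw.2)⟩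

lemma Par.GS.ins {U : Set (Sym2 V)} {v w : V} (h : p.GS U) (hv : ¬ inC G v) (hw : ¬ inC G w) :
    p.GS (insert s(v, w) U) := by
  intro k hk hmem
  rcases hmem with hmem | hmem
  · exact p.ne_ce (by have : p.len G = p.lG := rfl; omega) hv hw hmem.symm
  · exact h k hk hmem

lemma Par.cG.ins {U : Set (Sym2 V)} {v w : V} (h : p.cfree G U) (hv : ¬ inC G v)
    (hw : ¬ inC G w) : p.cfree G (insert s(v, w) U) :=
  h.ins (fun _ hk => p.ne_ce hk hv hw)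

/-- Parity of the east vertices. -/
def chi : V → ℕ
  | .ln _ i _ => i
  | .R => 1
  | .n2 => 1
  | _ => 0

/-- Zone vertices other than `n2`. -/
def Par.zn (p : Par) (b : V) : Prop :=
  (∃ i s, b = ln false i s ∧ i ≤ p.Len) ∨ b = R ∨ b = n1

lemma Par.zn.mem {b : V} (h : p.zn b) : b ∈ p.zoneV := by
  rcases h with ⟨i, s, rfl, hi⟩ | rfl | rfl
  · exact p.zoneV_ln hi
  · exact p.zoneV_name (by simp)
  · exact p.zoneV_name (by simp)

lemma Par.zn.nJG {b : V} (h : p.zn b) : nJG b := by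
  rcases h with ⟨i, s, rfl, hi⟩ | rfl | rfl <;> exact ⟨by simp [inC], by simp [inC]⟩

/-- Modes of the opponent on the west side; it is behind the player. -/
inductive Par.SW (p : Par) (U : Set (Sym2 V)) : V → Prop
  | wk (k : ℕ) (h1 : 1 ≤ k) (h2 : k < p.ka) (hb : p.ce kap true k ∈ U) : Par.SW p U (p.cp kap true k)
  | wx2 (hb : s(x2, I kap 1) ∈ U) : Par.SW p U x2
  | ww (hb : s(w, x2) ∈ U) : Par.SW p U w
  | wtri (b : V) (hb : b = y1 ∨ b = m1 ∨ b = u1) (h1 : s(x, y1) ∈ U) (h2 : s(x2, y1) ∈ U)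
      (h3 : s(u1, I lam 1) ∈ U) : Par.SW p U b
  | we (b : V) (hb : b = y1 ∨ (b = m1 ∧ s(y1, m1) ∈ U)) (h1 : s(x, y1) ∈ U) (h2 : s(x2, y1) ∈ U)
      (h3 : s(y1, u1) ∈ U) : Par.SW p U b

/-- Other modes of the opponent on the slow road. `f`: parity of the player's position, `t`: time. -/
inductive Par.SE (p : Par) (f t : ℕ) (U : Set (Sym2 V)) : V → Prop
  | de (b : V) (hb : b = u2 ∨ b = y2 ∨ b = m2) (h : s(u2, ln false 0 false) ∈ U) (hG : p.GS U) :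
      Par.SE p f t U b
  | de2 (b : V) (hb : b = y2 ∨ b = m2) (h1 : s(y2, u2) ∈ U) (h2 : s(m2, u2) ∈ U) (hG : p.GS U) :
      Par.SE p f t U b
  | dx (h1 : s(z, x) ∈ U) (h2 : s(x, y1) ∈ U) (h3 : s(x, y2) ∈ U) (hG : p.GS U) : Par.SE p f t U x
  | eiK (c r : ℕ) (d : Bool) (k : ℕ) (hc : p.vc (K c r)) (h1 : 1 ≤ k) (h2 : k < p.lK)
      (hb : p.ce (K c r) d k ∈ U) (ht : t + k ≤ p.Len + 20) (he : p.zn (p.fin (K c r) d))
      (hJG : p.JG U) (hph : (chi (p.fin (K c r) d) + k + f) % 2 = 1) :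
      Par.SE p f t U (p.cp (K c r) d k)
  | eikap (k : ℕ) (h1 : 1 ≤ k) (h2 : k < p.ka) (hb : p.ce kap false k ∈ U)
      (ht : t + k ≤ p.Len + 20) (hJG : p.JG U) (hph : (k + f) % 2 = 1) :
      Par.SE p f t U (p.cp kap false k)
  | eiJ (k : ℕ) (h1 : 1 ≤ k) (h2 : k < p.lJ) (hb : p.ce J false k ∈ U)
      (ht : t + k ≤ p.Len + 20) (hG : p.cfree G U) (hph : (1 + k + f) % 2 = 1) :
      Par.SE p f t U (p.cp J false k)
  | eiG (k : ℕ) (h1 : 1 ≤ k) (h2 : k < p.lG) (hb : p.ce G false k ∈ U)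
      (ht : t + k ≤ p.Len + 20) (hG : p.GS U) : Par.SE p f t U (p.cp G false k)
  | mn2 (hcnt : t ≤ p.Len + 20 + cnt p.zoneE U) (hG : p.GS U)
      (hst : p.ce G false 0 ∈ U ∨ (p.cfree G U ∧ (1 + f) % 2 = 1)) : Par.SE p f t U n2
  | mzn (b : V) (hz : p.zn b) (hcnt : t ≤ p.Len + 20 + cnt p.zoneE U)
      (hst : (p.JG U ∧ (chi b + f) % 2 = 1) ∨ (s(n1, n2) ∈ U ∧ p.GS U)) : Par.SE p f t U b
  | lt1 (h : s(y2, u2) ∈ U ∨ s(m2, u2) ∈ U) (ht : t ≤ 7) (hJG : p.JG U) (hph : (1 + f) % 2 = 1) :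
      Par.SE p f t U u2
  | lt2 (h : s(y2, m2) ∈ U) (ht : t ≤ 6) (hJG : p.JG U) (hph : f % 2 = 1) : Par.SE p f t U m2
  | lt3 (h : s(m2, u2) ∈ U) (ht : t ≤ 5) (hJG : p.JG U) (hph : (1 + f) % 2 = 1) : Par.SE p f t U m2
  | lt4 (h : s(y2, m2) ∈ U) (ht : t ≤ 6) (hJG : p.JG U) (hph : f % 2 = 1) : Par.SE p f t U y2
  | lt5 (h : s(y2, u2) ∈ U) (ht : t ≤ 5) (hJG : p.JG U) (hph : (1 + f) % 2 = 1) : Par.SE p f t U y2
  | ink (c r : ℕ) (d : Bool) (k : ℕ) (hc : p.vc (K c r)) (h1 : 1 ≤ k) (h2 : k < p.lK)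
      (hb : p.ce (K c r) d k ∈ U) (ht : p.lK ≤ k + t + 3)
      (hst : p.JG U ∨ (s(n1, n2) ∈ U ∧ p.GS U)) : Par.SE p f t U (p.cp (K c r) d k)
  | inj (k : ℕ) (h1 : 1 ≤ k) (h2 : k < p.lJ) (hb : p.ce J true k ∈ U)
      (ht : p.lJ ≤ k + t + 3) (hG : p.GS U) : Par.SE p f t U (p.cp J true k)
  | ing (k : ℕ) (h1 : 1 ≤ k) (h2 : k < p.lG) (hb : p.ce G true k ∈ U)
      (hfr : ∀ j, j < k → p.ce G true j ∉ U) (ht : p.la + p.Len + 8 ≤ k + t)
      (hph : (1 + k + f) % 2 = 1) : Par.SE p f t U (p.cp G true k)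

/-- The modes of the opponent on the slow road. -/
def Par.SM (p : Par) (f t : ℕ) (U : Set (Sym2 V)) (b : V) : Prop :=
  (p.SW U b ∧ p.GS U) ∨ p.SE f t U b

/-- Edges used near `x`. -/
def Par.ctx (_ : Par) (U : Set (Sym2 V)) : Prop :=
  s(z, x) ∈ U ∧ (s(x, y1) ∈ U ∨ (s(x2, y1) ∈ U ∧ s(x, y2) ∈ U))

lemma mem3 {U : Set (Sym2 V)} {e e1 e2 : Sym2 V} (h : e ∈ U) : e ∈ insert e1 (insert e2 U) :=
  Or.inr (Or.inr h)

end Pool.Agent.H33.TT
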