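import Mathlib
import Pool.Agent.H33.TT.Slow1

/-!
# The slow road: the modes are closed under moves
-/

namespace Pool.Agent.H33.TT

open V Cor

variable {p : Par}

lemma Par.cp_nJG_K {c r : ℕ} {d : Bool} {k : ℕ} (h1 : 1 ≤ k) (h2 : k < p.lK) :
    nJG (p.cp (K c r) d k) := by
  rw [p.cp_mid (c := K c r) h1 h2]
  exact ⟨by simp [inC], by simp [inC]⟩

lemma Par.cp_nJG_kap {d : Bool} {k : ℕ} (h1 : 1 ≤ k) (h2 : k < p.ka) :
    nJG (p.cp kap d k) := by
  rw [p.cp_mid (c := kap) h1 h2]
  exact ⟨by simp [inC], by simp [inC]⟩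

lemma Par.fin_nJG (c : Cor) (d : Bool) : nJG (p.fin c d) :=
  ⟨fun ⟨j, h⟩ => p.fin_ne_I _ _ _ _ h, fun ⟨j, h⟩ => p.fin_ne_I _ _ _ _ h⟩

lemma Par.cp_le_nJG_K {c r : ℕ} {d : Bool} {k : ℕ} (h2 : k < p.lK) :
    nJG (p.cp (K c r) d k) := by
  rcases Nat.eq_zero_or_pos k with rfl | h
  · rw [Par.cp_zero]; exact p.fin_nJG _ _
  · exact p.cp_nJG_K h h2

lemma Par.cp_le_nJG_kap {d : Bool} {k : ℕ} (h2 : k < p.ka) : nJG (p.cp kap d k) := by
  rcases Nat.eq_zero_or_pos k with rfl | h
  · rw [Par.cp_zero]; exact p.fin_nJG _ _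
  · exact p.cp_nJG_kap h h2

lemma Par.cp_nG_J {d : Bool} {k : ℕ} (h2 : k < p.lJ) : ¬ inC G (p.cp J d k) := by
  rcases Nat.eq_zero_or_pos k with rfl | h
  · rw [Par.cp_zero]; exact (p.fin_nJG _ _).2
  · rw [p.cp_mid (c := J) h h2]; simp [inC]

/-- The mode of the opponent after a move inside a corridor: the edge behind is used. -/
lemma Par.ce_new {c : Cor} {d : Bool} {k : ℕ} {U : Set (Sym2 V)} (h1 : 1 ≤ k) :
    p.ce c d (k - 1) ∈ insert s(p.cp c d k, p.cp c d (k - 1)) U := by
  rw [p.ce_pred h1]; exact Or.inl rfl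

lemma Par.SW.nj {U : Set (Sym2 V)} {b : V} (h : p.SW U b) : nJG b := by
  cases h with
  | wk k h1 h2 => exact p.cp_nJG_kap h1 h2
  | wx2 => exact ⟨by simp [inC], by simp [inC]⟩
  | ww => exact ⟨by simp [inC], by simp [inC]⟩
  | wtri b hb => rcases hb with rfl | rfl | rfl <;> exact ⟨by simp [inC], by simp [inC]⟩
  | we b hb => rcases hb with rfl | ⟨rfl, _⟩ <;> exact ⟨by simp [inC], by simp [inC]⟩

/-- The west modes are closed under moves, as soon as the player has left `u1`. -/
lemma Par.SW.step {U : Set (Sym2 V)} {b b' : V} {e : Sym2 V} (h : p.SW U b) (hctx : p.ctx U)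
    (hL : s(u1, I lam 1) ∈ insert e U) (hb : p.Adj b b') (hu : s(b, b') ∉ insert e U) :
    p.SW (insert s(b, b') (insert e U)) b' := by
  have hu' : s(b, b') ∉ U := fun h => hu (Or.inr h)
  have hL' : s(u1, I lam 1) ∈ insert s(b, b') (insert e U) := Or.inr hL
  cases h with
  | wk k h1 h2 hk =>
    have := p.cp_fwd (c := kap) h1 h2 (Or.inr hk) hb hu
    subst this
    rcases Nat.lt_or_ge 1 k with h3 | h3
    · exact .wk (k - 1) (by omega) (by omega) (p.ce_new h1)
    · have : k = 1 := by omega
      subst this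
      have e1 : p.cp kap true (1 - 1) = x2 := by simp [Par.cp, Par.src]
      have e2 : p.cp kap true 1 = I kap 1 := p.cp_mid (c := kap) le_rfl h2
      rw [e1, e2]
      exact .wx2 (Or.inl (by rw [Sym2.eq_swap]))
  | wx2 hx =>
    rcases p.nb_x2 hb with rfl | rfl | rfl
    · refine .wtri _ (Or.inl rfl) ?_ (Or.inl rfl) hL'
      rcases hctx.2 with h | ⟨h, _⟩
      · exact mem3 h
      · exact absurd h hu'
    · exact .ww (Or.inl (by rw [Sym2.eq_swap]))
    · exact absurd hx hu'
  | ww hw =>
    have := p.nb_w hb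
    subst this
    exact absurd hw hu'
  | wtri _ hh h1 h2 h3 =>
    rcases hh with rfl | rfl | rfl
    · rcases p.nb_y1 hb with rfl | rfl | rfl | rfl
      · rw [Sym2.eq_swap] at hu'; exact absurd h1 hu'
      · rw [Sym2.eq_swap] at hu'; exact absurd h2 hu'
      · exact .wtri _ (by simp) (mem3 h1) (mem3 h2) hL'
      · exact .wtri _ (by simp) (mem3 h1) (mem3 h2) hL'
    · rcases p.nb_m1 hb with rfl | rfl
      · exact .wtri _ (by simp) (mem3 h1) (mem3 h2) hL'
      · exact .wtri _ (by simp) (mem3 h1) (mem3 h2) hL'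
    · rcases p.nb_u1 hb with rfl | rfl | rfl
      · exact .wtri _ (by simp) (mem3 h1) (mem3 h2) hL'
      · exact .wtri _ (by simp) (mem3 h1) (mem3 h2) hL'
      · exact absurd h3 hu'
  | we _ hh h1 h2 h3 =>
    rcases hh with rfl | ⟨rfl, h4⟩
    · rcases p.nb_y1 hb with rfl | rfl | rfl | rfl
      · rw [Sym2.eq_swap] at hu'; exact absurd h1 hu'
      · rw [Sym2.eq_swap] at hu'; exact absurd h2 hu'
      · exact .wtri _ (by simp) (mem3 h1) (mem3 h2) hL'
      · exact absurd h3 hu'
    · rcases p.nb_m1 hb with rfl | rfl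
      · rw [Sym2.eq_swap] at hu'; exact absurd h4 hu'
      · exact .wtri _ (by simp) (mem3 h1) (mem3 h2) hL'

lemma Par.zn.ln {i : ℕ} {s : Bool} (h : i ≤ p.Len) : p.zn (ln false i s) := Or.inl ⟨i, s, rfl, h⟩
lemma Par.zn.R : p.zn R := Or.inr (Or.inl rfl)
lemma Par.zn.n1 : p.zn n1 := Or.inr (Or.inr rfl)

/-- The other modes are closed under moves. -/
lemma Par.SE.step {f t : ℕ} {U : Set (Sym2 V)} {b b' a a' : V} (h : p.SE f t U b)
    (ht : t ≤ p.la + p.Len + 6)
    (hx : b = y2 → b' = x → s(z, x) ∈ insert s(a, a') U ∧ s(x, y1) ∈ insert s(a, a') U) (ha : nJG a)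
    (ha' : nJG a') (hb : p.Adj b b') (hu : s(b, b') ∉ insert s(a, a') U) :
    (b' = p.cp kap true (p.ka - 1) ∧
      p.ce kap true (p.ka - 1) ∈ insert s(b, b') (insert s(a, a') U) ∧
      p.GS (insert s(b, b') (insert s(a, a') U))) ∨
    p.SE (f + 1) (t + 1) (insert s(b, b') (insert s(a, a') U)) b' := by
  have hu' : s(b, b') ∉ U := fun h => hu (Or.inr h)
  have hlK := p.hK
  have hlJ := p.hJ
  have hlG := p.hG
  have hLen := p.Len_odd
  have nj : ∀ (v : V), (v = x ∨ v = y2 ∨ v = m2 ∨ v = u2 ∨ v = R ∨ v = n1 ∨ v = n2 ∨ v = w ∨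
      (∃ l i s, v = ln l i s)) → nJG v := by
    rintro v (rfl | rfl | rfl | rfl | rfl | rfl | rfl | rfl | ⟨l, i, s, rfl⟩) <;>
      exact ⟨by simp [inC], by simp [inC]⟩
  have gs : ∀ {v v' : V}, p.GS U → nJG v → nJG v' →
      p.GS (insert s(v, v') (insert s(a, a') U)) :=
    fun h h1 h2 => (h.ins ha.2 ha'.2).ins h1.2 h2.2
  have jg : ∀ {v v' : V}, p.JG U → nJG v → nJG v' →
      p.JG (insert s(v, v') (insert s(a, a') U)) :=
    fun h h1 h2 => (h.ins ha ha').ins h1 h2
  cases h with
  | de _ hh h hG =>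
    right
    rcases hh with rfl | rfl | rfl
    · rcases p.nb_u2 hb with rfl | rfl | rfl
      · exact .de _ (by simp) (mem3 h) (gs hG (nj _ (by simp)) (nj _ (by simp)))
      · exact .de _ (by simp) (mem3 h) (gs hG (nj _ (by simp)) (nj _ (by simp)))
      · exact absurd h hu'
    · rcases p.nb_y2 hb with rfl | rfl | rfl
      · obtain ⟨hx1, hx2⟩ := hx rfl rfl
        exact .dx (Or.inr hx1) (Or.inr hx2) (Or.inl (by rw [Sym2.eq_swap]))
          (gs hG (nj _ (by simp)) (nj _ (by simp)))
      · exact .de _ (by simp) (mem3 h) (gs hG (nj _ (by simp)) (nj _ (by simp)))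
      · exact .de _ (by simp) (mem3 h) (gs hG (nj _ (by simp)) (nj _ (by simp)))
    · rcases p.nb_m2 hb with rfl | rfl
      · exact .de _ (by simp) (mem3 h) (gs hG (nj _ (by simp)) (nj _ (by simp)))
      · exact .de _ (by simp) (mem3 h) (gs hG (nj _ (by simp)) (nj _ (by simp)))
  | de2 _ hh h1 h2 hG =>
    right
    rcases hh with rfl | rfl
    · rcases p.nb_y2 hb with rfl | rfl | rfl
      · obtain ⟨hx1, hx2⟩ := hx rfl rfl
        exact .dx (Or.inr hx1) (Or.inr hx2) (Or.inl (by rw [Sym2.eq_swap]))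
          (gs hG (nj _ (by simp)) (nj _ (by simp)))
      · exact .de2 _ (by simp) (mem3 h1) (mem3 h2) (gs hG (nj _ (by simp)) (nj _ (by simp)))
      · exact absurd h1 hu'
    · rcases p.nb_m2 hb with rfl | rfl
      · exact .de2 _ (by simp) (mem3 h1) (mem3 h2) (gs hG (nj _ (by simp)) (nj _ (by simp)))
      · exact absurd h2 hu'
  | dx h1 h2 h3 hG =>
    rcases p.nb_x hb with rfl | rfl | rfl
    · rw [Sym2.eq_swap] at hu'; exact absurd h1 hu'
    · exact absurd h2 hu'
    · exact absurd h3 hu'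
  | eiK c r d k hc h1 h2 hk htk he hJG hph =>
    right
    have := p.cp_fwd (c := K c r) h1 h2 (Or.inr hk) hb hu
    subst this
    have hJG' := jg hJG (p.cp_nJG_K (c := c) (r := r) (d := d) h1 h2)
      (p.cp_le_nJG_K (c := c) (r := r) (d := d) (k := k - 1) (by omega))
    rcases Nat.lt_or_ge 1 k with h3 | h3
    · exact .eiK c r d (k - 1) hc (by omega) (by omega) (p.ce_new h1) (by omega) he hJG' (by omega)
    · have : k = 1 := by omega
      subst this
      rw [Nat.sub_self, Par.cp_zero] at hJG' ⊢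
      exact .mzn _ he (by omega) (Or.inl ⟨hJG', by omega⟩)
  | eikap k h1 h2 hk htk hJG hph =>
    right
    have := p.cp_fwd (c := kap) h1 h2 (Or.inr hk) hb hu
    subst this
    have hJG' := jg hJG (p.cp_nJG_kap (d := false) h1 h2)
      (p.cp_le_nJG_kap (d := false) (k := k - 1) (by omega))
    rcases Nat.lt_or_ge 1 k with h3 | h3
    · exact .eikap (k - 1) (by omega) (by omega) (p.ce_new h1) (by omega) hJG' (by omega)
    · have : k = 1 := by omega
      subst this
      rw [Nat.sub_self, Par.cp_zero] at hJG' ⊢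
      exact .mzn _ (Par.zn.ln (by omega)) (by omega)
        (Or.inl ⟨hJG', by simp only [Par.fin, Par.dst, chi, Bool.false_eq_true, if_false]; omega⟩)
  | eiJ k h1 h2 hk htk hG hph =>
    right
    have := p.cp_fwd (c := J) h1 h2 (Or.inr hk) hb hu
    subst this
    have hG' : p.cfree G (insert s(p.cp J false k, p.cp J false (k - 1)) (insert s(a, a') U)) :=
      Par.cG.ins (Par.cG.ins hG ha.2 ha'.2) (p.cp_nG_J (by omega)) (p.cp_nG_J (by omega))
    rcases Nat.lt_or_ge 1 k with h3 | h3
    · exact .eiJ (k - 1) (by omega) (by omega) (p.ce_new h1) (by omega) hG' (by omega)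
    · have : k = 1 := by omega
      subst this
      have e0 : p.cp J false (1 - 1) = n2 := by rw [Nat.sub_self, Par.cp_zero]; rfl
      rw [e0] at hG' ⊢
      exact .mn2 (by omega) (fun k hk => hG' k (by have : p.len G = p.lG := rfl; omega))
        (Or.inr ⟨hG', by omega⟩)
  | eiG k h1 h2 hk htk hG =>
    right
    have hlG' : p.len G = p.lG := rfl
    have := p.cp_fwd (c := G) h1 h2 (Or.inr hk) hb hu
    subst this
    have hG' : p.GS (insert s(p.cp G false k, p.cp G false (k - 1)) (insert s(a, a') U)) := by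
      intro j hj hmem
      rcases hmem with hmem | hmem
      · rw [← p.ce_pred h1, show (false : Bool) = !true from rfl, p.ce_rev (by omega)] at hmem
        have := p.ce_inj (c := G) (by omega) (by omega) hmem
        omega
      · exact (hG.ins ha.2 ha'.2) j hj hmem
    rcases Nat.lt_or_ge 1 k with h3 | h3
    · exact .eiG (k - 1) (by omega) (by omega) (p.ce_new h1) (by omega) hG'
    · have : k = 1 := by omega
      subst this
      have hn := p.ce_new (c := G) (d := false) (U := insert s(a, a') U) (k := 1) le_rfl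
      have e0 : p.cp G false (1 - 1) = n2 := by rw [Nat.sub_self, Par.cp_zero]; rfl
      rw [e0] at hG' hn ⊢
      exact .mn2 (by omega) hG' (Or.inl hn)
  | mn2 hcnt hG hst =>
    right
    have hlG' : p.len G = p.lG := rfl
    have hlJ' : p.len J = p.lJ := rfl
    rcases p.nb_n2 hb with rfl | rfl | rfl
    · have hz := cnt_insert (p.mem_zoneE (p.zoneV_name (v := n2) (by simp))
        (p.zoneV_name (v := n1) (by simp))) hu
      have hz2 := cnt_mono p.zoneE (Set.subset_insert s(a, a') U)
      exact .mzn _ Par.zn.n1 (by omega) (Or.inr ⟨Or.inl (by rw [Sym2.eq_swap]),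
        gs hG (nj _ (by simp)) (nj _ (by simp))⟩)
    · have e1 : I J (p.lJ - 1) = p.cp J true (p.lJ - 1) := by
        rw [p.cp_mid (c := J) (by omega) (by omega)]; simp
      have e2 : p.cp J true (p.lJ - 1 + 1) = n2 := by
        rw [show p.lJ - 1 + 1 = p.len J by omega, Par.cp_len]; rfl
      have hG' : p.GS (insert s(n2, I J (p.lJ - 1)) (insert s(a, a') U)) :=
        (hG.ins ha.2 ha'.2).ins (nj n2 (by simp)).2 (by simp [inC])
      have hbb : p.ce J true (p.lJ - 1) ∈ insert s(n2, I J (p.lJ - 1)) (insert s(a, a') U) := by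
        left; rw [Par.ce, e2, ← e1, Sym2.eq_swap]
      rw [e1] at hG' hbb ⊢
      exact .inj (p.lJ - 1) (by omega) (by omega) hbb (by omega) hG'
    · have e1 : I G (p.lG - 1) = p.cp G true (p.lG - 1) := by
        rw [p.cp_mid (c := G) (by omega) (by omega)]; simp
      have e2 : p.cp G true (p.lG - 1 + 1) = n2 := by
        rw [show p.lG - 1 + 1 = p.len G by omega, Par.cp_len]; rfl
      have e3 : s(n2, I G (p.lG - 1)) = p.ce G true (p.lG - 1) := by
        rw [Par.ce, e2, ← e1, Sym2.eq_swap]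
      have e4 : p.ce G false 0 = p.ce G true (p.lG - 1) := by
        rw [show (false : Bool) = !true from rfl, p.ce_rev (by omega)]; congr 1
      rcases hst with hst | ⟨hst, hf⟩
      · rw [e4, ← e3] at hst; exact absurd hst hu'
      · rw [e3] at hu ⊢
        rw [e1]
        refine .ing (p.lG - 1) (by omega) (by omega) (Or.inl rfl) ?_ (by omega) ?_
        · intro j hj hmem
          rcases hmem with hmem | hmem
          · have := p.ce_inj (c := G) (by omega) (by omega) hmem
            omega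
          · exact (Par.cG.ins hst ha.2 ha'.2) j (by omega) hmem
        · have := p.hG2; omega
  | mzn _ hz hcnt hst =>
    have hGS : p.GS U := by
      rcases hst with hst | hst
      · exact hst.1.GS
      · exact hst.2
    have hz2 := cnt_mono p.zoneE (Set.subset_insert s(a, a') U)
    have hstep : ∀ v, p.zn v → (chi b + chi v) % 2 = 1 → b' = v → p.SE (f + 1) (t + 1)
        (insert s(b, v) (insert s(a, a') U)) v := by
      intro v hv hpar hbv
      subst hbv
      have hz3 := cnt_insert (p.mem_zoneE hz.mem hv.mem) hu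
      refine .mzn _ hv (by omega) ?_
      rcases hst with hst | hst
      · exact Or.inl ⟨jg hst.1 hz.nJG hv.nJG, by omega⟩
      · exact Or.inr ⟨mem3 hst.1, gs hst.2 hz.nJG hv.nJG⟩
    have hink : ∀ c r d, p.vc (K c r) → b' = p.cp (K c r) d (p.lK - 1) → b = p.cp (K c r) d p.lK →
        p.SE (f + 1) (t + 1) (insert s(b, b') (insert s(a, a') U)) b' := by
      intro c r d hc h1 h2
      have e1 : p.ce (K c r) d (p.lK - 1) = s(b, b') := by
        rw [Par.ce, show p.lK - 1 + 1 = p.lK by omega, h1, h2, Sym2.eq_swap]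
      have hst' : p.JG (insert s(b, b') (insert s(a, a') U)) ∨
          (s(n1, n2) ∈ insert s(b, b') (insert s(a, a') U) ∧
            p.GS (insert s(b, b') (insert s(a, a') U))) := by
        have hb'n : nJG b' := by
          rw [h1]; exact p.cp_nJG_K (by omega) (by omega)
        rcases hst with hst | hst
        · exact Or.inl (jg hst.1 hz.nJG hb'n)
        · exact Or.inr ⟨mem3 hst.1, gs hst.2 hz.nJG hb'n⟩
      have hbb : p.ce (K c r) d (p.lK - 1) ∈ insert s(b, b') (insert s(a, a') U) := Or.inl e1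
      rw [h1] at hst' hbb ⊢
      exact .ink c r d (p.lK - 1) hc (by omega) (by omega) hbb (by omega) hst'
    rcases hz with ⟨i, s, rfl, hi⟩ | rfl | rfl
    · rcases p.nb_ln hb with ⟨s', rfl, h1, _⟩ | ⟨s', i', h0, rfl, h1, _⟩ | ⟨_, _, h, _⟩ |
        ⟨rfl, rfl, _, h⟩ | ⟨_, _, h, _⟩ | ⟨rfl, rfl, _, h⟩ | ⟨c, r, hc, hr, hl, hs, h⟩
      · exact Or.inr (hstep _ (Par.zn.ln (by omega)) (by simp only [chi]; omega) rfl)
      · exact Or.inr (hstep _ (Par.zn.ln (by omega)) (by simp only [chi]; omega) rfl)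
      · simp at h
      · rcases h with rfl | rfl
        · exact Or.inr (.de _ (by simp) (Or.inl (by rw [Sym2.eq_swap]))
            (gs hGS (nj _ (by simp)) (nj _ (by simp))))
        · left
          have hka := p.len_ge kap
          have hka' : p.len kap = p.ka := rfl
          have e1 : I kap (p.ka - 1) = p.cp kap true (p.ka - 1) := by
            rw [p.cp_mid (c := kap) (by omega) (by omega)]; simp
          have e2 : p.cp kap true (p.ka - 1 + 1) = ln false 0 false := by
            rw [show p.ka - 1 + 1 = p.len kap by omega, Par.cp_len]; rfl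
          have hg : p.GS (insert s(ln false 0 false, I kap (p.ka - 1)) (insert s(a, a') U)) :=
            gs hGS (nj _ (by simp)) ⟨by simp [inC], by simp [inC]⟩
          have hbb : p.ce kap true (p.ka - 1) ∈
              insert s(ln false 0 false, I kap (p.ka - 1)) (insert s(a, a') U) := by
            left; rw [Par.ce, e2, ← e1, Sym2.eq_swap]
          exact ⟨e1, hbb, hg⟩
      · simp at h
      · right
        rcases h with rfl | ⟨c, hc, rfl⟩
        · exact hstep _ Par.zn.n1 (by simp only [chi]; omega) rfl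
        · refine hink c 0 false ⟨hc, by omega⟩ ?_ ?_
          · rw [p.cp_mid (c := K c 0) (by omega) (by show p.lK - 1 < p.lK; omega)]
            simp only [Bool.false_eq_true, if_false, Par.len]
            congr 1; omega
          · have : p.lK = p.len (K c 0) := rfl
            rw [this, Par.cp_len]; rfl
      · right
        rcases h with ⟨rfl, rfl⟩ | ⟨rfl, rfl⟩
        · refine hink c r true ⟨hc, by omega⟩ ?_ ?_
          · rw [p.cp_mid (c := K c r) (by omega) (by show p.lK - 1 < p.lK; omega)]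
            simp
          · have : p.lK = p.len (K c r) := rfl
            rw [this, Par.cp_len]; simp [Par.fin, Par.dst, hr, ← hl, ← hs]
        · refine hink c (r + 1) false ⟨hc, by omega⟩ ?_ ?_
          · rw [p.cp_mid (c := K c (r + 1)) (by omega) (by show p.lK - 1 < p.lK; omega)]
            simp only [Bool.false_eq_true, if_false, Par.len]
            congr 1; omega
          · have : p.lK = p.len (K c (r + 1)) := rfl
            rw [this, Par.cp_len]; simp [Par.fin, Par.src, ← hl, ← hs]
    · right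
      rcases p.nb_R hb with rfl | ⟨c, hc, rfl⟩
      · exact hstep _ Par.zn.n1 (by simp only [chi]) rfl
      · refine hink c 3 true ⟨hc, by omega⟩ ?_ ?_
        · rw [p.cp_mid (c := K c 3) (by omega) (by show p.lK - 1 < p.lK; omega)]
          simp
        · have : p.lK = p.len (K c 3) := rfl
          rw [this, Par.cp_len]; simp [Par.fin, Par.dst]
    · right
      rcases p.nb_n1 hb with rfl | rfl | rfl
      · exact hstep _ (Par.zn.ln le_rfl) (by simp only [chi]; omega) rfl
      · exact hstep _ Par.zn.R (by simp only [chi]) rfl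
      · rcases hst with hst | hst
        · have hz3 := cnt_insert (p.mem_zoneE (p.zoneV_name (v := n1) (by simp))
            (p.zoneV_name (v := n2) (by simp))) hu
          have hj := jg hst.1 (nj n1 (by simp)) (nj n2 (by simp))
          have hf := hst.2
          simp only [chi] at hf
          exact .mn2 (by omega) hj.GS (Or.inr ⟨hj.2, by omega⟩)
        · exact absurd hst.1 hu'
  | lt1 h htt hJG hph =>
    right
    rcases p.nb_u2 hb with rfl | rfl | rfl
    · refine .de2 _ (by simp) (Or.inl (by rw [Sym2.eq_swap])) ?_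
        (gs hJG.GS (nj _ (by simp)) (nj _ (by simp)))
      rcases h with h | h
      · rw [Sym2.eq_swap] at hu'; exact absurd h hu'
      · exact mem3 h
    · refine .de2 _ (by simp) ?_ (Or.inl (by rw [Sym2.eq_swap]))
        (gs hJG.GS (nj _ (by simp)) (nj _ (by simp)))
      rcases h with h | h
      · exact mem3 h
      · rw [Sym2.eq_swap] at hu'; exact absurd h hu'
    · exact .mzn _ (Par.zn.ln (by omega)) (by omega)
        (Or.inl ⟨jg hJG (nj _ (by simp)) (nj _ (by simp)), by simp only [chi]; omega⟩)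
  | lt2 h htt hJG hph =>
    right
    rcases p.nb_m2 hb with rfl | rfl
    · rw [Sym2.eq_swap] at hu'; exact absurd h hu'
    · exact .lt1 (Or.inr (Or.inl rfl)) (by omega) (jg hJG (nj _ (by simp)) (nj _ (by simp)))
        (by omega)
  | lt3 h htt hJG hph =>
    right
    rcases p.nb_m2 hb with rfl | rfl
    · exact .lt4 (Or.inl (by rw [Sym2.eq_swap])) (by omega)
        (jg hJG (nj _ (by simp)) (nj _ (by simp))) (by omega)
    · exact absurd h hu'
  | lt4 h htt hJG hph =>
    right
    rcases p.nb_y2 hb with rfl | rfl | rfl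
    · obtain ⟨hx1, hx2⟩ := hx rfl rfl
      exact .dx (Or.inr hx1) (Or.inr hx2) (Or.inl (by rw [Sym2.eq_swap]))
        (gs hJG.GS (nj _ (by simp)) (nj _ (by simp)))
    · exact absurd h hu'
    · exact .lt1 (Or.inl (Or.inl rfl)) (by omega) (jg hJG (nj _ (by simp)) (nj _ (by simp)))
        (by omega)
  | lt5 h htt hJG hph =>
    right
    rcases p.nb_y2 hb with rfl | rfl | rfl
    · obtain ⟨hx1, hx2⟩ := hx rfl rfl
      exact .dx (Or.inr hx1) (Or.inr hx2) (Or.inl (by rw [Sym2.eq_swap]))
        (gs hJG.GS (nj _ (by simp)) (nj _ (by simp)))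
    · exact .lt2 (Or.inl rfl) (by omega) (jg hJG (nj _ (by simp)) (nj _ (by simp))) (by omega)
    · exact absurd h hu'
  | ink c r d k hc h1 h2 hk htk hst =>
    right
    have := p.cp_fwd (c := K c r) h1 h2 (Or.inr hk) hb hu
    subst this
    refine .ink c r d (k - 1) hc (by omega) (by omega) (p.ce_new h1) (by omega) ?_
    rcases hst with hst | hst
    · exact Or.inl (jg hst (p.cp_nJG_K h1 h2) (p.cp_le_nJG_K (by omega)))
    · exact Or.inr ⟨mem3 hst.1, gs hst.2 (p.cp_nJG_K h1 h2) (p.cp_le_nJG_K (by omega))⟩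
  | inj k h1 h2 hk htk hG =>
    right
    have := p.cp_fwd (c := J) h1 h2 (Or.inr hk) hb hu
    subst this
    exact .inj (k - 1) (by omega) (by omega) (p.ce_new h1) (by omega)
      ((hG.ins ha.2 ha'.2).ins (p.cp_nG_J (by omega)) (p.cp_nG_J (by omega)))
  | ing k h1 h2 hk hfr htk hph =>
    right
    have hlG' : p.len G = p.lG := rfl
    have := p.cp_fwd (c := G) h1 h2 (Or.inr hk) hb hu
    subst this
    refine .ing (k - 1) (by omega) (by omega) (p.ce_new h1) ?_ (by omega) (by omega)
    intro j hj hmem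
    rcases hmem with hmem | hmem | hmem
    · rw [← p.ce_pred h1] at hmem
      have := p.ce_inj (c := G) (by omega) (by omega) hmem
      omega
    · exact p.ne_ce (c := G) (by omega) ha.2 ha'.2 hmem.symm
    · exact hfr j (by omega) hmem

lemma Par.ctx.hx {U : Set (Sym2 V)} {b b' : V} {e : Sym2 V} (hctx : p.ctx U)
    (hu : s(b, b') ∉ insert e U) (h1 : b = y2) (h2 : b' = x) :
    s(z, x) ∈ insert e U ∧ s(x, y1) ∈ insert e U := by
  subst h1 h2
  refine ⟨Or.inr hctx.1, ?_⟩
  rcases hctx.2 with h | ⟨_, h⟩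
  · exact Or.inr h
  · rw [Sym2.eq_swap] at hu; exact absurd (Or.inr h) hu

lemma Par.SE.step' {f t : ℕ} {U : Set (Sym2 V)} {b b' a a' : V} (h : p.SE f t U b)
    (ht : t ≤ p.la + p.Len + 6) (hctx : p.ctx U) (ha : nJG a)
    (ha' : nJG a') (hb : p.Adj b b') (hu : s(b, b') ∉ insert s(a, a') U) :
    p.SM (f + 1) (t + 1) (insert s(b, b') (insert s(a, a') U)) b' := by
  rcases h.step ht (hctx.hx hu) ha ha' hb hu with ⟨h1, h2, h3⟩ | h
  · have hka := p.len_ge kap
    have hka' : p.len kap = p.ka := rfl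
    left
    refine ⟨?_, h3⟩
    rw [h1] at h2 ⊢
    exact .wk (p.ka - 1) (by omega) (by omega) h2
  · exact Or.inr h

end Pool.Agent.H33.TT
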