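import Mathlib
import Pool.Agent.H33.TT.Slow2

/-!
# Running through a corridor while the opponent is inside another one; the cut
-/

namespace Pool.Agent.H33.TT

open V Cor

variable {p : Par}

/-- The player runs through `n` edges of `c` while the opponent is inside of `c'`. -/
theorem trapped {c c' : Cor} (hc : p.vc c) (hcc : c ≠ c') (d d' : Bool) :
    ∀ (n i k : ℕ) (U : Set (Sym2 V)), i + n ≤ p.len c → k < p.len c' → n < k →
    (∀ j, i ≤ j → j < i + n → p.ce c d j ∉ U) → p.ce c' d' k ∈ U →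
    (∀ U' : Set (Sym2 V), U ⊆ U' → (∀ j, i ≤ j → j < i + n → p.ce c d j ∈ U') →
      p.ce c' d' (k - n) ∈ U' →
      (∀ e ∈ U', e ∈ U ∨ (∃ j, i ≤ j ∧ j < i + n ∧ e = p.ce c d j) ∨
        (∃ j, k - n ≤ j ∧ j < k ∧ e = p.ce c' d' j)) →
      MW p.Adj U' (p.cp c d (i + n)) (p.cp c' d' (k - n))) →
    MW p.Adj U (p.cp c d i) (p.cp c' d' k) := by
  intro n
  induction n with
  | zero =>
    intro i k U _ _ _ _ hb hend
    exact hend U le_rfl (fun j h1 h2 => by omega) hb (fun e he => Or.inl he)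
  | succ n ih =>
    intro i k U h1 h2 h3 hfree hb hend
    refine MW.intro (p.cp c d (i + 1)) (p.cp_adj hc d (by omega)) (hfree i le_rfl (by omega)) ?_
    intro b' hadj hu
    have := p.cp_fwd (by omega) h2 (Or.inr hb) hadj hu
    subst this
    have hnew : s(p.cp c' d' k, p.cp c' d' (k - 1)) = p.ce c' d' (k - 1) :=
      (p.ce_pred (by omega)).symm
    refine ih (i + 1) (k - 1) _ (by omega) (by omega) (by omega) ?_ (p.ce_new (by omega)) ?_
    · intro j hj1 hj2 hmem
      rcases hmem with hmem | hmem | hmem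
      · rw [hnew] at hmem
        exact p.ce_ne (by omega) (by omega) hcc hmem
      · have := p.ce_inj (c := c) (d := d) (i := j) (j := i) (by omega) (by omega) hmem
        omega
      · exact hfree j (by omega) (by omega) hmem
    · intro U' hU' h4 h5 h6
      have e1 : i + 1 + n = i + (n + 1) := by omega
      have e2 : k - 1 - n = k - (n + 1) := by omega
      rw [e1, e2]
      rw [e2] at h5 h6
      rw [e1] at h4 h6
      refine hend U' ((Set.subset_insert _ _).trans ((Set.subset_insert _ _).trans hU')) ?_ h5 ?_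
      · intro j hj1 hj2
        by_cases hj : j = i
        · subst hj; exact hU' (Or.inr (Or.inl rfl))
        · exact h4 j (by omega) hj2
      · intro e he
        rcases h6 e he with h | ⟨j, hj1, hj2, rfl⟩ | ⟨j, hj1, hj2, rfl⟩
        · rcases h with h | h | h
          · rw [hnew] at h
            exact Or.inr (Or.inr ⟨k - 1, by omega, by omega, h⟩)
          · exact Or.inr (Or.inl ⟨i, le_rfl, by omega, h⟩)
          · exact Or.inl h
        · exact Or.inr (Or.inl ⟨j, by omega, hj2, rfl⟩)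
        · exact Or.inr (Or.inr ⟨j, hj1, by omega, rfl⟩)

lemma Par.cp_J0 : p.cp J true 0 = ln true p.Len false := by rw [Par.cp_zero]; rfl
lemma Par.cp_G0 : p.cp G true 0 = ln true p.Len false := by rw [Par.cp_zero]; rfl
lemma Par.cp_Jl : p.cp J true p.lJ = n2 := by
  have : p.lJ = p.len J := rfl
  rw [this, Par.cp_len]; rfl
lemma Par.cp_Jr : p.cp J false p.lJ = ln true p.Len false := by
  have : p.lJ = p.len J := rfl
  rw [this, Par.cp_len]; rfl
lemma Par.cp_Jf0 : p.cp J false 0 = n2 := by rw [Par.cp_zero]; rfl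
lemma Par.cp_Gl : p.cp G true p.lG = n2 := by
  have : p.lG = p.len G := rfl
  rw [this, Par.cp_len]; rfl
lemma Par.cp_Gf0 : p.cp G false 0 = n2 := by rw [Par.cp_zero]; rfl
lemma Par.cp_Gr : p.cp G false p.lG = ln true p.Len false := by
  have : p.lG = p.len G := rfl
  rw [this, Par.cp_len]; rfl

/-- The last edge of the lane of the first player. -/
def Par.endE (p : Par) : Sym2 V := s(ln true (p.Len - 1) false, ln true p.Len false)

lemma Par.not_inn_Len1 : ¬ p.inn (p.Len - 1) := by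
  unfold Par.inn
  have h1 := p.hsg
  have h2 := p.hP'
  rw [p.hLen, show p.N * p.P + p.sg - 1 = p.N * p.P + (p.sg - 1) by omega,
    p.mod_of (by omega)]
  omega

/-- Neighbours of `h`, if the last edge of the lane is used. -/
lemma Par.nb_h {U : Set (Sym2 V)} {v : V} (hE : p.endE ∈ U) (h : p.Adj (ln true p.Len false) v)
    (hu : s(ln true p.Len false, v) ∉ U) : v = I J 1 ∨ v = I G 1 := by
  have hL := p.Len_odd
  rcases p.nb_ln h with ⟨_, _, h1, _⟩ | ⟨s', i', h0, rfl, _, _, h3, _⟩ | ⟨h1, _⟩ | ⟨h1, _⟩ |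
    ⟨_, _, _, h1⟩ | ⟨_, _, h1, _⟩ | ⟨c, r, hc, hr, _, _, h1⟩
  · omega
  · have e : i' = p.Len - 1 := by omega
    subst e
    rcases h3 with rfl | h3
    · exfalso; apply hu; rw [Sym2.eq_swap]; exact hE
    · exact absurd h3 p.not_inn_Len1
  · omega
  · omega
  · exact h1
  · simp at h1
  · have h2 := p.ai_lt hc hr
    have h3 := p.hLen
    rcases h1 with ⟨h1, _⟩ | ⟨h1, _⟩ <;> omega

/-- A neighbour of `h` is the last lane vertex or inside of `J` or `G`. -/
lemma Par.nb_h' {U : Set (Sym2 V)} {v : V} (hE : p.endE ∈ U) (h : p.Adj v (ln true p.Len false))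
    (hu : s(v, ln true p.Len false) ∉ U) : inC J v ∨ inC G v := by
  rw [Sym2.eq_swap] at hu
  rcases p.nb_h hE h.symm hu with rfl | rfl
  · exact Or.inl ⟨_, rfl⟩
  · exact Or.inr ⟨_, rfl⟩

/-- A neighbour of an interior vertex of `J`, itself not interior. -/
lemma Par.nb_inJ {v w : V} (h : p.Adj v w) (hw : inC J w) (hv : ¬ inC J v) :
    (v = ln true p.Len false ∧ w = I J 1) ∨ (v = n2 ∧ w = I J (p.lJ - 1)) := by
  obtain ⟨j, rfl⟩ := hw
  obtain ⟨_, h1, h2, h3⟩ := p.nb_I h.symm
  have hl : p.len J = p.lJ := rfl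
  have hl2 := p.len_ge J
  rcases h3 with rfl | rfl
  · rcases Nat.lt_or_ge 1 j with h4 | h4
    · exact absurd ⟨_, p.pt_mid (by omega) (by omega)⟩ hv
    · left
      have : j = 1 := by omega
      subst this
      exact ⟨by simp [Par.src], rfl⟩
  · by_cases h4 : j + 1 = p.len J
    · right
      refine ⟨by rw [h4, Par.pt_len]; rfl, by congr 1; omega⟩
    · exact absurd ⟨_, p.pt_mid (by omega) (by omega)⟩ hv

/-- A neighbour of an interior vertex of `G`, itself not interior. -/
lemma Par.nb_inG {v w : V} (h : p.Adj v w) (hw : inC G w) (hv : ¬ inC G v) :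
    (v = ln true p.Len false ∧ w = I G 1) ∨ (v = n2 ∧ w = I G (p.lG - 1)) := by
  obtain ⟨j, rfl⟩ := hw
  obtain ⟨_, h1, h2, h3⟩ := p.nb_I h.symm
  have hl : p.len G = p.lG := rfl
  have hl2 := p.len_ge G
  rcases h3 with rfl | rfl
  · rcases Nat.lt_or_ge 1 j with h4 | h4
    · exact absurd ⟨_, p.pt_mid (by omega) (by omega)⟩ hv
    · left
      have : j = 1 := by omega
      subst this
      exact ⟨by simp [Par.src], rfl⟩
  · by_cases h4 : j + 1 = p.len G
    · right
      refine ⟨by rw [h4, Par.pt_len]; rfl, by congr 1; omega⟩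
    · exact absurd ⟨_, p.pt_mid (by omega) (by omega)⟩ hv

lemma Par.ceJ0 : p.ce J true 0 = s(ln true p.Len false, I J 1) := by
  have hl := p.len_ge J
  rw [Par.ce, Par.cp_J0, p.cp_mid (c := J) (k := 0 + 1) (by omega) (by omega)]; simp
lemma Par.ceG0 : p.ce G true 0 = s(ln true p.Len false, I G 1) := by
  have hl := p.len_ge G
  rw [Par.ce, Par.cp_G0, p.cp_mid (c := G) (k := 0 + 1) (by omega) (by omega)]; simp
lemma Par.ceJf0 : p.ce J false 0 = s(n2, I J (p.lJ - 1)) := by
  have hl := p.len_ge J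
  rw [Par.ce, Par.cp_Jf0, p.cp_mid (c := J) (k := 0 + 1) (by omega) (by omega)]; simp [Par.len]
lemma Par.ceGf0 : p.ce G false 0 = s(n2, I G (p.lG - 1)) := by
  have hl := p.len_ge G
  rw [Par.ce, Par.cp_Gf0, p.cp_mid (c := G) (k := 0 + 1) (by omega) (by omega)]; simp [Par.len]

/-- **The cut from `h`.** The player is on `h`, all of `J` and `G` is free, the opponent is deep
inside of a clause corridor. -/
theorem cut_h {U : Set (Sym2 V)} {c r : ℕ} {d : Bool} {k : ℕ} (hJG : p.JG U) (hE : p.endE ∈ U)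
    (hk : k < p.lK) (hk2 : p.lJ < k) (hb : p.ce (K c r) d k ∈ U) :
    MW p.Adj U (ln true p.Len false) (p.cp (K c r) d k) := by
  have hlJ : p.len J = p.lJ := rfl
  have hlG : p.len G = p.lG := rfl
  have hJge := p.len_ge J
  have hGge := p.len_ge G
  have hGG := p.hG
  rw [← p.cp_J0]
  refine trapped (c := J) trivial (by simp) true d p.lJ 0 k U (by omega) hk hk2 ?_ hb ?_
  · intro j _ hj; exact hJG.1 j (by omega)
  intro U' hU' h1 h2 h3
  rw [zero_add, p.cp_Jl, ← p.cp_Gf0]
  have hx : ¬ inC G (p.cp (K c r) d (k - p.lJ)) ∧ ¬ inC J (p.cp (K c r) d (k - p.lJ)) ∧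
      p.cp (K c r) d (k - p.lJ) ≠ n2 ∧ p.cp (K c r) d (k - p.lJ) ≠ ln true p.Len false := by
    rw [p.cp_mid (c := K c r) (by omega) (by show k - p.lJ < p.lK; omega)]
    simp [inC]
  refine gfinal false p.lG le_rfl (fun i U b => b ≠ ln true p.Len false ∧ ¬ inC J b ∧ ¬ inC G b ∧
    p.endE ∈ U ∧ p.ce J true 0 ∈ U ∧ p.ce J false 0 ∈ U ∧ (b = n2 → p.ce G false 0 ∈ U) ∧
    (1 ≤ i → p.ce G false 0 ∈ U)) ?_ 0 U' _ (by omega) ?_ ?_
  · rintro i U b b' ⟨m1, m2, m3, m4, m5, m6, m7, m8⟩ hi hb hu hf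
    left
    have hb'J : ¬ inC J b' := by
      intro h
      rcases p.nb_inJ hb h m2 with ⟨h1, _⟩ | ⟨h1, h2⟩
      · exact m1 h1
      · subst h1 h2
        exact hu (Or.inr (p.ceJf0 ▸ m6))
    have hb'G : ¬ inC G b' := by
      intro h
      rcases p.nb_inG hb h m3 with ⟨h1, _⟩ | ⟨h1, h2⟩
      · exact m1 h1
      · subst h1 h2
        exact hu (Or.inr (p.ceGf0 ▸ m7 rfl))
    refine ⟨m3, hb'G, ?_, hb'J, hb'G, mem3 m4, mem3 m5, mem3 m6, ?_, ?_⟩
    · intro h
      subst h
      rcases p.nb_h' m4 hb (fun h => hu (Or.inr h)) with h | h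
      · exact m2 h
      · exact m3 h
    · intro _
      rcases Nat.eq_zero_or_pos i with rfl | h0
      · exact Or.inr (Or.inl rfl)
      · exact mem3 (m8 h0)
    · intro _
      rcases Nat.eq_zero_or_pos i with rfl | h0
      · exact Or.inr (Or.inl rfl)
      · exact mem3 (m8 h0)
  · intro j _ hj hmem
    rcases h3 _ hmem with h | ⟨j', _, h4, h5⟩ | ⟨j', _, h4, h5⟩
    · exact p.cfree_rev hJG.2 false hj h
    · exact p.ce_ne (c := G) (c' := J) hj (by omega) (by simp) h5
    · exact p.ce_ne (c := G) (c' := K c r) hj (by show j' < p.lK; omega) (by simp) h5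
  · refine ⟨hx.2.2.2, hx.2.1, hx.1, hU' hE, h1 0 le_rfl (by omega), ?_, fun h => absurd h hx.2.2.1,
      by omega⟩
    have : p.ce J false 0 = p.ce J true (p.lJ - 1) := by
      rw [show (false : Bool) = !true from rfl, p.ce_rev (by omega)]; congr 1
    rw [this]
    exact h1 _ (by omega) (by omega)

end Pool.Agent.H33.TT
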