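import Mathlib
import Pool.Agent.H33.TT.Run

/-!
# The slow road: the final decision at `h`
-/

namespace Pool.Agent.H33.TT

open V Cor

variable {p : Par}


/-- Run through the unbroken part of `G` from `h`, the opponent being confined. -/
theorem conf_h (Md : ℕ → Set (Sym2 V) → V → Prop)
    (hcl : ∀ i U b b', Md i U b → p.Adj b b' → s(b, b') ∉ insert (p.ce G true i) U →
      ¬ inC G b ∧ ¬ inC G b' ∧ Md (i + 1) (insert s(b, b') (insert (p.ce G true i) U)) b')
    (U : Set (Sym2 V)) (b : V) (hG : p.GS U) (hMd : Md 0 U b) :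
    MW p.Adj U (ln true p.Len false) b := by
  have hGG := p.hG
  rw [← p.cp_G0]
  refine gfinal true (p.lG - p.Len - 41) (by omega) Md ?_ 0 U b (by omega) ?_ hMd
  · intro i U b b' h1 _ h2 h3 _
    exact Or.inl (hcl i U b b' h1 h2 h3)
  · intro j _ hj
    exact hG j (by omega)

/-- Confinement when `n1 n2` is used. -/
theorem conf_n12 {U : Set (Sym2 V)} {b : V} (hG : p.GS U) (hE : p.endE ∈ U) (hn : s(n1, n2) ∈ U)
    (h1 : b ≠ n2) (h2 : b ≠ ln true p.Len false) (h3 : ¬ inC J b) (h4 : ¬ inC G b) :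
    MW p.Adj U (ln true p.Len false) b := by
  refine conf_h (fun _ U b => p.endE ∈ U ∧ s(n1, n2) ∈ U ∧ b ≠ n2 ∧ b ≠ ln true p.Len false ∧
    ¬ inC J b ∧ ¬ inC G b) ?_ U b hG ⟨hE, hn, h1, h2, h3, h4⟩
  rintro i U b b' ⟨hE, hn, h1, h2, h3, h4⟩ hb hu
  have hu' : s(b, b') ∉ U := fun h => hu (Or.inr h)
  have hb'J : ¬ inC J b' := by
    intro h
    rcases p.nb_inJ hb h h3 with ⟨h, _⟩ | ⟨h, _⟩
    · exact h2 h
    · exact h1 h
  have hb'G : ¬ inC G b' := by
    intro h
    rcases p.nb_inG hb h h4 with ⟨h, _⟩ | ⟨h, _⟩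
    · exact h2 h
    · exact h1 h
  refine ⟨h4, hb'G, mem3 hE, mem3 hn, ?_, ?_, hb'J, hb'G⟩
  · rintro rfl
    rcases p.nb_n2 hb.symm with rfl | rfl | rfl
    · exact hu' hn
    · exact h3 ⟨_, rfl⟩
    · exact h4 ⟨_, rfl⟩
  · rintro rfl
    rcases p.nb_h' hE hb hu' with h | h
    · exact h3 h
    · exact h4 h

/-- The closed region in the east. -/
inductive Par.DE (p : Par) (U : Set (Sym2 V)) : V → Prop
  | de (b : V) (hb : b = u2 ∨ b = y2 ∨ b = m2) (h : s(u2, ln false 0 false) ∈ U) : Par.DE p U b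
  | de2 (b : V) (hb : b = y2 ∨ b = m2) (h1 : s(y2, u2) ∈ U) (h2 : s(m2, u2) ∈ U) : Par.DE p U b
  | dx (h1 : s(z, x) ∈ U) (h2 : s(x, y1) ∈ U) (h3 : s(x, y2) ∈ U) : Par.DE p U x

lemma Par.DE.step {U : Set (Sym2 V)} {b b' : V} {e : Sym2 V} (h : p.DE U b) (hctx : p.ctx U)
    (hb : p.Adj b b') (hu : s(b, b') ∉ insert e U) :
    ¬ inC G b ∧ ¬ inC G b' ∧ p.DE (insert s(b, b') (insert e U)) b' := by
  have hu' : s(b, b') ∉ U := fun h => hu (Or.inr h)
  cases h with
  | de _ hh h =>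
    rcases hh with rfl | rfl | rfl
    · rcases p.nb_u2 hb with rfl | rfl | rfl
      · exact ⟨by simp [inC], by simp [inC], .de _ (by simp) (mem3 h)⟩
      · exact ⟨by simp [inC], by simp [inC], .de _ (by simp) (mem3 h)⟩
      · exact absurd h hu'
    · rcases p.nb_y2 hb with rfl | rfl | rfl
      · refine ⟨by simp [inC], by simp [inC], .dx (mem3 hctx.1) ?_ (Or.inl (by rw [Sym2.eq_swap]))⟩
        rcases hctx.2 with h | ⟨_, h⟩
        · exact mem3 h
        · rw [Sym2.eq_swap] at hu'; exact absurd h hu'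
      · exact ⟨by simp [inC], by simp [inC], .de _ (by simp) (mem3 h)⟩
      · exact ⟨by simp [inC], by simp [inC], .de _ (by simp) (mem3 h)⟩
    · rcases p.nb_m2 hb with rfl | rfl
      · exact ⟨by simp [inC], by simp [inC], .de _ (by simp) (mem3 h)⟩
      · exact ⟨by simp [inC], by simp [inC], .de _ (by simp) (mem3 h)⟩
  | de2 _ hh h1 h2 =>
    rcases hh with rfl | rfl
    · rcases p.nb_y2 hb with rfl | rfl | rfl
      · refine ⟨by simp [inC], by simp [inC], .dx (mem3 hctx.1) ?_ (Or.inl (by rw [Sym2.eq_swap]))⟩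
        rcases hctx.2 with h | ⟨_, h⟩
        · exact mem3 h
        · rw [Sym2.eq_swap] at hu'; exact absurd h hu'
      · exact ⟨by simp [inC], by simp [inC], .de2 _ (by simp) (mem3 h1) (mem3 h2)⟩
      · exact absurd h1 hu'
    · rcases p.nb_m2 hb with rfl | rfl
      · exact ⟨by simp [inC], by simp [inC], .de2 _ (by simp) (mem3 h1) (mem3 h2)⟩
      · exact absurd h2 hu'
  | dx h1 h2 h3 =>
    rcases p.nb_x hb with rfl | rfl | rfl
    · rw [Sym2.eq_swap] at hu'; exact absurd h1 hu'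
    · exact absurd h2 hu'
    · exact absurd h3 hu'

lemma Par.ctx.ins2 {U : Set (Sym2 V)} {e e' : Sym2 V} (h : p.ctx U) :
    p.ctx (insert e (insert e' U)) := by
  refine ⟨mem3 h.1, ?_⟩
  rcases h.2 with h | ⟨h1, h2⟩
  · exact Or.inl (mem3 h)
  · exact Or.inr ⟨mem3 h1, mem3 h2⟩

/-- **The decision at `h` on the slow road.** -/
theorem slow_fin {f t : ℕ} {U : Set (Sym2 V)} {b : V} (hf : f % 2 = 1)
    (ht1 : p.la + p.Len + 2 ≤ t) (ht2 : t ≤ p.la + p.Len + 5) (hctx : p.ctx U)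
    (hE : p.endE ∈ U) (hL : s(u1, I lam 1) ∈ U) (hm : p.SM f t U b) :
    MW p.Adj U (ln true p.Len false) b := by
  have hlK := p.hK
  have hlJ := p.hJ
  have hlG := p.hG
  have hla := p.la_ge
  have hzc := (cnt_le p.zoneE U).trans p.zoneE_card
  have hde : p.GS U → p.DE U b → MW p.Adj U (ln true p.Len false) b := by
    intro hG h
    refine conf_h (fun _ U b => p.ctx U ∧ p.DE U b) ?_ U b hG ⟨hctx, h⟩
    rintro i U b b' ⟨h1, h2⟩ h3 h4
    obtain ⟨h5, h6, h7⟩ := h2.step h1 h3 h4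
    exact ⟨h5, h6, h1.ins2, h7⟩
  rcases hm with ⟨hm, hG⟩ | hm
  · refine conf_h (fun _ U b => p.ctx U ∧ s(u1, I lam 1) ∈ U ∧ p.SW U b) ?_ U b hG ⟨hctx, hL, hm⟩
    rintro i U b b' ⟨h1, h2, h3⟩ h4 h5
    have h6 := h3.step h1 (Or.inr h2) h4 h5
    exact ⟨h3.nj.2, h6.nj.2, h1.ins2, mem3 h2, h6⟩
  · cases hm with
    | de _ hh h hG => exact hde hG (.de _ hh h)
    | de2 _ hh h1 h2 hG => exact hde hG (.de2 _ hh h1 h2)
    | dx h1 h2 h3 hG => exact hde hG (.dx h1 h2 h3)
    | eiK c r d k hc h1 h2 hk htk he hJG hph => omega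
    | eikap k h1 h2 hk htk hJG hph => omega
    | eiJ k h1 h2 hk htk hG hph => omega
    | eiG k h1 h2 hk htk hG => omega
    | mn2 hcnt hG hst => omega
    | mzn _ hz hcnt hst => omega
    | lt1 h htt hJG hph => omega
    | lt2 h htt hJG hph => omega
    | lt3 h htt hJG hph => omega
    | lt4 h htt hJG hph => omega
    | lt5 h htt hJG hph => omega
    | ink c r d k hc h1 h2 hk htk hst =>
      rcases hst with hst | ⟨hst, hG⟩
      · exact cut_h hst hE h2 (by omega) hk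
      · have hx : ¬ inC G (p.cp (K c r) d k) ∧ ¬ inC J (p.cp (K c r) d k) ∧
            p.cp (K c r) d k ≠ n2 ∧ p.cp (K c r) d k ≠ ln true p.Len false := by
          rw [p.cp_mid (c := K c r) (by omega) h2]
          simp [inC]
        exact conf_n12 hG hE hst hx.2.2.1 hx.2.2.2 hx.2.1 hx.1
    | inj k h1 h2 hk htk hG =>
      refine conf_h (fun i U b => p.endE ∈ U ∧ (1 ≤ i → p.ce G true 0 ∈ U) ∧
        ((∃ k, 1 ≤ k ∧ k < p.lJ ∧ b = p.cp J true k ∧ p.ce J true k ∈ U) ∨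
          (1 ≤ i ∧ b = ln true p.Len false ∧ p.ce J true 0 ∈ U))) ?_ U _ hG
          ⟨hE, by omega, Or.inl ⟨k, h1, h2, rfl, hk⟩⟩
      rintro i U b b' ⟨hE, hi, h⟩ hb hu
      have hg : p.ce G true 0 ∈ insert (p.ce G true i) U := by
        rcases Nat.eq_zero_or_pos i with rfl | h0
        · exact Or.inl rfl
        · exact Or.inr (hi h0)
      rcases h with ⟨k, h1, h2, rfl, hk⟩ | ⟨h0, rfl, hj⟩
      · have := p.cp_fwd (c := J) h1 h2 (Or.inr hk) hb hu
        subst this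
        refine ⟨p.cp_nG_J (by omega), p.cp_nG_J (by omega), mem3 hE, fun _ => Or.inr hg, ?_⟩
        rcases Nat.lt_or_ge 1 k with h3 | h3
        · exact Or.inl ⟨k - 1, by omega, by omega, rfl, p.ce_new h1⟩
        · have : k = 1 := by omega
          subst this
          have hn := p.ce_new (c := J) (d := true) (U := insert (p.ce G true i) U) (k := 1) le_rfl
          rw [Nat.sub_self] at hn ⊢
          exact Or.inr ⟨by omega, p.cp_J0, hn⟩
      · exfalso
        rcases p.nb_h hE hb (fun h => hu (Or.inr h)) with rfl | rfl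
        · rw [← p.ceJ0] at hu; exact hu (Or.inr hj)
        · rw [← p.ceG0] at hu; exact hu hg
    | ing k h1 h2 hk hfr htk hph =>
      rw [← p.cp_G0]
      exact headon (c := G) trivial true ((k - 1) / 2) 0 k U (by omega) h2
        (fun j _ hj => hfr j hj) hk

end Pool.Agent.H33.TT
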