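import Mathlib
import Pool.Agent.H33.TT.Slow3

/-!
# The slow road
-/

namespace Pool.Agent.H33.TT

open V Cor

variable {p : Par}

/-- The vertex is not on the road of the player. -/
def nA (v : V) : Prop := (∀ i s, v ≠ ln true i s) ∧ ∀ j, v ≠ I lam j

lemma Par.SW.nA {U : Set (Sym2 V)} {b : V} (h : p.SW U b) : nA b := by
  cases h with
  | wk k h1 h2 => rw [p.cp_mid (c := kap) h1 h2]; exact ⟨by simp, by simp⟩
  | wx2 => exact ⟨by simp, by simp⟩
  | ww => exact ⟨by simp, by simp⟩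
  | wtri b hb => rcases hb with rfl | rfl | rfl <;> exact ⟨by simp, by simp⟩
  | we b hb => rcases hb with rfl | ⟨rfl, _⟩ <;> exact ⟨by simp, by simp⟩

lemma Par.SE.nA {f t : ℕ} {U : Set (Sym2 V)} {b : V} (h : p.SE f t U b) : nA b ∧ b ≠ u1 ∧ b ≠ m1 := by
  cases h with
  | de _ hh => rcases hh with rfl | rfl | rfl <;> exact ⟨⟨by simp, by simp⟩, by simp, by simp⟩
  | de2 _ hh => rcases hh with rfl | rfl <;> exact ⟨⟨by simp, by simp⟩, by simp, by simp⟩
  | dx => exact ⟨⟨by simp, by simp⟩, by simp, by simp⟩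
  | eiK c r d k hc h1 h2 =>
    rw [p.cp_mid (c := K c r) h1 h2]; exact ⟨⟨by simp, by simp⟩, by simp, by simp⟩
  | eikap k h1 h2 => rw [p.cp_mid (c := kap) h1 h2]; exact ⟨⟨by simp, by simp⟩, by simp, by simp⟩
  | eiJ k h1 h2 => rw [p.cp_mid (c := J) h1 h2]; exact ⟨⟨by simp, by simp⟩, by simp, by simp⟩
  | eiG k h1 h2 => rw [p.cp_mid (c := G) h1 h2]; exact ⟨⟨by simp, by simp⟩, by simp, by simp⟩
  | mn2 => exact ⟨⟨by simp, by simp⟩, by simp, by simp⟩
  | mzn _ hz =>
    rcases hz with ⟨i, s, rfl, hi⟩ | rfl | rfl <;> exact ⟨⟨by simp, by simp⟩, by simp, by simp⟩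
  | lt1 => exact ⟨⟨by simp, by simp⟩, by simp, by simp⟩
  | lt2 => exact ⟨⟨by simp, by simp⟩, by simp, by simp⟩
  | lt3 => exact ⟨⟨by simp, by simp⟩, by simp, by simp⟩
  | lt4 => exact ⟨⟨by simp, by simp⟩, by simp, by simp⟩
  | lt5 => exact ⟨⟨by simp, by simp⟩, by simp, by simp⟩
  | ink c r d k hc h1 h2 =>
    rw [p.cp_mid (c := K c r) h1 h2]; exact ⟨⟨by simp, by simp⟩, by simp, by simp⟩
  | inj k h1 h2 => rw [p.cp_mid (c := J) h1 h2]; exact ⟨⟨by simp, by simp⟩, by simp, by simp⟩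
  | ing k h1 h2 => rw [p.cp_mid (c := G) h1 h2]; exact ⟨⟨by simp, by simp⟩, by simp, by simp⟩

lemma Par.SM.nA {f t : ℕ} {U : Set (Sym2 V)} {b : V} (h : p.SM f t U b) : nA b := by
  rcases h with ⟨h, _⟩ | h
  · exact h.nA
  · exact h.nA.1

lemma Par.SM.step {f t : ℕ} {U : Set (Sym2 V)} {b b' a a' : V} (h : p.SM f t U b)
    (ht : t ≤ p.la + p.Len + 6) (hctx : p.ctx U) (ha : nJG a)
    (ha' : nJG a') (hL : s(u1, I lam 1) ∈ insert s(a, a') U) (hb : p.Adj b b')
    (hu : s(b, b') ∉ insert s(a, a') U) :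
    p.SM (f + 1) (t + 1) (insert s(b, b') (insert s(a, a') U)) b' := by
  rcases h with ⟨h, hG⟩ | h
  · have h6 := h.step hctx hL hb hu
    exact Or.inl ⟨h6, (hG.ins ha.2 ha'.2).ins h.nj.2 h6.nj.2⟩
  · exact h.step' ht hctx ha ha' hb hu

lemma Par.SE.congr {f f' t : ℕ} {U : Set (Sym2 V)} {b : V} (h : p.SE f t U b)
    (hf : f % 2 = f' % 2) : p.SE f' t U b := by
  cases h with
  | de _ hh h hG => exact .de _ hh h hG
  | de2 _ hh h1 h2 hG => exact .de2 _ hh h1 h2 hG
  | dx h1 h2 h3 hG => exact .dx h1 h2 h3 hG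
  | eiK c r d k hc h1 h2 hk htk he hJG hph => exact .eiK c r d k hc h1 h2 hk htk he hJG (by omega)
  | eikap k h1 h2 hk htk hJG hph => exact .eikap k h1 h2 hk htk hJG (by omega)
  | eiJ k h1 h2 hk htk hG hph => exact .eiJ k h1 h2 hk htk hG (by omega)
  | eiG k h1 h2 hk htk hG => exact .eiG k h1 h2 hk htk hG
  | mn2 hcnt hG hst =>
    refine .mn2 hcnt hG ?_
    rcases hst with h | ⟨h1, h2⟩
    · exact Or.inl h
    · exact Or.inr ⟨h1, by omega⟩
  | mzn _ hz hcnt hst =>
    refine .mzn _ hz hcnt ?_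
    rcases hst with ⟨h1, h2⟩ | h
    · exact Or.inl ⟨h1, by omega⟩
    · exact Or.inr h
  | lt1 h htt hJG hph => exact .lt1 h htt hJG (by omega)
  | lt2 h htt hJG hph => exact .lt2 h htt hJG (by omega)
  | lt3 h htt hJG hph => exact .lt3 h htt hJG (by omega)
  | lt4 h htt hJG hph => exact .lt4 h htt hJG (by omega)
  | lt5 h htt hJG hph => exact .lt5 h htt hJG (by omega)
  | ink c r d k hc h1 h2 hk htk hst => exact .ink c r d k hc h1 h2 hk htk hst
  | inj k h1 h2 hk htk hG => exact .inj k h1 h2 hk htk hG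
  | ing k h1 h2 hk hfr htk hph => exact .ing k h1 h2 hk hfr htk (by omega)

lemma Par.SM.congr {f f' t : ℕ} {U : Set (Sym2 V)} {b : V} (h : p.SM f t U b)
    (hf : f % 2 = f' % 2) : p.SM f' t U b := by
  rcases h with h | h
  · exact Or.inl h
  · exact Or.inr (h.congr hf)

lemma nJG_ln (l : Bool) (i : ℕ) (s : Bool) : nJG (ln l i s) := ⟨by simp [inC], by simp [inC]⟩

/-- Continuing in a lane: the next side. -/
def Par.nx (p : Par) (i : ℕ) (s : Bool) : Bool := if p.inn (i + 1) then s else false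

lemma Par.nx_adj {l : Bool} {i : ℕ} {s : Bool} (hi : i < p.Len) (hs : p.ok i s) :
    p.Adj (ln l i s) (ln l (i + 1) (p.nx i s)) ∧ p.ok (i + 1) (p.nx i s) := by
  unfold Par.nx
  split_ifs with h
  · exact ⟨Or.inl (.lane l i s s hi hs (Or.inr h) (fun _ _ => rfl)), Or.inr h⟩
  · exact ⟨Or.inl (.lane l i s false hi hs (Or.inl rfl) (fun _ h' => absurd h' h)), Or.inl rfl⟩

/-- **The slow road, in the lane.** -/
theorem slow_lane : ∀ (n i : ℕ) (s : Bool) (t : ℕ) (U : Set (Sym2 V)) (b : V), i + n = p.Len →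
    p.ok i s → Fr (lnS true i) U → p.ctx U → s(u1, I lam 1) ∈ U → (i = p.Len → p.endE ∈ U) →
    p.la + i + 2 ≤ t → t ≤ p.la + i + 5 → p.SM i t U b → MW p.Adj U (ln true i s) b := by
  intro n
  induction n with
  | zero =>
    intro i s t U b hin hs hFr hctx hL hE ht1 ht2 hm
    have hi : i = p.Len := by omega
    subst hi
    have hs' : s = false := by
      rcases hs with h | h
      · exact h
      · exact absurd h p.not_inn_Len
    subst hs'
    exact slow_fin p.Len_odd (by omega) (by omega) hctx (hE rfl) hL hm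
  | succ n ih =>
    intro i s t U b hin hs hFr hctx hL hE ht1 ht2 hm
    obtain ⟨hadj, hok⟩ := p.nx_adj (l := true) (i := i) (by omega) hs
    refine MW.intro _ hadj (hFr _ _ ⟨i, s, le_rfl, rfl⟩ ⟨i + 1, _, by omega, rfl⟩) ?_
    intro b' hb hu
    have hm' := hm.step (by omega) hctx (nJG_ln _ _ _) (nJG_ln _ _ _) (Or.inr hL) hb hu
    refine ih (i + 1) _ (t + 1) _ b' (by omega) hok ?_ hctx.ins2 (mem3 hL) ?_ (by omega) (by omega)
      hm'
    · refine ((hFr.mono ?_).insl ?_).insl ?_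
      · rintro v ⟨j, s', h1, h2⟩; exact ⟨j, s', by omega, h2⟩
      · rintro ⟨j, s', h1, h2⟩
        have := (V.ln.inj h2).2.1
        omega
      · rintro ⟨j, s', _, h2⟩
        exact hm.nA.1 _ _ h2
    · intro hi
      have hs' : s = false := by
        rcases hs with h | h
        · exact h
        · have : i = p.Len - 1 := by omega
          rw [this] at h
          exact absurd h p.not_inn_Len1
      have hn : p.nx i s = false := by
        unfold Par.nx
        rw [hs']; simp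
      right; left
      rw [hn, hs', hi, Par.endE, show p.Len - 1 = i by omega]

/-- The part of `lam` and of the lane which is ahead. -/
def Par.TL (p : Par) (k : ℕ) (v : V) : Prop :=
  (∃ j, k ≤ j ∧ j < p.la ∧ v = p.cp lam true j) ∨ ∃ i s, v = ln true i s

/-- **The slow road, in the corridor.** -/
theorem slow_lam : ∀ (n k t : ℕ) (U : Set (Sym2 V)) (b : V), k + n = p.la →
    Fr (p.TL k) U → p.ctx U → (1 ≤ k → s(u1, I lam 1) ∈ U) → k + 2 ≤ t → t ≤ k + 5 →
    p.SM k t U b → (k = 0 → b ≠ u1) → MW p.Adj U (p.cp lam true k) b := by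
  have hlen := p.len_ge lam
  have hl : p.len lam = p.la := rfl
  have hla := p.la_ge
  intro n
  induction n with
  | zero =>
    intro k t U b hkn hFr hctx hL ht1 ht2 hm hbu
    have hk : k = p.la := by omega
    subst hk
    have e : p.cp lam true p.la = ln true 0 false := by
      rw [← hl, Par.cp_len]; rfl
    rw [e]
    have := p.Len_odd
    refine slow_lane p.Len 0 false t U b (by omega) (Or.inl rfl) ?_ hctx (hL (by omega)) (by omega)
      (by omega) (by omega) (hm.congr (by have := p.hla2; omega))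
    exact hFr.mono (fun v ⟨j, s, _, h⟩ => Or.inr ⟨j, s, h⟩)
  | succ n ih =>
    intro k t U b hkn hFr hctx hL ht1 ht2 hm hbu
    have hT1 : p.TL k (p.cp lam true k) := Or.inl ⟨k, le_rfl, by omega, rfl⟩
    have hT2 : p.TL k (p.cp lam true (k + 1)) := by
      by_cases h : k + 1 = p.la
      · right
        exact ⟨0, false, by rw [h, ← hl, Par.cp_len]; rfl⟩
      · exact Or.inl ⟨k + 1, by omega, by omega, rfl⟩
    refine MW.intro _ (p.cp_adj (c := lam) trivial true (by omega)) (hFr _ _ hT1 hT2) ?_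
    intro b' hb hu
    have hnj : ∀ j, j ≤ p.la → nJG (p.cp lam true j) := by
      intro j hj
      rcases Nat.eq_zero_or_pos j with rfl | h0
      · rw [Par.cp_zero]; exact p.fin_nJG _ _
      · rcases Nat.lt_or_ge j p.la with h1 | h1
        · rw [p.cp_mid (c := lam) h0 (by omega)]; exact ⟨by simp [inC], by simp [inC]⟩
        · have : j = p.len lam := by omega
          rw [this, Par.cp_len]; exact p.fin_nJG _ _
    have hL' : s(u1, I lam 1) ∈ insert s(p.cp lam true k, p.cp lam true (k + 1)) U := by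
      rcases Nat.eq_zero_or_pos k with rfl | h0
      · left
        rw [Par.cp_zero, p.cp_mid (c := lam) (k := 0 + 1) (by omega) (by omega)]; rfl
      · exact Or.inr (hL h0)
    have hm' := hm.step (by omega) hctx (hnj k (by omega)) (hnj (k + 1) (by omega)) hL' hb hu
    have hnT : ∀ v, nA v → ¬ p.TL (k + 1) v := by
      rintro v hv (⟨j, h1, h2, rfl⟩ | ⟨i, s, rfl⟩)
      · rw [p.cp_mid (c := lam) (by omega) (by omega)] at hv
        exact hv.2 _ rfl
      · exact hv.1 _ _ rfl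
    refine ih (k + 1) (t + 1) _ b' (by omega) ?_ hctx.ins2 (fun _ => Or.inr hL') (by omega)
      (by omega) hm' (by omega)
    refine ((hFr.mono ?_).insl ?_).insl (hnT _ hm.nA)
    · rintro v (⟨j, h1, h2, h3⟩ | h)
      · exact Or.inl ⟨j, by omega, h2, h3⟩
      · exact Or.inr h
    · rintro (⟨j, h1, h2, h3⟩ | ⟨i, s, h⟩)
      · rcases Nat.eq_zero_or_pos k with rfl | h0
        · rw [Par.cp_zero, p.cp_mid (c := lam) (by omega) (by omega)] at h3
          exact p.fin_ne_I _ _ _ _ h3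
        · have := p.I_inj_cp (c := lam) h0 (by omega) (by omega) h3
          omega
      · rcases Nat.eq_zero_or_pos k with rfl | h0
        · rw [Par.cp_zero] at h; simp [Par.fin, Par.src] at h
        · rw [p.cp_mid (c := lam) h0 (by omega)] at h
          simp at h

/-- **The slow road, from `y1`.** -/
theorem slow_core {f t : ℕ} {U : Set (Sym2 V)} {b : V} (ht1 : 1 ≤ t) (ht2 : t ≤ 3)
    (hctx : p.ctx U) (hFr : Fr (p.TL 0) U)
    (h1 : s(y1, u1) ∉ U) (h2 : s(y1, m1) ∉ U) (h3 : s(m1, u1) ∉ U)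
    (hm : ((∃ k, 1 ≤ k ∧ k < p.ka ∧ b = p.cp kap true k ∧ p.ce kap true k ∈ U) ∧ p.GS U) ∨
      (b = x2 ∧ s(x2, I kap 1) ∈ U ∧ p.GS U) ∨
      (b = w ∧ s(w, x2) ∈ U ∧ p.GS U) ∨
      (b = y1 ∧ s(x, y1) ∈ U ∧ s(x2, y1) ∈ U ∧ p.GS U) ∨
      p.SE f t U b) :
    MW p.Adj U y1 b := by
  have hlen := p.len_ge lam
  have hl : p.len lam = p.la := rfl
  have hlen2 := p.len_ge kap
  have hl2 : p.len kap = p.ka := rfl
  have e0 : p.cp lam true 0 = u1 := by rw [Par.cp_zero]; rfl
  have njn : ∀ v, v = y1 ∨ v = u1 ∨ v = m1 ∨ v = x2 ∨ v = w → nJG v := by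
    rintro v (rfl | rfl | rfl | rfl | rfl) <;> exact ⟨by simp [inC], by simp [inC]⟩
  have T0 : ∀ v, nA v → v ≠ u1 → ¬ p.TL 0 v := by
    rintro v hv hv1 (⟨j, h1, h2, h3⟩ | ⟨i, s, rfl⟩)
    · rcases Nat.eq_zero_or_pos j with rfl | h0
      · rw [e0] at h3; exact hv1 h3
      · rw [p.cp_mid (c := lam) h0 (by omega)] at h3
        exact hv.2 _ h3
    · exact hv.1 _ _ rfl
  have Ty : ¬ p.TL 0 y1 := T0 _ ⟨by simp, by simp⟩ (by simp)
  have Tm : ¬ p.TL 0 m1 := T0 _ ⟨by simp, by simp⟩ (by simp)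
  -- the direct way, once the mode after the move is known
  have direct : (∀ b', p.Adj b b' → s(b, b') ∉ insert s(y1, u1) U → ¬ p.TL 0 b ∧ b' ≠ u1 ∧
      ∃ f' t', 2 ≤ t' ∧ t' ≤ 5 ∧ f' % 2 = 0 ∧ p.SM f' t' (insert s(b, b') (insert s(y1, u1) U)) b') →
      MW p.Adj U y1 b := by
    intro hh
    refine MW.intro u1 (Or.inl .y1u1) h1 (fun b' hb hu => ?_)
    obtain ⟨hT, hbu, f', t', ht1', ht2', hf', hm'⟩ := hh b' hb hu
    rw [← e0] at hu ⊢
    refine slow_lam p.la 0 t' _ b' (by omega) ?_ ?_ (by omega) (by omega) (by omega)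
      (hm'.congr (by omega)) (fun _ => hbu)
    · exact (hFr.insl Ty).insl hT
    · exact hctx.ins2
  rcases hm with ⟨⟨k, hk1, hk2, rfl, hk⟩, hG⟩ | ⟨rfl, hx, hG⟩ | ⟨rfl, hx, hG⟩ | ⟨rfl, hx1, hx2, hG⟩ | hm
  · -- in `kap`
    refine direct (fun b' hb hu => ?_)
    have := p.cp_fwd (c := kap) hk1 (by omega) (Or.inr hk) hb hu
    subst this
    have hT : ¬ p.TL 0 (p.cp kap true k) := by
      rw [p.cp_mid (c := kap) hk1 (by omega)]
      exact T0 _ ⟨by simp, by simp⟩ (by simp)
    have hG' : p.GS (insert s(p.cp kap true k, p.cp kap true (k - 1)) (insert s(y1, u1) U)) :=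
      (hG.ins (njn y1 (by simp)).2 (njn u1 (by simp)).2).ins (p.cp_nJG_kap hk1 hk2).2
        (p.cp_le_nJG_kap (by omega)).2
    rcases Nat.lt_or_ge 1 k with h3 | h3
    · refine ⟨hT, ?_, 0, 2, by omega, by omega, rfl, Or.inl ⟨.wk (k - 1) (by omega) (by omega) (p.ce_new hk1), hG'⟩⟩
      rw [p.cp_mid (c := kap) (by omega) (by omega)]; simp
    · have : k = 1 := by omega
      subst this
      have e1 : p.cp kap true (1 - 1) = x2 := by simp [Par.cp, Par.src]
      have e2 : p.cp kap true 1 = I kap 1 := p.cp_mid (c := kap) le_rfl (by omega)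
      rw [e1, e2] at hG' ⊢
      rw [e2] at hT
      exact ⟨hT, by simp, 0, 2, by omega, by omega, rfl, Or.inl ⟨.wx2 (Or.inl (by rw [Sym2.eq_swap])), hG'⟩⟩
  · -- on `x2`
    refine direct (fun b' hb hu => ?_)
    have hu' : s(x2, b') ∉ U := fun h => hu (Or.inr h)
    refine ⟨T0 _ ⟨by simp, by simp⟩ (by simp), ?_⟩
    rcases p.nb_x2 hb with rfl | rfl | rfl
    · refine ⟨by simp, 0, 2, by omega, by omega, rfl, Or.inl ⟨.we _ (Or.inl rfl) ?_ (Or.inl rfl) (Or.inr (Or.inl rfl)), ?_⟩⟩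
      · rcases hctx.2 with h | ⟨h, _⟩
        · exact mem3 h
        · exact absurd h hu'
      · exact (hG.ins (njn y1 (by simp)).2 (njn u1 (by simp)).2).ins (njn x2 (by simp)).2
          (njn y1 (by simp)).2
    · exact ⟨by simp, 0, 2, by omega, by omega, rfl, Or.inl ⟨.ww (Or.inl (by rw [Sym2.eq_swap])),
        (hG.ins (njn y1 (by simp)).2 (njn u1 (by simp)).2).ins (njn x2 (by simp)).2
          (njn w (by simp)).2⟩⟩
    · exact absurd hx hu'
  · -- on `w`
    refine direct (fun b' hb hu => ?_)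
    have := p.nb_w hb
    subst this
    exact absurd (Or.inr hx) hu
  · -- on `y1`
    refine direct (fun b' hb hu => ?_)
    have hu' : s(y1, b') ∉ U := fun h => hu (Or.inr h)
    refine ⟨Ty, ?_⟩
    rcases p.nb_y1 hb with rfl | rfl | rfl | rfl
    · rw [Sym2.eq_swap] at hu'; exact absurd hx1 hu'
    · rw [Sym2.eq_swap] at hu'; exact absurd hx2 hu'
    · exact ⟨by simp, 0, 2, by omega, by omega, rfl, Or.inl ⟨.we _ (Or.inr ⟨rfl, Or.inl rfl⟩) (mem3 hx1) (mem3 hx2)
        (Or.inr (Or.inl rfl)), (hG.ins (njn y1 (by simp)).2 (njn u1 (by simp)).2).ins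
          (njn y1 (by simp)).2 (njn m1 (by simp)).2⟩⟩
    · exact absurd (Or.inl rfl) hu
  · -- the other modes
    by_cases hf : f % 2 = 1
    · refine direct (fun b' hb hu => ?_)
      have hm' := hm.step (by omega) (hctx.hx hu) (njn y1 (by simp)) (njn u1 (by simp)) hb hu
      refine ⟨T0 _ hm.nA.1 hm.nA.2.1, ?_, f + 1, t + 1, by omega, by omega, by omega, ?_⟩
      · rcases hm' with ⟨h, _⟩ | h
        · rw [h, p.cp_mid (c := kap) (by omega) (by omega)]; simp
        · exact h.nA.2.1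
      · exact hm.step' (by omega) hctx (njn y1 (by simp)) (njn u1 (by simp)) hb hu
    · -- via `m1`
      refine MW.intro m1 (Or.inl .y1m1) h2 (fun b' hb hu => ?_)
      have hT := T0 _ hm.nA.1 hm.nA.2.1
      have hm' := hm.step (by omega) (hctx.hx hu) (njn y1 (by simp)) (njn m1 (by simp)) hb hu
      have hFr' : Fr (p.TL 0) (insert s(b, b') (insert s(y1, m1) U)) := (hFr.insl Ty).insl hT
      have hnb : b' ≠ u1 ∧ nA b' := by
        rcases hm' with ⟨h, _⟩ | h
        · rw [h, p.cp_mid (c := kap) (by omega) (by omega)]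
          exact ⟨by simp, by simp, by simp⟩
        · exact ⟨h.nA.2.1, h.nA.1⟩
      have hnb1 : b ≠ m1 := hm.nA.2.2
      have h3' : s(m1, u1) ∉ insert s(b, b') (insert s(y1, m1) U) := by
        rintro (h | h | h)
        · rcases Sym2.eq_iff.1 h with ⟨h, _⟩ | ⟨h, h'⟩
          · exact hnb1 h.symm
          · exact hm.nA.2.1 h'.symm
        · rcases Sym2.eq_iff.1 h with ⟨h, _⟩ | ⟨_, h⟩ <;> simp at h
        · exact h3 h
      refine MW.intro u1 (Or.inl .m1u1) h3' (fun b'' hb' hu2 => ?_)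
      have hctx' := hctx.ins2 (e := s(b, b')) (e' := s(y1, m1))
      have key : b'' ≠ u1 ∧ p.SM (f + 2) (t + 2)
          (insert s(b', b'') (insert s(m1, u1) (insert s(b, b') (insert s(y1, m1) U)))) b'' := by
        rcases hm' with ⟨h, hk, hG⟩ | h
        · subst h
          have := p.cp_fwd (c := kap) (by omega) (by omega) (Or.inr hk) hb' hu2
          subst this
          have hG' := (hG.ins (njn m1 (by simp)).2 (njn u1 (by simp)).2).ins
            (v := p.cp kap true (p.ka - 1)) (w := p.cp kap true (p.ka - 1 - 1))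
            (p.cp_nJG_kap (by omega) (by omega)).2 (p.cp_le_nJG_kap (by omega)).2
          refine ⟨?_, Or.inl ⟨?_, hG'⟩⟩
          · rw [p.cp_mid (c := kap) (by omega) (by omega)]; simp
          · exact .wk (p.ka - 1 - 1) (by omega) (by omega) (p.ce_new (by omega))
        · have h4 := h.step (by omega) (hctx'.hx hu2) (njn m1 (by simp)) (njn u1 (by simp)) hb' hu2
          refine ⟨?_, h.step' (by omega) hctx' (njn m1 (by simp)) (njn u1 (by simp)) hb' hu2⟩
          rcases h4 with ⟨h, _⟩ | h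
          · rw [h, p.cp_mid (c := kap) (by omega) (by omega)]; simp
          · exact h.nA.2.1
      rw [← e0]
      have hFr2 : Fr (p.TL 0) (insert s(b', b'') (insert s(m1, u1)
        (insert s(b, b') (insert s(y1, m1) U)))) := (hFr'.insl Tm).insl (T0 _ hnb.2 hnb.1)
      have hm3 := key.2
      rw [← e0] at hm3 hFr2
      exact slow_lam p.la 0 (t + 2) _ b'' (by omega) hFr2 (by rw [e0]; exact hctx'.ins2) (by omega)
        (by omega) (by omega) (hm3.congr (by omega)) (fun _ => key.1)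

end Pool.Agent.H33.TT
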