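import Mathlib
import Pool.Agent.H33.TT.Slow4

/-!
# The fast road: modes of the opponent
-/

namespace Pool.Agent.H33.TT

open V Cor

variable {p : Par}

/-- `G` is unused, except perhaps close to `h`. -/
def Par.GT (p : Par) (U : Set (Sym2 V)) : Prop :=
  ∀ k, k + (p.la + p.Len + 30) < p.lG → p.ce G false k ∉ U

lemma Par.GT_of {U : Set (Sym2 V)} (h : p.cfree G U) : p.GT U := fun k hk =>
  p.cfree_rev h false (by have : p.len G = p.lG := rfl; omega)

lemma Par.GT.ins {U : Set (Sym2 V)} {v w : V} (h : p.GT U) (hv : ¬ inC G v) (hw : ¬ inC G w) :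
    p.GT (insert s(v, w) U) := by
  intro k hk hmem
  rcases hmem with hmem | hmem
  · exact p.ne_ce (by have : p.len G = p.lG := rfl; omega) hv hw hmem.symm
  · exact h k hk hmem

/-- The opponent is dead in the west. -/
inductive Par.DW (p : Par) (U : Set (Sym2 V)) : V → Prop
  | d1 (k : ℕ) (h1 : 1 ≤ k) (h2 : k < p.la) (hb : p.ce lam true k ∈ U) : Par.DW p U (p.cp lam true k)
  | d2 (b : V) (hb : b = u1 ∨ b = y1 ∨ b = m1) (h : s(u1, I lam 1) ∈ U) : Par.DW p U b
  | d3 (b : V) (hb : b = y1 ∨ b = m1) (h1 : s(y1, u1) ∈ U) (h2 : s(m1, u1) ∈ U) : Par.DW p U b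
  | d4 (h1 : s(x, y1) ∈ U) : Par.DW p U x
  | d5 (h1 : s(x2, y1) ∈ U) : Par.DW p U x2
  | d6 (h1 : s(w, x2) ∈ U) : Par.DW p U w
  | d7 (k : ℕ) (h1 : 1 ≤ k) (h2 : k < p.ka) (hb : p.ce kap false k ∈ U) :
      Par.DW p U (p.cp kap false k)
  | d8 (h1 : s(u2, ln false 0 false) ∈ U) (h2 : s(ln false 0 false, ln false 1 false) ∈ U)
      (h3 : s(ln false 0 false, I kap (p.ka - 1)) ∈ U) : Par.DW p U (ln false 0 false)

/-- Edges used near `x`. -/
def Par.ctxF (_ : Par) (U : Set (Sym2 V)) : Prop := s(z, x) ∈ U ∧ s(x, y2) ∈ U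

lemma Par.ctxF.ins2 {U : Set (Sym2 V)} {e e' : Sym2 V} (h : p.ctxF U) :
    p.ctxF (insert e (insert e' U)) := ⟨mem3 h.1, mem3 h.2⟩

lemma Par.ctxF.ins1 {U : Set (Sym2 V)} {e : Sym2 V} (h : p.ctxF U) :
    p.ctxF (insert e U) := ⟨Or.inr h.1, Or.inr h.2⟩

lemma Par.cp_le_nJG {c : Cor} {d : Bool} {k : ℕ} (hJ : c ≠ J) (hG : c ≠ G) (h2 : k ≤ p.len c) :
    nJG (p.cp c d k) := by
  rcases Nat.eq_zero_or_pos k with rfl | h
  · rw [Par.cp_zero]; exact p.fin_nJG _ _
  · rcases Nat.lt_or_ge k (p.len c) with h3 | h3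
    · rw [p.cp_mid h h3]
      exact ⟨fun ⟨j, h⟩ => hJ (V.I.inj h).1, fun ⟨j, h⟩ => hG (V.I.inj h).1⟩
    · have : k = p.len c := by omega
      rw [this, Par.cp_len]; exact p.fin_nJG _ _

lemma Par.DW.nj {U : Set (Sym2 V)} {b : V} (h : p.DW U b) : nJG b := by
  cases h with
  | d1 k h1 h2 => exact p.cp_le_nJG (by simp) (by simp) (by show k ≤ p.la; omega)
  | d2 _ h => rcases h with rfl | rfl | rfl <;> exact ⟨by simp [inC], by simp [inC]⟩
  | d3 _ h => rcases h with rfl | rfl <;> exact ⟨by simp [inC], by simp [inC]⟩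
  | d4 => exact ⟨by simp [inC], by simp [inC]⟩
  | d5 => exact ⟨by simp [inC], by simp [inC]⟩
  | d6 => exact ⟨by simp [inC], by simp [inC]⟩
  | d7 k h1 h2 => exact p.cp_le_nJG (by simp) (by simp) (by show k ≤ p.ka; omega)
  | d8 => exact ⟨by simp [inC], by simp [inC]⟩

/-- The dead modes are closed. -/
lemma Par.DW.step {U : Set (Sym2 V)} {b b' : V} {e : Sym2 V} (h : p.DW U b)
    (hctx : b = x → p.ctxF (insert e U))
    (hq : b = p.cp kap false 1 → s(u2, ln false 0 false) ∈ insert e U ∧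
      s(ln false 0 false, ln false 1 false) ∈ insert e U)
    (hb : p.Adj b b') (hu : s(b, b') ∉ insert e U) :
    p.DW (insert s(b, b') (insert e U)) b' ∧
      (∀ k, b' = p.cp kap false k → k < p.ka → 1 ≤ k → (b = p.cp kap false (k + 1) ∧ k + 1 < p.ka) ∨
        k = p.ka - 1) := by
  have hu' : s(b, b') ∉ U := fun h => hu (Or.inr h)
  have hka := p.len_ge kap
  have hka' : p.len kap = p.ka := rfl
  have hlam := p.len_ge lam
  have hlam' : p.len lam = p.la := rfl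
  have nk : ∀ (v : V), (∀ j, v ≠ I kap j) → ∀ k, v = p.cp kap false k → k < p.ka → 1 ≤ k →
      (b = p.cp kap false (k + 1) ∧ k + 1 < p.ka) ∨ k = p.ka - 1 := by
    intro v hv k h1 h2 h3
    rw [p.cp_mid (c := kap) h3 (by omega)] at h1
    exact absurd h1 (hv _)
  cases h with
  | d1 k h1 h2 hk =>
    have := p.cp_fwd (c := lam) h1 (by omega) (Or.inr hk) hb hu
    subst this
    rcases Nat.lt_or_ge 1 k with h3 | h3
    · refine ⟨.d1 (k - 1) (by omega) (by omega) (p.ce_new h1), nk _ ?_⟩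
      rw [p.cp_mid (c := lam) (by omega) (by omega)]; simp
    · have : k = 1 := by omega
      subst this
      have e1 : p.cp lam true (1 - 1) = u1 := by simp [Par.cp, Par.src]
      have e2 : p.cp lam true 1 = I lam 1 := p.cp_mid (c := lam) le_rfl (by omega)
      refine ⟨?_, ?_⟩
      · rw [e1, e2]
        exact .d2 _ (by simp) (Or.inl (by rw [Sym2.eq_swap]))
      · rw [e1]; exact nk u1 (by simp)
  | d2 _ hh h =>
    rcases hh with rfl | rfl | rfl
    · rcases p.nb_u1 hb with rfl | rfl | rfl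
      · exact ⟨.d2 _ (by simp) (mem3 h), nk _ (by simp)⟩
      · exact ⟨.d2 _ (by simp) (mem3 h), nk _ (by simp)⟩
      · exact absurd h hu'
    · rcases p.nb_y1 hb with rfl | rfl | rfl | rfl
      · exact ⟨.d4 (Or.inl (by rw [Sym2.eq_swap])), nk _ (by simp)⟩
      · exact ⟨.d5 (Or.inl (by rw [Sym2.eq_swap])), nk _ (by simp)⟩
      · exact ⟨.d2 _ (by simp) (mem3 h), nk _ (by simp)⟩
      · exact ⟨.d2 _ (by simp) (mem3 h), nk _ (by simp)⟩
    · rcases p.nb_m1 hb with rfl | rfl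
      · exact ⟨.d2 _ (by simp) (mem3 h), nk _ (by simp)⟩
      · exact ⟨.d2 _ (by simp) (mem3 h), nk _ (by simp)⟩
  | d3 _ hh h h2 =>
    rcases hh with rfl | rfl
    · rcases p.nb_y1 hb with rfl | rfl | rfl | rfl
      · exact ⟨.d4 (Or.inl (by rw [Sym2.eq_swap])), nk _ (by simp)⟩
      · exact ⟨.d5 (Or.inl (by rw [Sym2.eq_swap])), nk _ (by simp)⟩
      · exact ⟨.d3 _ (by simp) (mem3 h) (mem3 h2), nk _ (by simp)⟩
      · exact absurd h hu'
    · rcases p.nb_m1 hb with rfl | rfl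
      · exact ⟨.d3 _ (by simp) (mem3 h) (mem3 h2), nk _ (by simp)⟩
      · exact absurd h2 hu'
  | d4 h =>
    rcases p.nb_x hb with rfl | rfl | rfl
    · rw [Sym2.eq_swap] at hu; exact absurd (hctx rfl).1 hu
    · exact absurd h hu'
    · exact absurd (hctx rfl).2 hu
  | d5 h =>
    rcases p.nb_x2 hb with rfl | rfl | rfl
    · exact absurd h hu'
    · exact ⟨.d6 (Or.inl (by rw [Sym2.eq_swap])), nk _ (by simp)⟩
    · have e1 : I kap 1 = p.cp kap false (p.ka - 1) := by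
        rw [p.cp_mid (c := kap) (by omega) (by omega)]
        simp only [Bool.false_eq_true, if_false]; congr 1; omega
      have e2 : p.cp kap false (p.ka - 1 + 1) = x2 := by
        rw [show p.ka - 1 + 1 = p.len kap by omega, Par.cp_len]; rfl
      have hbb : p.ce kap false (p.ka - 1) ∈ insert s(x2, I kap 1) (insert e U) := by
        left; rw [Par.ce, e2, ← e1, Sym2.eq_swap]
      refine ⟨?_, ?_⟩
      · rw [e1] at hbb ⊢
        exact .d7 (p.ka - 1) (by omega) (by omega) hbb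
      · intro k h1 h2 h3
        right
        rw [e1] at h1
        exact (p.I_inj_cp (c := kap) (by omega) (by omega) (by omega) h1).symm
  | d6 h =>
    have := p.nb_w hb
    subst this
    exact absurd h hu'
  | d7 k h1 h2 hk =>
    have := p.cp_fwd (c := kap) h1 (by omega) (Or.inr hk) hb hu
    subst this
    rcases Nat.lt_or_ge 1 k with h3 | h3
    · refine ⟨.d7 (k - 1) (by omega) (by omega) (p.ce_new h1), ?_⟩
      intro k' h1' h2' h3'
      left
      have := p.I_inj_cp (c := kap) (by omega) (by omega) (by omega) h1'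
      subst this
      exact ⟨by congr 1; omega, by omega⟩
    · have : k = 1 := by omega
      subst this
      obtain ⟨q1, q2⟩ := hq rfl
      have e1 : p.cp kap false (1 - 1) = ln false 0 false := by simp [Par.cp, Par.dst]
      have e2 : p.cp kap false 1 = I kap (p.ka - 1) := p.cp_mid (c := kap) le_rfl (by omega)
      refine ⟨?_, ?_⟩
      · rw [e1, e2]
        exact .d8 (Or.inr q1) (Or.inr q2) (Or.inl (by rw [Sym2.eq_swap]))
      · rw [e1]; exact nk (ln false 0 false) (by simp)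
  | d8 h1 h2 h3 =>
    exfalso
    rcases p.nb_ln hb with ⟨s', rfl, _, _, h, _⟩ | ⟨s', i', h0, _⟩ | ⟨_, _, h, _⟩ |
      ⟨_, _, _, h⟩ | ⟨_, _, h, _⟩ | ⟨h, _⟩ | ⟨c, r, hc, hr, hl, hs, h⟩
    · rcases h with rfl | h
      · exact hu' h2
      · unfold Par.inn at h
        rw [zero_add, Nat.mod_eq_of_lt (by have := p.hP; omega)] at h
        have := p.hsg; omega
    · omega
    · simp at h
    · rcases h with rfl | rfl
      · rw [Sym2.eq_swap] at hu'; exact hu' h1
      · exact hu' h3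
    · simp at h
    · have := p.Len_odd; omega
    · unfold Par.ai at h
      rcases h with ⟨h, _⟩ | ⟨h, _⟩ <;> omega

/-- Modes of the opponent while the player is on the fast road, before it enters `G`. -/
inductive Par.FM (p : Par) (f t : ℕ) (U : Set (Sym2 V)) : V → Prop
  | lv (i : ℕ) (s : Bool) (hi : i ≤ p.Len)
      (hst : (p.cfree G U ∧ (i + f) % 2 = 1) ∨ (p.GT U ∧ p.ce G true 0 ∈ U)) :
      Par.FM p f t U (ln true i s)
  | lp (k : ℕ) (h1 : 1 ≤ k) (h2 : k < p.la) (hb : p.ce lam false k ∈ U)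
      (hst : (p.cfree G U ∧ (k + f) % 2 = 1)) : Par.FM p f t U (p.cp lam false k)
  | w1 (h : s(y1, u1) ∈ U ∨ s(m1, u1) ∈ U) (hG : p.cfree G U) (hph : f % 2 = 1) :
      Par.FM p f t U u1
  | w2 (h : s(y1, m1) ∈ U) (hG : p.cfree G U) (hph : (1 + f) % 2 = 1) : Par.FM p f t U m1
  | w3 (h : s(m1, u1) ∈ U) (hG : p.cfree G U) (hph : f % 2 = 1) : Par.FM p f t U m1
  | w4 (h : s(y1, m1) ∈ U) (hG : p.cfree G U) (hph : (1 + f) % 2 = 1) : Par.FM p f t U y1
  | w5 (h : s(y1, u1) ∈ U) (hG : p.cfree G U) (hph : f % 2 = 1) : Par.FM p f t U y1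
  | dw (b : V) (h : p.DW U b) (hk : ∀ k, b = p.cp kap false k → 1 ≤ k → k < p.ka →
      p.Len + 12 ≤ k + t) (hq : b ≠ ln false 0 false) (hG : p.GT U) : Par.FM p f t U b
  | kk (c r : ℕ) (d : Bool) (k : ℕ) (hc : p.vc (K c r)) (h1 : 1 ≤ k) (h2 : k < p.lK)
      (hb : p.ce (K c r) d k ∈ U)
      (he : p.Len + 12 ≤ k + t ∨ ∃ i s, i ≤ p.Len ∧ p.fin (K c r) d = ln true i s)
      (hst : (p.cfree G U ∧ (col (p.cp (K c r) d k) + f) % 2 = 1) ∨
        (p.GT U ∧ p.ce G true 0 ∈ U)) :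
      Par.FM p f t U (p.cp (K c r) d k)
  | jh (k : ℕ) (h1 : 1 ≤ k) (h2 : k < p.lJ) (hb : p.ce J true k ∈ U)
      (hst : (p.cfree G U ∧ (1 + k + f) % 2 = 1)) : Par.FM p f t U (p.cp J true k)
  | jn (k : ℕ) (h1 : 1 ≤ k) (h2 : k < p.lJ) (hb : p.ce J false k ∈ U) (ht : p.Len + 12 ≤ k + t)
      (hG : p.GT U) : Par.FM p f t U (p.cp J false k)
  | gn (k : ℕ) (h1 : 1 ≤ k) (h2 : k < p.lG) (hb : p.ce G false k ∈ U) (ht : p.Len + 12 ≤ k + t)
      (hfr : ∀ j, j < k → p.ce G false j ∉ U) (hph : (1 + k + f) % 2 = 1) :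
      Par.FM p f t U (p.cp G false k)
  | gh (k : ℕ) (h1 : 1 ≤ k) (h2 : k ≤ p.la + p.Len + 15) (hb : p.ce G true k ∈ U)
      (hG : p.GT U) : Par.FM p f t U (p.cp G true k)

end Pool.Agent.H33.TT
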