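import Mathlib
import Pool.Agent.H33.TT.Fast1

/-!
# The fast road: the modes are closed before the player enters `G`
-/

namespace Pool.Agent.H33.TT

open V Cor

variable {p : Par}

lemma Par.ai_le {c r : ℕ} (hc : c < p.M) (hr : r < 3) : p.ai c r + 1 ≤ p.Len := by
  have := p.ai_lt hc hr
  have := p.hLen
  omega

/-- Colour of a vertex of a clause corridor. -/
lemma Par.col_K {c r : ℕ} (hc : p.vc (K c r)) {d : Bool} {k : ℕ} (hk : k ≤ p.lK) :
    col (p.cp (K c r) d k) % 2 = (1 + (if d then k else p.lK - k)) % 2 := by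
  have hl : p.len (K c r) = p.lK := rfl
  have hK2 := p.hK2
  have hLen := p.Len_odd
  have hai : ∀ r, p.ai c r % 2 = 0 := fun r => p.ai_even
  have hsrc : col (p.src (K c r)) % 2 = 1 := by
    rcases r with _ | r
    · simpa [Par.src, col] using hLen
    · simp only [Par.src, col]; have := hai r; omega
  have hdst : col (p.dst (K c r)) % 2 = 0 := by
    simp only [Par.dst]
    split_ifs with h
    · simp only [col]; exact hai r
    · simp [col]
  have hlen := p.len_ge (K c r)
  rcases Nat.eq_zero_or_pos k with rfl | h0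
  · rw [Par.cp_zero]
    cases d
    · simp only [Par.fin, Bool.false_eq_true, if_false]; omega
    · simp only [Par.fin, if_true]; omega
  · rcases Nat.lt_or_ge k p.lK with h1 | h1
    · rw [p.cp_mid (c := K c r) h0 h1]
      cases d
      · simp only [Bool.false_eq_true, if_false, col, hl]
      · simp only [if_true, col]
    · have : k = p.len (K c r) := by omega
      rw [this, Par.cp_len]
      cases d
      · simp only [Par.fin, Bool.not_false, if_true, Bool.false_eq_true, if_false]; omega
      · simp only [Par.fin, Bool.not_true, Bool.false_eq_true, if_false, if_true]; omega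

lemma Par.col_K_succ {c r : ℕ} (hc : p.vc (K c r)) {d : Bool} {k : ℕ} (hk : k + 1 ≤ p.lK) :
    (col (p.cp (K c r) d k) + col (p.cp (K c r) d (k + 1))) % 2 = 1 := by
  have h1 := p.col_K hc (d := d) (k := k) (by omega)
  have h2 := p.col_K hc (d := d) (k := k + 1) hk
  cases d
  · simp only [Bool.false_eq_true, if_false] at h1 h2; omega
  · simp only [if_true] at h1 h2; omega

/-- First vertex of a clause corridor, seen from its ends. -/
lemma Par.I_src {c r : ℕ} : I (K c r) 1 = p.cp (K c r) false (p.lK - 1) ∧
    p.cp (K c r) false p.lK = p.src (K c r) := by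
  have hlen := p.len_ge (K c r)
  have hl : p.len (K c r) = p.lK := rfl
  constructor
  · rw [p.cp_mid (c := K c r) (by omega) (by omega)]
    simp only [Bool.false_eq_true, if_false]; congr 1; omega
  · rw [← hl, Par.cp_len]; rfl

lemma Par.I_dst {c r : ℕ} : I (K c r) (p.lK - 1) = p.cp (K c r) true (p.lK - 1) ∧
    p.cp (K c r) true p.lK = p.dst (K c r) := by
  have hlen := p.len_ge (K c r)
  have hl : p.len (K c r) = p.lK := rfl
  constructor
  · rw [p.cp_mid (c := K c r) (by omega) (by omega)]; simp
  · rw [← hl, Par.cp_len]; rfl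

/-- **Closure of the modes before the player enters `G`.** -/
lemma Par.FM.step {f t : ℕ} {U : Set (Sym2 V)} {b b' a a' : V} (h : p.FM f t U b)
    (ht : t ≤ p.Len + 7) (hctx : b = x → p.ctxF (insert s(a, a') U)) (ha : nJG a) (ha' : nJG a') (hb : p.Adj b b')
    (hu : s(b, b') ∉ insert s(a, a') U) :
    p.FM (f + 1) (t + 1) (insert s(b, b') (insert s(a, a') U)) b' := by
  have hu' : s(b, b') ∉ U := fun h => hu (Or.inr h)
  have hlK := p.hK
  have hlJ := p.hJ
  have hlG := p.hG
  have hLen := p.Len_odd
  have hla2 := p.hla2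
  have hlage := p.la_ge
  have hkage := p.hka
  have hJ2 := p.hJ2
  have hG2 := p.hG2
  have el : p.len lam = p.la := rfl
  have ek : p.len kap = p.ka := rfl
  have eJ : p.len J = p.lJ := rfl
  have eG : p.len G = p.lG := rfl
  have cg : ∀ {v v' : V}, p.cfree G U → ¬ inC G v → ¬ inC G v' →
      p.cfree G (insert s(v, v') (insert s(a, a') U)) :=
    fun h h1 h2 => Par.cG.ins (Par.cG.ins h ha.2 ha'.2) h1 h2
  have gt : ∀ {v v' : V}, p.GT U → ¬ inC G v → ¬ inC G v' →
      p.GT (insert s(v, v') (insert s(a, a') U)) :=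
    fun h h1 h2 => Par.GT.ins (Par.GT.ins h ha.2 ha'.2) h1 h2
  cases h with
  | lv i s hi hst =>
    have hb0 : ¬ inC G (ln true i s) := by simp [inC]
    have hgt : p.GT U := by
      rcases hst with h | h
      · exact p.GT_of h.1
      · exact h.1
    have hstt : ∀ v, ¬ inC G v → ∀ m, (i + m) % 2 = 1 →
        (p.cfree G (insert s(ln true i s, v) (insert s(a, a') U)) ∧ (m + (f + 1)) % 2 = 1) ∨
        (p.GT (insert s(ln true i s, v) (insert s(a, a') U)) ∧
          p.ce G true 0 ∈ insert s(ln true i s, v) (insert s(a, a') U)) := by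
      intro v hv m hm
      rcases hst with ⟨h1, h2⟩ | ⟨h1, h2⟩
      · exact Or.inl ⟨cg h1 hb0 hv, by omega⟩
      · exact Or.inr ⟨gt h1 hb0 hv, mem3 h2⟩
    rcases p.nb_ln hb with ⟨s', rfl, h1, _⟩ | ⟨s', i', h0, rfl, h1, _⟩ | ⟨rfl, rfl, _, rfl⟩ |
      ⟨_, _, h, _⟩ | ⟨rfl, rfl, _, h⟩ | ⟨_, _, h, _⟩ | ⟨c, r, hc, hr, hl, hs, h⟩
    · exact .lv _ _ (by omega) (hstt _ (by simp [inC]) _ (by omega))
    · exact .lv _ _ (by omega) (hstt _ (by simp [inC]) _ (by omega))
    · have e1 : I lam (p.la - 1) = p.cp lam true (p.la - 1) := by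
        rw [p.cp_mid (c := lam) (by omega) (by omega)]; simp
      have e2 : p.cp lam true (p.la - 1 + 1) = ln true 0 false := by
        rw [show p.la - 1 + 1 = p.len lam by omega, Par.cp_len]; rfl
      have hbb : p.ce lam true (p.la - 1) ∈
          insert s(ln true 0 false, I lam (p.la - 1)) (insert s(a, a') U) := by
        left; rw [Par.ce, e2, ← e1, Sym2.eq_swap]
      have hg := gt (v := ln true 0 false) (v' := I lam (p.la - 1)) hgt hb0 (by simp [inC])
      refine .dw _ ?_ ?_ (by simp) hg
      · rw [e1] at hbb ⊢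
        exact .d1 (p.la - 1) (by omega) (by omega) hbb
      · intro k hk h1 h2
        rw [p.cp_mid (c := kap) h1 h2] at hk
        simp at hk
    · simp at h
    · rcases h with rfl | rfl
      · have e1 : I J 1 = p.cp J false (p.lJ - 1) := by
          rw [p.cp_mid (c := J) (by omega) (by omega)]
          simp only [Bool.false_eq_true, if_false]; congr 1; omega
        have e2 : p.cp J false (p.lJ - 1 + 1) = ln true p.Len false := by
          rw [show p.lJ - 1 + 1 = p.len J by omega, Par.cp_len]; rfl
        have hbb : p.ce J false (p.lJ - 1) ∈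
            insert s(ln true p.Len false, I J 1) (insert s(a, a') U) := by
          left; rw [Par.ce, e2, ← e1, Sym2.eq_swap]
        have hg := gt (v := ln true p.Len false) (v' := I J 1) hgt hb0 (by simp [inC])
        rw [e1] at hbb hg ⊢
        exact .jn (p.lJ - 1) (by omega) (by omega) hbb (by omega) hg
      · rcases hst with ⟨h1, h2⟩ | ⟨h1, h2⟩
        · have e1 : I G 1 = p.cp G false (p.lG - 1) := by
            rw [p.cp_mid (c := G) (by omega) (by omega)]
            simp only [Bool.false_eq_true, if_false]; congr 1; omega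
          have e2 : p.cp G false (p.lG - 1 + 1) = ln true p.Len false := by
            rw [show p.lG - 1 + 1 = p.len G by omega, Par.cp_len]; rfl
          have e3 : s(ln true p.Len false, I G 1) = p.ce G false (p.lG - 1) := by
            rw [Par.ce, e2, ← e1, Sym2.eq_swap]
          rw [e3, e1]
          refine .gn (p.lG - 1) (by omega) (by omega) (Or.inl rfl) (by omega) ?_ (by omega)
          intro j hj hmem
          rcases hmem with hmem | hmem
          · have := p.ce_inj (c := G) (by omega) (by omega) hmem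
            omega
          · exact p.cfree_rev (Par.cG.ins h1 ha.2 ha'.2) false (by omega) hmem
        · rw [p.ceG0] at h2
          exact absurd h2 hu'
    · simp at h
    · rcases h with ⟨rfl, rfl⟩ | ⟨rfl, rfl⟩
      · obtain ⟨e1, e2⟩ := p.I_dst (c := c) (r := r)
        have e3 : p.dst (K c r) = ln true (p.ai c r) s := by
          simp [Par.dst, hr, ← hl, ← hs]
        have hbb : p.ce (K c r) true (p.lK - 1) ∈
            insert s(ln true (p.ai c r) s, I (K c r) (p.lK - 1)) (insert s(a, a') U) := by
          left; rw [Par.ce, show p.lK - 1 + 1 = p.lK by omega, e2, e3, ← e1, Sym2.eq_swap]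
        have hc1 := p.col_K (c := c) (r := r) ⟨hc, by omega⟩ (d := true) (k := p.lK - 1) (by omega)
        simp only [if_true] at hc1
        have := p.hK2
        have := p.ai_even (c := c) (r := r)
        have hs2 := hstt (I (K c r) (p.lK - 1)) (by simp [inC])
          (col (p.cp (K c r) true (p.lK - 1))) (by omega)
        rw [e1] at hbb hs2 ⊢
        exact .kk c r true (p.lK - 1) ⟨hc, by omega⟩ (by omega) (by omega) hbb
          (Or.inl (by omega)) hs2
      · obtain ⟨e1, e2⟩ := p.I_src (c := c) (r := r + 1)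
        have e3 : p.src (K c (r + 1)) = ln true (p.ai c r + 1) s := by
          simp [Par.src, ← hl, ← hs]
        have hbb : p.ce (K c (r + 1)) false (p.lK - 1) ∈
            insert s(ln true (p.ai c r + 1) s, I (K c (r + 1)) 1) (insert s(a, a') U) := by
          left; rw [Par.ce, show p.lK - 1 + 1 = p.lK by omega, e2, e3, ← e1, Sym2.eq_swap]
        have hc1 := p.col_K (c := c) (r := r + 1) ⟨hc, by omega⟩ (d := false) (k := p.lK - 1)
          (by omega)
        simp only [Bool.false_eq_true, if_false] at hc1
        have := p.ai_even (c := c) (r := r)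
        have hs2 := hstt (I (K c (r + 1)) 1) (by simp [inC])
          (col (p.cp (K c (r + 1)) false (p.lK - 1))) (by omega)
        rw [e1] at hbb hs2 ⊢
        exact .kk c (r + 1) false (p.lK - 1) ⟨hc, by omega⟩ (by omega) (by omega) hbb
          (Or.inl (by omega)) hs2
  | lp k h1 h2 hk hst =>
    have := p.cp_fwd (c := lam) h1 (by omega) (Or.inr hk) hb hu
    subst this
    have hn1 : ¬ inC G (p.cp lam false k) := (p.cp_le_nJG (by simp) (by simp) (by omega)).2
    have hn2 : ¬ inC G (p.cp lam false (k - 1)) := (p.cp_le_nJG (by simp) (by simp) (by omega)).2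
    rcases Nat.lt_or_ge 1 k with h3 | h3
    · exact .lp (k - 1) (by omega) (by omega) (p.ce_new h1) ⟨cg hst.1 hn1 hn2, by omega⟩
    · have : k = 1 := by omega
      subst this
      have e1 : p.cp lam false (1 - 1) = ln true 0 false := by simp [Par.cp, Par.dst]
      rw [e1] at hn2 ⊢
      exact .lv 0 false (by omega) (Or.inl ⟨cg hst.1 hn1 hn2, by omega⟩)
  | w1 h hG hph =>
    rcases p.nb_u1 hb with rfl | rfl | rfl
    · refine .dw _ (.d3 _ (by simp) (Or.inl (by rw [Sym2.eq_swap])) ?_) ?_ (by simp)
        (gt (p.GT_of hG) (by simp [inC]) (by simp [inC]))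
      · rcases h with h | h
        · rw [Sym2.eq_swap] at hu'; exact absurd h hu'
        · exact mem3 h
      · intro k hk h1 h2
        rw [p.cp_mid (c := kap) h1 h2] at hk; simp at hk
    · refine .dw _ (.d3 _ (by simp) ?_ (Or.inl (by rw [Sym2.eq_swap]))) ?_ (by simp)
        (gt (p.GT_of hG) (by simp [inC]) (by simp [inC]))
      · rcases h with h | h
        · exact mem3 h
        · rw [Sym2.eq_swap] at hu'; exact absurd h hu'
      · intro k hk h1 h2
        rw [p.cp_mid (c := kap) h1 h2] at hk; simp at hk
    · have e1 : I lam 1 = p.cp lam false (p.la - 1) := by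
        rw [p.cp_mid (c := lam) (by omega) (by omega)]
        simp only [Bool.false_eq_true, if_false]; congr 1; omega
      have e2 : p.cp lam false (p.la - 1 + 1) = u1 := by
        rw [show p.la - 1 + 1 = p.len lam by omega, Par.cp_len]; rfl
      have hbb : p.ce lam false (p.la - 1) ∈ insert s(u1, I lam 1) (insert s(a, a') U) := by
        left; rw [Par.ce, e2, ← e1, Sym2.eq_swap]
      have hg := cg (v := u1) (v' := I lam 1) hG (by simp [inC]) (by simp [inC])
      rw [e1] at hbb hg ⊢
      exact .lp (p.la - 1) (by omega) (by omega) hbb ⟨hg, by omega⟩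
  | w2 h hG hph =>
    rcases p.nb_m1 hb with rfl | rfl
    · rw [Sym2.eq_swap] at hu'; exact absurd h hu'
    · exact .w1 (Or.inr (Or.inl rfl)) (cg hG (by simp [inC]) (by simp [inC])) (by omega)
  | w3 h hG hph =>
    rcases p.nb_m1 hb with rfl | rfl
    · exact .w4 (Or.inl (by rw [Sym2.eq_swap])) (cg hG (by simp [inC]) (by simp [inC])) (by omega)
    · exact absurd h hu'
  | w4 h hG hph =>
    have hk0 : ∀ (v : V), (∀ j, v ≠ I kap j) → ∀ k, v = p.cp kap false k → 1 ≤ k → k < p.ka →
        p.Len + 12 ≤ k + (t + 1) := by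
      intro v hv k hk h1 h2
      rw [p.cp_mid (c := kap) h1 h2] at hk; exact absurd hk (hv _)
    rcases p.nb_y1 hb with rfl | rfl | rfl | rfl
    · exact .dw _ (.d4 (Or.inl (by rw [Sym2.eq_swap]))) (hk0 _ (by simp)) (by simp)
        (gt (p.GT_of hG) (by simp [inC]) (by simp [inC]))
    · exact .dw _ (.d5 (Or.inl (by rw [Sym2.eq_swap]))) (hk0 _ (by simp)) (by simp)
        (gt (p.GT_of hG) (by simp [inC]) (by simp [inC]))
    · exact absurd h hu'
    · exact .w1 (Or.inl (Or.inl rfl)) (cg hG (by simp [inC]) (by simp [inC])) (by omega)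
  | w5 h hG hph =>
    have hk0 : ∀ (v : V), (∀ j, v ≠ I kap j) → ∀ k, v = p.cp kap false k → 1 ≤ k → k < p.ka →
        p.Len + 12 ≤ k + (t + 1) := by
      intro v hv k hk h1 h2
      rw [p.cp_mid (c := kap) h1 h2] at hk; exact absurd hk (hv _)
    rcases p.nb_y1 hb with rfl | rfl | rfl | rfl
    · exact .dw _ (.d4 (Or.inl (by rw [Sym2.eq_swap]))) (hk0 _ (by simp)) (by simp)
        (gt (p.GT_of hG) (by simp [inC]) (by simp [inC]))
    · exact .dw _ (.d5 (Or.inl (by rw [Sym2.eq_swap]))) (hk0 _ (by simp)) (by simp)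
        (gt (p.GT_of hG) (by simp [inC]) (by simp [inC]))
    · exact .w2 (Or.inl rfl) (cg hG (by simp [inC]) (by simp [inC])) (by omega)
    · exact absurd h hu'
  | dw _ h hk hq hG =>
    have hne : b ≠ p.cp kap false 1 := by
      intro h
      have := hk 1 h le_rfl (by omega)
      omega
    obtain ⟨h1, h2⟩ := h.step hctx (fun h => absurd h hne) hb hu
    refine .dw _ h1 ?_ ?_ (gt hG h.nj.2 h1.nj.2)
    · intro k hk1 hk2 hk3
      rcases h2 k hk1 hk3 hk2 with ⟨h3, h4⟩ | h3
      · have := hk (k + 1) h3 (by omega) h4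
        omega
      · omega
    · rintro rfl
      -- the mode of `b'` would come from `kap`
      cases h with
      | d1 k k1 k2 hb1 =>
        have := p.cp_fwd (c := lam) k1 (by omega) (Or.inr hb1) hb hu
        rcases Nat.lt_or_ge 1 k with h3 | h3
        · rw [p.cp_mid (c := lam) (by omega) (by omega)] at this; simp at this
        · have h4 : k = 1 := by omega
          subst h4
          simp [Par.cp, Par.src] at this
      | d2 _ hh h =>
        rcases hh with rfl | rfl | rfl
        · rcases p.nb_u1 hb with h | h | h <;> simp at h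
        · rcases p.nb_y1 hb with h | h | h | h <;> simp at h
        · rcases p.nb_m1 hb with h | h <;> simp at h
      | d3 _ hh h =>
        rcases hh with rfl | rfl
        · rcases p.nb_y1 hb with h | h | h | h <;> simp at h
        · rcases p.nb_m1 hb with h | h <;> simp at h
      | d4 => rcases p.nb_x hb with h | h | h <;> simp at h
      | d5 => rcases p.nb_x2 hb with h | h | h <;> simp at h
      | d6 => have := p.nb_w hb; simp at this
      | d7 k k1 k2 hb1 =>
        have := p.cp_fwd (c := kap) k1 (by omega) (Or.inr hb1) hb hu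
        rcases Nat.lt_or_ge 1 k with h3 | h3
        · rw [p.cp_mid (c := kap) (by omega) (by omega)] at this; simp at this
        · have h4 : k = 1 := by omega
          subst h4
          exact hne rfl
      | d8 => exact hq rfl
  | kk c r d k hc h1 h2 hk he hst =>
    have := p.cp_fwd (c := K c r) h1 h2 (Or.inr hk) hb hu
    subst this
    have hn1 := (p.cp_le_nJG_K (c := c) (r := r) (d := d) (k := k) (by omega)).2
    have hn2 := (p.cp_le_nJG_K (c := c) (r := r) (d := d) (k := k - 1) (by omega)).2
    have hcc := p.col_K_succ hc (d := d) (k := k - 1) (by omega)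
    rw [show k - 1 + 1 = k by omega] at hcc
    have hst' : (p.cfree G (insert s(p.cp (K c r) d k, p.cp (K c r) d (k - 1))
        (insert s(a, a') U)) ∧ (col (p.cp (K c r) d (k - 1)) + (f + 1)) % 2 = 1) ∨
        (p.GT (insert s(p.cp (K c r) d k, p.cp (K c r) d (k - 1)) (insert s(a, a') U)) ∧
        p.ce G true 0 ∈ insert s(p.cp (K c r) d k, p.cp (K c r) d (k - 1))
          (insert s(a, a') U)) := by
      rcases hst with ⟨h1, h2⟩ | ⟨h1, h2⟩
      · exact Or.inl ⟨cg h1 hn1 hn2, by omega⟩
      · exact Or.inr ⟨gt h1 hn1 hn2, mem3 h2⟩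
    rcases Nat.lt_or_ge 1 k with h3 | h3
    · refine .kk c r d (k - 1) hc (by omega) (by omega) (p.ce_new h1) ?_ hst'
      rcases he with he | he
      · left; omega
      · exact Or.inr he
    · have : k = 1 := by omega
      subst this
      rcases he with he | ⟨i, s, hi, he⟩
      · omega
      · rw [Nat.sub_self, Par.cp_zero, he] at hst' ⊢
        exact .lv i s hi hst'
  | jh k h1 h2 hk hst =>
    have := p.cp_fwd (c := J) h1 h2 (Or.inr hk) hb hu
    subst this
    have hn1 := p.cp_nG_J (d := true) (k := k) (by omega)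
    have hn2 := p.cp_nG_J (d := true) (k := k - 1) (by omega)
    rcases Nat.lt_or_ge 1 k with h3 | h3
    · exact .jh (k - 1) (by omega) (by omega) (p.ce_new h1) ⟨cg hst.1 hn1 hn2, by omega⟩
    · have : k = 1 := by omega
      subst this
      rw [Nat.sub_self, p.cp_J0] at hn2 ⊢
      exact .lv _ _ le_rfl (Or.inl ⟨cg hst.1 hn1 hn2, by omega⟩)
  | jn k h1 h2 hk htk hG =>
    have := p.cp_fwd (c := J) h1 h2 (Or.inr hk) hb hu
    subst this
    exact .jn (k - 1) (by omega) (by omega) (p.ce_new h1) (by omega)
      (gt hG (p.cp_nG_J (by omega)) (p.cp_nG_J (by omega)))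
  | gn k h1 h2 hk htk hfr hph =>
    have := p.cp_fwd (c := G) h1 h2 (Or.inr hk) hb hu
    subst this
    refine .gn (k - 1) (by omega) (by omega) (p.ce_new h1) (by omega) ?_ (by omega)
    intro j hj hmem
    rcases hmem with hmem | hmem | hmem
    · rw [← p.ce_pred h1] at hmem
      have := p.ce_inj (c := G) (by omega) (by omega) hmem
      omega
    · exact p.ne_ce (c := G) (by omega) ha.2 ha'.2 hmem.symm
    · exact hfr j (by omega) hmem
  | gh k h1 h2 hk hG =>
    have hlG' : p.len G = p.lG := rfl
    have := p.cp_fwd (c := G) h1 (by omega) (Or.inr hk) hb hu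
    subst this
    have hG' : p.GT (insert s(p.cp G true k, p.cp G true (k - 1)) (insert s(a, a') U)) := by
      intro j hj hmem
      rcases hmem with hmem | hmem
      · rw [← p.ce_pred h1, show (false : Bool) = !true from rfl, p.ce_rev (by omega)] at hmem
        have := p.ce_inj (c := G) (by omega) (by omega) hmem
        omega
      · exact (Par.GT.ins hG ha.2 ha'.2) j hj hmem
    rcases Nat.lt_or_ge 1 k with h3 | h3
    · exact .gh (k - 1) (by omega) (by omega) (p.ce_new h1) hG'
    · have : k = 1 := by omega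
      subst this
      have hn := p.ce_new (c := G) (d := true) (U := insert s(a, a') U) (k := 1) le_rfl
      rw [Nat.sub_self, p.cp_G0] at hG' hn ⊢
      exact .lv _ _ le_rfl (Or.inr ⟨hG', hn⟩)

end Pool.Agent.H33.TT
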