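import Mathlib
import Pool.Agent.H33.TT.Fast2

/-!
# The fast road: the run through `G` from `n2`
-/

namespace Pool.Agent.H33.TT

open V Cor

variable {p : Par}

/-- Edges used when the player is on `n2`. -/
structure Par.PF (p : Par) (U : Set (Sym2 V)) : Prop where
  ctx : p.ctxF U
  uq : s(u2, ln false 0 false) ∈ U
  q1 : s(ln false 0 false, ln false 1 false) ∈ U
  Qn : s(ln false p.Len false, n1) ∈ U
  nn : s(n1, n2) ∈ U

lemma Par.PF.ins2 {U : Set (Sym2 V)} {e e' : Sym2 V} (h : p.PF U) :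
    p.PF (insert e (insert e' U)) :=
  ⟨h.ctx.ins2, mem3 h.uq, mem3 h.q1, mem3 h.Qn, mem3 h.nn⟩

/-- Modes of the opponent while the player runs through `G` from `n2`. -/
inductive Par.FP (p : Par) (br : Prop) (f : ℕ) (U : Set (Sym2 V)) : V → Prop
  | lt (i : ℕ) (s : Bool) (hi : i ≤ p.Len) (ph : br ∨ (i + f) % 2 = 1) :
      Par.FP p br f U (ln true i s)
  | lf (i : ℕ) (s : Bool) (h1 : 1 ≤ i) (hi : i ≤ p.Len) (ph : br ∨ (i + f) % 2 = 1) :
      Par.FP p br f U (ln false i s)
  | rr (ph : br ∨ f % 2 = 1) : Par.FP p br f U R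
  | kk (c r : ℕ) (d : Bool) (k : ℕ) (hc : p.vc (K c r)) (h1 : 1 ≤ k) (h2 : k < p.lK)
      (hb : p.ce (K c r) d k ∈ U) (ph : br ∨ (col (p.cp (K c r) d k) + f) % 2 = 1) :
      Par.FP p br f U (p.cp (K c r) d k)
  | jh (k : ℕ) (h1 : 1 ≤ k) (h2 : k < p.lJ) (hb : p.ce J true k ∈ U)
      (ph : br ∨ (1 + k + f) % 2 = 1) : Par.FP p br f U (p.cp J true k)
  | lp (k : ℕ) (h1 : 1 ≤ k) (h2 : k < p.la) (hb : p.ce lam false k ∈ U)
      (ph : br ∨ (k + f) % 2 = 1) : Par.FP p br f U (p.cp lam false k)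
  | w1 (h : s(y1, u1) ∈ U ∨ s(m1, u1) ∈ U) (ph : br ∨ f % 2 = 1) : Par.FP p br f U u1
  | w2 (h : s(y1, m1) ∈ U) (ph : br ∨ (1 + f) % 2 = 1) : Par.FP p br f U m1
  | w3 (h : s(m1, u1) ∈ U) (ph : br ∨ f % 2 = 1) : Par.FP p br f U m1
  | w4 (h : s(y1, m1) ∈ U) (ph : br ∨ (1 + f) % 2 = 1) : Par.FP p br f U y1
  | w5 (h : s(y1, u1) ∈ U) (ph : br ∨ f % 2 = 1) : Par.FP p br f U y1
  | dw (b : V) (h : p.DW U b) : Par.FP p br f U b
  | jn (k : ℕ) (h1 : 1 ≤ k) (h2 : k < p.lJ) (hb : p.ce J false k ∈ U) :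
      Par.FP p br f U (p.cp J false k)
  | pn1 (h : s(R, n1) ∈ U) : Par.FP p br f U n1
  | pn2 (h : s(n2, I J (p.lJ - 1)) ∈ U) : Par.FP p br f U n2

lemma Par.FP.nG {br : Prop} {f : ℕ} {U : Set (Sym2 V)} {b : V} (h : p.FP br f U b) :
    ¬ inC G b := by
  cases h with
  | lt => simp [inC]
  | lf => simp [inC]
  | rr => simp [inC]
  | kk c r d k hc h1 h2 => exact (p.cp_nJG_K h1 h2).2
  | jh k h1 h2 => exact p.cp_nG_J h2
  | lp k h1 h2 => exact (p.cp_le_nJG (by simp) (by simp) (by show k ≤ p.la; omega)).2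
  | w1 => simp [inC]
  | w2 => simp [inC]
  | w3 => simp [inC]
  | w4 => simp [inC]
  | w5 => simp [inC]
  | dw _ h => exact h.nj.2
  | jn k h1 h2 => exact p.cp_nG_J h2
  | pn1 => simp [inC]
  | pn2 => simp [inC]

lemma Par.inn_one : ¬ p.inn 1 := by
  unfold Par.inn
  rw [Nat.mod_eq_of_lt (by have := p.hP; omega)]
  have := p.hsg; omega

lemma Par.FP.step {br : Prop} {f : ℕ} {U : Set (Sym2 V)} {b b' : V} {e : Sym2 V}
    (h : p.FP br f U b) (hF : p.PF U) (hg : p.ce G false 0 ∈ insert e U)
    (hb : p.Adj b b') (hu : s(b, b') ∉ insert e U) :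
    p.FP br (f + 1) (insert s(b, b') (insert e U)) b' ∨
      (b = ln true p.Len false ∧ b' = I G 1 ∧ (br ∨ (p.Len + f) % 2 = 1)) := by
  have hu' : s(b, b') ∉ U := fun h => hu (Or.inr h)
  have hLen := p.Len_odd
  have hla2 := p.hla2
  have hJ2 := p.hJ2
  have el : p.len lam = p.la := rfl
  have ek : p.len kap = p.ka := rfl
  have eJ : p.len J = p.lJ := rfl
  have gl := p.len_ge lam
  have gk := p.len_ge kap
  have gJ := p.len_ge J
  have phs : ∀ n m : ℕ, (br ∨ (n + f) % 2 = 1) → (n + m) % 2 = 1 → (br ∨ (m + (f + 1)) % 2 = 1) := by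
    intro n m h1 h2
    rcases h1 with h | h
    · exact Or.inl h
    · right; omega
  have gK : 100 ≤ p.lK := p.len_ge (K 0 0)
  -- entering a clause corridor
  have hsrc : ∀ c r, p.vc (K c r) → b = p.src (K c r) → b' = I (K c r) 1 →
      (br ∨ (1 + f) % 2 = 1) → p.FP br (f + 1) (insert s(b, b') (insert e U)) b' := by
    intro c r hc h1 h2 h3
    obtain ⟨e1, e2⟩ := p.I_src (c := c) (r := r)
    have hbb : p.ce (K c r) false (p.lK - 1) ∈ insert s(b, b') (insert e U) := by
      left; rw [Par.ce, show p.lK - 1 + 1 = p.lK by omega, e2, ← e1, h1, h2, Sym2.eq_swap]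
    have hc1 := p.col_K hc (d := false) (k := p.lK - 1) (by omega)
    simp only [Bool.false_eq_true, if_false] at hc1
    rw [h2, e1] at hbb ⊢
    exact .kk c r false (p.lK - 1) hc (by omega) (by omega) hbb (phs 1 _ h3 (by omega))
  have hdst : ∀ c r, p.vc (K c r) → b = p.dst (K c r) → b' = I (K c r) (p.lK - 1) →
      (br ∨ (0 + f) % 2 = 1) → p.FP br (f + 1) (insert s(b, b') (insert e U)) b' := by
    intro c r hc h1 h2 h3
    obtain ⟨e1, e2⟩ := p.I_dst (c := c) (r := r)
    have hbb : p.ce (K c r) true (p.lK - 1) ∈ insert s(b, b') (insert e U) := by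
      left; rw [Par.ce, show p.lK - 1 + 1 = p.lK by omega, e2, ← e1, h1, h2, Sym2.eq_swap]
    have hc1 := p.col_K hc (d := true) (k := p.lK - 1) (by omega)
    simp only [if_true] at hc1
    have := p.hK2
    rw [h2, e1] at hbb ⊢
    exact .kk c r true (p.lK - 1) hc (by omega) (by omega) hbb (phs 0 _ h3 (by omega))
  cases h with
  | lt i s hi ph =>
    rcases p.nb_ln hb with ⟨s', rfl, h1, _⟩ | ⟨s', i', h0, rfl, h1, _⟩ | ⟨rfl, rfl, _, rfl⟩ |
      ⟨_, _, h, _⟩ | ⟨rfl, rfl, _, h⟩ | ⟨_, _, h, _⟩ | ⟨c, r, hc, hr, hl, hs, h⟩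
    · exact Or.inl (.lt _ _ (by omega) (phs i _ ph (by omega)))
    · exact Or.inl (.lt _ _ (by omega) (phs i _ ph (by omega)))
    · left
      have e1 : I lam (p.la - 1) = p.cp lam true (p.la - 1) := by
        rw [p.cp_mid (c := lam) (by omega) (by omega)]; simp
      have e2 : p.cp lam true (p.la - 1 + 1) = ln true 0 false := by
        rw [show p.la - 1 + 1 = p.len lam by omega, Par.cp_len]; rfl
      have hbb : p.ce lam true (p.la - 1) ∈
          insert s(ln true 0 false, I lam (p.la - 1)) (insert e U) := by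
        left; rw [Par.ce, e2, ← e1, Sym2.eq_swap]
      rw [e1] at hbb ⊢
      exact .dw _ (.d1 (p.la - 1) (by omega) (by omega) hbb)
    · simp at h
    · rcases h with rfl | rfl
      · left
        have e1 : I J 1 = p.cp J false (p.lJ - 1) := by
          rw [p.cp_mid (c := J) (by omega) (by omega)]
          simp only [Bool.false_eq_true, if_false]; congr 1; omega
        have e2 : p.cp J false (p.lJ - 1 + 1) = ln true p.Len false := by
          rw [show p.lJ - 1 + 1 = p.len J by omega, Par.cp_len]; rfl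
        have hbb : p.ce J false (p.lJ - 1) ∈
            insert s(ln true p.Len false, I J 1) (insert e U) := by
          left; rw [Par.ce, e2, ← e1, Sym2.eq_swap]
        rw [e1] at hbb ⊢
        exact .jn (p.lJ - 1) (by omega) (by omega) hbb
      · exact Or.inr ⟨rfl, rfl, ph⟩
    · simp at h
    · left
      have := p.ai_even (c := c) (r := r)
      rcases h with ⟨rfl, rfl⟩ | ⟨rfl, rfl⟩
      · refine hdst c r ⟨hc, by omega⟩ (by simp [Par.dst, hr, ← hl, ← hs]) rfl ?_
        rcases ph with h | h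
        · exact Or.inl h
        · right; omega
      · refine hsrc c (r + 1) ⟨hc, by omega⟩ (by simp [Par.src, ← hl, ← hs]) rfl ?_
        rcases ph with h | h
        · exact Or.inl h
        · right; omega
  | lf i s h0 hi ph =>
    left
    rcases p.nb_ln hb with ⟨s', rfl, h1, _⟩ | ⟨s', i', h0, rfl, h1, h2, h3, _⟩ | ⟨_, _, h, _⟩ |
      ⟨h, _⟩ | ⟨_, _, h, _⟩ | ⟨rfl, rfl, _, h⟩ | ⟨c, r, hc, hr, hl, hs, h⟩
    · exact .lf _ _ (by omega) (by omega) (phs i _ ph (by omega))
    · rcases Nat.eq_zero_or_pos i' with rfl | h4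
      · exfalso
        have hi1 : i = 1 := by omega
        subst hi1
        have hs1 : s = false := by
          rcases h2 with h | h
          · exact h
          · exact absurd h p.inn_one
        have hs2 : s' = false := by
          rcases h3 with h | h
          · exact h
          · exact absurd h p.not_inn_zero
        subst hs1 hs2
        rw [Sym2.eq_swap] at hu'
        exact hu' hF.q1
      · exact .lf _ _ (by omega) (by omega) (phs i _ ph (by omega))
    · simp at h
    · omega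
    · simp at h
    · rcases h with rfl | ⟨c, hc, rfl⟩
      · exact absurd hF.Qn hu'
      · refine hsrc c 0 ⟨hc, by omega⟩ rfl rfl ?_
        rcases ph with h | h
        · exact Or.inl h
        · right; omega
    · have := p.ai_even (c := c) (r := r)
      rcases h with ⟨rfl, rfl⟩ | ⟨rfl, rfl⟩
      · refine hdst c r ⟨hc, by omega⟩ (by simp [Par.dst, hr, ← hl, ← hs]) rfl ?_
        rcases ph with h | h
        · exact Or.inl h
        · right; omega
      · refine hsrc c (r + 1) ⟨hc, by omega⟩ (by simp [Par.src, ← hl, ← hs]) rfl ?_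
        rcases ph with h | h
        · exact Or.inl h
        · right; omega
  | rr ph =>
    left
    rcases p.nb_R hb with rfl | ⟨c, hc, rfl⟩
    · exact .pn1 (Or.inl rfl)
    · refine hdst c 3 ⟨hc, by omega⟩ (by simp [Par.dst]) rfl ?_
      rcases ph with h | h
      · exact Or.inl h
      · right; omega
  | kk c r d k hc h1 h2 hk ph =>
    left
    have := p.cp_fwd (c := K c r) h1 h2 (Or.inr hk) hb hu
    subst this
    have hcc := p.col_K_succ hc (d := d) (k := k - 1) (by omega)
    rw [show k - 1 + 1 = k by omega] at hcc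
    rcases Nat.lt_or_ge 1 k with h3 | h3
    · exact .kk c r d (k - 1) hc (by omega) (by omega) (p.ce_new h1) (phs _ _ ph (by omega))
    · have : k = 1 := by omega
      subst this
      have ph' := phs _ (col (p.cp (K c r) d (1 - 1))) ph (by omega)
      rw [Nat.sub_self, Par.cp_zero] at ph' ⊢
      have hend : (∃ i s, p.fin (K c r) d = ln true i s ∧ i ≤ p.Len) ∨
          (∃ i s, p.fin (K c r) d = ln false i s ∧ 1 ≤ i ∧ i ≤ p.Len) ∨
          p.fin (K c r) d = R := by
        cases d
        · simp only [Par.fin, Bool.false_eq_true, if_false, Par.dst]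
          split_ifs with h
          · have := p.ai_le hc.1 h
            have h5 : 1 ≤ p.ai c r := by unfold Par.ai; omega
            rcases hl : p.lane c r
            · exact Or.inr (Or.inl ⟨_, _, rfl, h5, by omega⟩)
            · exact Or.inl ⟨_, _, rfl, by omega⟩
          · exact Or.inr (Or.inr rfl)
        · simp only [Par.fin, if_true]
          rcases r with _ | r
          · exact Or.inr (Or.inl ⟨_, _, rfl, by omega, le_rfl⟩)
          · simp only [Par.src]
            have := p.ai_le hc.1 (r := r) (by have := hc.2; omega)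
            rcases hl : p.lane c r
            · exact Or.inr (Or.inl ⟨_, _, rfl, by omega, by omega⟩)
            · exact Or.inl ⟨_, _, rfl, by omega⟩
      rcases hend with ⟨i, s, h4, h5⟩ | ⟨i, s, h4, h5, h6⟩ | h4
      · rw [h4] at ph' ⊢; exact .lt i s h5 ph'
      · rw [h4] at ph' ⊢; exact .lf i s h5 h6 ph'
      · rw [h4] at ph' ⊢
        refine .rr ?_
        simpa [col] using ph'
  | jh k h1 h2 hk ph =>
    left
    have := p.cp_fwd (c := J) h1 h2 (Or.inr hk) hb hu
    subst this
    rcases Nat.lt_or_ge 1 k with h3 | h3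
    · exact .jh (k - 1) (by omega) (by omega) (p.ce_new h1) (phs _ _ ph (by omega))
    · have : k = 1 := by omega
      subst this
      rw [Nat.sub_self, p.cp_J0]
      exact .lt _ _ le_rfl (phs _ _ ph (by omega))
  | lp k h1 h2 hk ph =>
    left
    have := p.cp_fwd (c := lam) h1 h2 (Or.inr hk) hb hu
    subst this
    rcases Nat.lt_or_ge 1 k with h3 | h3
    · exact .lp (k - 1) (by omega) (by omega) (p.ce_new h1) (phs _ _ ph (by omega))
    · have : k = 1 := by omega
      subst this
      have e1 : p.cp lam false (1 - 1) = ln true 0 false := by simp [Par.cp, Par.dst]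
      rw [e1]
      exact .lt _ _ (by omega) (phs _ _ ph (by omega))
  | w1 h ph =>
    left
    rcases p.nb_u1 hb with rfl | rfl | rfl
    · refine .dw _ (.d3 _ (by simp) (Or.inl (by rw [Sym2.eq_swap])) ?_)
      rcases h with h | h
      · rw [Sym2.eq_swap] at hu'; exact absurd h hu'
      · exact mem3 h
    · refine .dw _ (.d3 _ (by simp) ?_ (Or.inl (by rw [Sym2.eq_swap])))
      rcases h with h | h
      · exact mem3 h
      · rw [Sym2.eq_swap] at hu'; exact absurd h hu'
    · have e1 : I lam 1 = p.cp lam false (p.la - 1) := by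
        rw [p.cp_mid (c := lam) (by omega) (by omega)]
        simp only [Bool.false_eq_true, if_false]; congr 1; omega
      have e2 : p.cp lam false (p.la - 1 + 1) = u1 := by
        rw [show p.la - 1 + 1 = p.len lam by omega, Par.cp_len]; rfl
      have hbb : p.ce lam false (p.la - 1) ∈ insert s(u1, I lam 1) (insert e U) := by
        left; rw [Par.ce, e2, ← e1, Sym2.eq_swap]
      rw [e1] at hbb ⊢
      refine .lp (p.la - 1) (by omega) (by omega) hbb ?_
      rcases ph with h | h
      · exact Or.inl h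
      · right; omega
  | w2 h ph =>
    left
    rcases p.nb_m1 hb with rfl | rfl
    · rw [Sym2.eq_swap] at hu'; exact absurd h hu'
    · refine .w1 (Or.inr (Or.inl rfl)) ?_
      rcases ph with h | h
      · exact Or.inl h
      · right; omega
  | w3 h ph =>
    left
    rcases p.nb_m1 hb with rfl | rfl
    · refine .w4 (Or.inl (by rw [Sym2.eq_swap])) ?_
      rcases ph with h | h
      · exact Or.inl h
      · right; omega
    · exact absurd h hu'
  | w4 h ph =>
    left
    rcases p.nb_y1 hb with rfl | rfl | rfl | rfl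
    · exact .dw _ (.d4 (Or.inl (by rw [Sym2.eq_swap])))
    · exact .dw _ (.d5 (Or.inl (by rw [Sym2.eq_swap])))
    · exact absurd h hu'
    · refine .w1 (Or.inl (Or.inl rfl)) ?_
      rcases ph with h | h
      · exact Or.inl h
      · right; omega
  | w5 h ph =>
    left
    rcases p.nb_y1 hb with rfl | rfl | rfl | rfl
    · exact .dw _ (.d4 (Or.inl (by rw [Sym2.eq_swap])))
    · exact .dw _ (.d5 (Or.inl (by rw [Sym2.eq_swap])))
    · refine .w2 (Or.inl rfl) ?_
      rcases ph with h | h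
      · exact Or.inl h
      · right; omega
    · exact absurd h hu'
  | dw _ h =>
    left
    exact .dw _ (h.step (fun _ => hF.ctx.ins1) (fun _ => ⟨Or.inr hF.uq, Or.inr hF.q1⟩) hb hu).1
  | jn k h1 h2 hk =>
    left
    have := p.cp_fwd (c := J) h1 h2 (Or.inr hk) hb hu
    subst this
    rcases Nat.lt_or_ge 1 k with h3 | h3
    · exact .jn (k - 1) (by omega) (by omega) (p.ce_new h1)
    · have : k = 1 := by omega
      subst this
      have hn := p.ce_new (c := J) (d := false) (U := insert e U) (k := 1) le_rfl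
      rw [Nat.sub_self] at hn ⊢
      rw [p.ceJf0] at hn
      rw [p.cp_Jf0] at hn ⊢
      exact .pn2 hn
  | pn1 h =>
    exfalso
    rcases p.nb_n1 hb with rfl | rfl | rfl
    · rw [Sym2.eq_swap] at hu'; exact hu' hF.Qn
    · rw [Sym2.eq_swap] at hu'; exact hu' h
    · exact hu' hF.nn
  | pn2 h =>
    exfalso
    rcases p.nb_n2 hb with rfl | rfl | rfl
    · rw [Sym2.eq_swap] at hu'; exact hu' hF.nn
    · exact hu' h
    · rw [← p.ceGf0] at hu; exact hu hg

lemma Par.IG1 : I G 1 = p.cp G false (p.lG - 1) := by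
  have hl := p.len_ge G
  have hl' : p.len G = p.lG := rfl
  rw [p.cp_mid (c := G) (by omega) (by omega)]
  simp only [Bool.false_eq_true, if_false]; congr 1; omega

/-- The run through `G` from `n2`, all of `G` being free. -/
theorem fast_G {U : Set (Sym2 V)} {b : V} {f : ℕ} (hf : f % 2 = 1) (hF : p.PF U)
    (hG : p.cfree G U) (hm : p.FP False f U b) (hn : b ≠ n2) : MW p.Adj U n2 b := by
  have hGG := p.hG
  have hG2 := p.hG2
  have hLen := p.Len_odd
  rw [← p.cp_Gf0]
  refine gfinal false p.lG le_rfl (fun i U b => p.PF U ∧ (1 ≤ i → p.ce G false 0 ∈ U) ∧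
    p.FP False (f + i) U b) ?_ 0 U b (by omega) ?_ ⟨hF, by omega, hm⟩
  · rintro i U b b' ⟨m1, m2, m3⟩ hi hb hu hfr
    have hg : p.ce G false 0 ∈ insert (p.ce G false i) U := by
      rcases Nat.eq_zero_or_pos i with rfl | h0
      · exact Or.inl rfl
      · exact Or.inr (m2 h0)
    rcases m3.step m1 hg hb hu with h | ⟨h1, h2, h3⟩
    · exact Or.inl ⟨m3.nG, h.nG, m1.ins2, fun _ => Or.inr hg, h⟩
    · right
      refine ⟨rfl, ?_, by rw [h2, p.IG1], ?_⟩
      · rw [h1]; rfl
      · rcases h3 with h3 | h3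
        · exact absurd h3 id
        · omega
  · intro j _ hj
    exact p.cfree_rev hG false hj

/-- The run through `G` from `n2`, `G` being broken near `h`. -/
theorem fast_GT {U : Set (Sym2 V)} {b : V} {i f : ℕ} (hi : i ≤ p.la + p.Len + 30) (hF : p.PF U)
    (hG : ∀ j, i ≤ j → j + (p.la + p.Len + 30) < p.lG → p.ce G false j ∉ U)
    (hm : p.FP True f U b) (hg : p.ce G true 0 ∈ U)
    (h1 : 1 ≤ i → p.ce G false 0 ∈ U) : MW p.Adj U (p.cp G false i) b := by
  have hGG := p.hG
  refine gfinal false (p.lG - (p.la + p.Len + 30)) (by omega)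
    (fun i U b => p.PF U ∧ (1 ≤ i → p.ce G false 0 ∈ U) ∧ (∃ f, p.FP True f U b) ∧
      p.ce G true 0 ∈ U) ?_ i U b (by omega) ?_ ⟨hF, h1, ⟨f, hm⟩, hg⟩
  · rintro i U b b' ⟨m1, m2, ⟨f, m3⟩, m4⟩ hi hb hu hfr
    left
    have hg : p.ce G false 0 ∈ insert (p.ce G false i) U := by
      rcases Nat.eq_zero_or_pos i with rfl | h0
      · exact Or.inl rfl
      · exact Or.inr (m2 h0)
    rcases m3.step m1 hg hb hu with h | ⟨h1, h2, h3⟩
    · exact ⟨m3.nG, h.nG, m1.ins2, fun _ => Or.inr hg, ⟨_, h⟩, mem3 m4⟩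
    · exfalso
      rw [h1, h2, ← p.ceG0] at hu
      exact hu (Or.inr m4)
  · intro j h1 h2
    exact hG j h1 (by omega)

/-- The run through `G` from `n2`, the opponent being in a dead mode. -/
theorem fast_dead {U : Set (Sym2 V)} {b : V} (hF : p.PF U) (hG : p.GT U)
    (hm : p.DW U b ∨ (∃ k, 1 ≤ k ∧ k < p.lJ ∧ b = p.cp J false k ∧ p.ce J false k ∈ U)) :
    MW p.Adj U n2 b := by
  have hGG := p.hG
  rw [← p.cp_Gf0]
  refine gfinal false (p.lG - (p.la + p.Len + 30)) (by omega)
    (fun i U b => p.PF U ∧ (1 ≤ i → p.ce G false 0 ∈ U) ∧ (p.DW U b ∨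
      (∃ k, 1 ≤ k ∧ k < p.lJ ∧ b = p.cp J false k ∧ p.ce J false k ∈ U) ∨
      (b = n2 ∧ s(n2, I J (p.lJ - 1)) ∈ U))) ?_ 0 U b (by omega) ?_ ⟨hF, by omega, ?_⟩
  · rintro i U b b' ⟨m1, m2, m3⟩ hi hb hu hfr
    left
    have hg : p.ce G false 0 ∈ insert (p.ce G false i) U := by
      rcases Nat.eq_zero_or_pos i with rfl | h0
      · exact Or.inl rfl
      · exact Or.inr (m2 h0)
    rcases m3 with h | ⟨k, h1, h2, rfl, hk⟩ | ⟨rfl, h⟩
    · have h' := (h.step (fun _ => m1.ctx.ins1) (fun _ => ⟨Or.inr m1.uq, Or.inr m1.q1⟩) hb hu).1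
      exact ⟨h.nj.2, h'.nj.2, m1.ins2, fun _ => Or.inr hg, Or.inl h'⟩
    · have := p.cp_fwd (c := J) h1 h2 (Or.inr hk) hb hu
      subst this
      refine ⟨p.cp_nG_J (by omega), p.cp_nG_J (by omega), m1.ins2, fun _ => Or.inr hg, Or.inr ?_⟩
      rcases Nat.lt_or_ge 1 k with h3 | h3
      · exact Or.inl ⟨k - 1, by omega, by omega, rfl, p.ce_new h1⟩
      · have : k = 1 := by omega
        subst this
        have hn := p.ce_new (c := J) (d := false) (U := insert (p.ce G false i) U) (k := 1) le_rfl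
        rw [Nat.sub_self] at hn ⊢
        rw [p.ceJf0] at hn
        exact Or.inr ⟨p.cp_Jf0, hn⟩
    · exfalso
      have hu' : s(n2, b') ∉ U := fun h => hu (Or.inr h)
      rcases p.nb_n2 hb with rfl | rfl | rfl
      · rw [Sym2.eq_swap] at hu'; exact hu' m1.nn
      · exact hu' h
      · rw [← p.ceGf0] at hu; exact hu hg
  · intro j h1 h2
    exact hG j (by omega)
  · rcases hm with h | h
    · exact Or.inl h
    · exact Or.inr (Or.inl h)

/-- The run through `G` from `n2`, while the opponent is in `G` near `h`, heading `h`. -/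
theorem fast_gh : ∀ (k i : ℕ) (U : Set (Sym2 V)), i + k ≤ p.la + p.Len + 30 → p.PF U →
    (∀ j, i ≤ j → j + (p.la + p.Len + 30) < p.lG → p.ce G false j ∉ U) → p.ce G true k ∈ U →
    (1 ≤ i → p.ce G false 0 ∈ U) → MW p.Adj U (p.cp G false i) (p.cp G true k) := by
  have hGG := p.hG
  have hl : p.len G = p.lG := rfl
  intro k
  induction k with
  | zero =>
    intro i U hik hF hfr hb hi
    rw [p.cp_G0]
    exact fast_GT (f := 0) (by omega) hF hfr (.lt _ _ le_rfl (Or.inl trivial)) hb hi
  | succ k ih =>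
    intro i U hik hF hfr hb hi
    refine MW.intro _ (p.cp_adj (c := G) trivial false (by omega)) (hfr i le_rfl (by omega)) ?_
    intro b' hadj hu
    have := p.cp_fwd (c := G) (by omega) (by omega) (Or.inr hb) hadj hu
    subst this
    refine ih (i + 1) _ (by omega) hF.ins2 ?_ ?_ ?_
    · intro j hj1 hj2 hmem
      rcases hmem with hmem | hmem | hmem
      · rw [← p.ce_pred (c := G) (by omega), show (false : Bool) = !true from rfl,
          p.ce_rev (by omega)] at hmem
        have := p.ce_inj (c := G) (by omega) (by omega) hmem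
        omega
      · have := p.ce_inj (c := G) (d := false) (i := j) (j := i) (by omega) (by omega) hmem
        omega
      · exact hfr j (by omega) hj2 hmem
    · exact p.ce_new (c := G) (d := true) (k := k + 1) (by omega)
    · intro _
      rcases Nat.eq_zero_or_pos i with rfl | h0
      · exact Or.inr (Or.inl rfl)
      · exact mem3 (hi h0)

/-- **The fast road, at `n2`.** -/
theorem fast_fin {f t : ℕ} {U : Set (Sym2 V)} {b : V} (hf : f % 2 = 1) (ht : t ≤ p.Len + 7)
    (hF : p.PF U) (hm : p.FM f t U b) : MW p.Adj U n2 b := by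
  have hka := p.hka
  have hla := p.la_ge
  cases hm with
  | lv i s hi hst =>
    rcases hst with ⟨h1, h2⟩ | ⟨h1, h2⟩
    · exact fast_G hf hF h1 (.lt i s hi (Or.inr h2)) (by simp)
    · rw [← p.cp_Gf0]
      exact fast_GT (f := 0) (by omega) hF (fun j _ hj => h1 j hj) (.lt i s hi (Or.inl trivial)) h2
        (by omega)
  | lp k h1 h2 hk hst =>
    refine fast_G hf hF hst.1 (.lp k h1 h2 hk (Or.inr hst.2)) ?_
    rw [p.cp_mid (c := lam) h1 h2]; simp
  | w1 h hG hph => exact fast_G hf hF hG (.w1 h (Or.inr hph)) (by simp)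
  | w2 h hG hph => exact fast_G hf hF hG (.w2 h (Or.inr hph)) (by simp)
  | w3 h hG hph => exact fast_G hf hF hG (.w3 h (Or.inr hph)) (by simp)
  | w4 h hG hph => exact fast_G hf hF hG (.w4 h (Or.inr hph)) (by simp)
  | w5 h hG hph => exact fast_G hf hF hG (.w5 h (Or.inr hph)) (by simp)
  | dw _ h _ _ hG => exact fast_dead hF hG (Or.inl h)
  | kk c r d k hc h1 h2 hk he hst =>
    rcases hst with ⟨h3, h4⟩ | ⟨h3, h4⟩
    · refine fast_G hf hF h3 (.kk c r d k hc h1 h2 hk (Or.inr h4)) ?_
      rw [p.cp_mid (c := K c r) h1 h2]; simp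
    · rw [← p.cp_Gf0]
      exact fast_GT (f := 0) (by omega) hF (fun j _ hj => h3 j hj)
        (.kk c r d k hc h1 h2 hk (Or.inl trivial)) h4 (by omega)
  | jh k h1 h2 hk hst =>
    refine fast_G hf hF hst.1 (.jh k h1 h2 hk (Or.inr hst.2)) ?_
    rw [p.cp_mid (c := J) h1 h2]; simp
  | jn k h1 h2 hk htk hG => exact fast_dead hF hG (Or.inr ⟨k, h1, h2, rfl, hk⟩)
  | gn k h1 h2 hk htk hfr hph =>
    rw [← p.cp_Gf0]
    exact headon (c := G) trivial false ((k - 1) / 2) 0 k U (by omega) h2
      (fun j _ hj => hfr j hj) hk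
  | gh k h1 h2 hk hG =>
    rw [← p.cp_Gf0]
    exact fast_gh k 0 U (by omega) hF (fun j _ hj => hG j hj) hk (by omega)

end Pool.Agent.H33.TT
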