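import Mathlib
import Pool.Agent.H33.TT.Fast3

/-!
# The fast road
-/

namespace Pool.Agent.H33.TT

open V Cor

variable {p : Par}

/-- The road ahead in the second lane. -/
def TQ (i : ℕ) (v : V) : Prop := (∃ j s, i ≤ j ∧ v = ln false j s) ∨ v = n1 ∨ v = n2

/-- The fast road. -/
def TZ (v : V) : Prop := v = y2 ∨ v = m2 ∨ v = u2 ∨ TQ 0 v

lemma Par.FM.nZ {f t : ℕ} {U : Set (Sym2 V)} {b : V} (h : p.FM f t U b) : ¬ TZ b := by
  have hI : ∀ c j, ¬ TZ (I c j) := by
    rintro c j (h | h | h | ⟨_, _, _, h⟩ | h | h) <;> simp at h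
  have hn : ∀ v, v = u1 ∨ v = m1 ∨ v = y1 ∨ v = x ∨ v = x2 ∨ v = w ∨ (∃ i s, v = ln true i s) →
      ¬ TZ v := by
    rintro v (rfl | rfl | rfl | rfl | rfl | rfl | ⟨i, s, rfl⟩) <;>
      rintro (h | h | h | ⟨_, _, _, h⟩ | h | h) <;> simp at h
  cases h with
  | lv i s => exact hn _ (by simp)
  | lp k h1 h2 => rw [p.cp_mid (c := lam) h1 h2]; exact hI _ _
  | w1 => exact hn _ (by simp)
  | w2 => exact hn _ (by simp)
  | w3 => exact hn _ (by simp)
  | w4 => exact hn _ (by simp)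
  | w5 => exact hn _ (by simp)
  | dw _ h _ hq _ =>
    cases h with
    | d1 k h1 h2 => rw [p.cp_mid (c := lam) h1 h2]; exact hI _ _
    | d2 _ hh => exact hn _ (by rcases hh with rfl | rfl | rfl <;> simp)
    | d3 _ hh => exact hn _ (by rcases hh with rfl | rfl <;> simp)
    | d4 => exact hn _ (by simp)
    | d5 => exact hn _ (by simp)
    | d6 => exact hn _ (by simp)
    | d7 k h1 h2 => rw [p.cp_mid (c := kap) h1 h2]; exact hI _ _
    | d8 => exact absurd rfl hq
  | kk c r d k hc h1 h2 => rw [p.cp_mid (c := K c r) h1 h2]; exact hI _ _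
  | jh k h1 h2 => rw [p.cp_mid (c := J) h1 h2]; exact hI _ _
  | jn k h1 h2 => rw [p.cp_mid (c := J) h1 h2]; exact hI _ _
  | gn k h1 h2 => rw [p.cp_mid (c := G) h1 h2]; exact hI _ _
  | gh k h1 h2 =>
    rw [p.cp_mid (c := G) h1 (by have := p.hG; show k < p.lG; omega)]; exact hI _ _

lemma TQ.TZ {i : ℕ} {v : V} (h : TQ i v) : TZ v := by
  rcases h with ⟨j, s, _, h⟩ | h
  · exact Or.inr (Or.inr (Or.inr (Or.inl ⟨j, s, by omega, h⟩)))
  · exact Or.inr (Or.inr (Or.inr (Or.inr h)))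

/-- **The fast road, in the lane.** -/
theorem fast_lane : ∀ (n i t : ℕ) (U : Set (Sym2 V)) (b : V), i + n = p.Len →
    Fr (TQ i) U → p.ctxF U → s(u2, ln false 0 false) ∈ U →
    (1 ≤ i → s(ln false 0 false, ln false 1 false) ∈ U) → t ≤ i + 5 →
    p.FM i t U b → MW p.Adj U (ln false i false) b := by
  have hLen := p.Len_odd
  intro n
  induction n with
  | zero =>
    intro i t U b hin hFr hctx huq hq1 ht2 hm
    have hi : i = p.Len := by omega
    subst hi
    have hT : ∀ v, TQ p.Len v → ¬ v = ln false p.Len false → v = n1 ∨ v = n2 ∨ TQ (p.Len + 1) v ∨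
      ∃ s, v = ln false p.Len s := by
      intro v h1 h2
      rcases h1 with ⟨j, s, h3, rfl⟩ | h | h
      · rcases Nat.lt_or_ge p.Len j with h4 | h4
        · exact Or.inr (Or.inr (Or.inl (Or.inl ⟨j, s, h4, rfl⟩)))
        · have : j = p.Len := by omega
          subst this
          exact Or.inr (Or.inr (Or.inr ⟨s, rfl⟩))
      · exact Or.inl h
      · exact Or.inr (Or.inl h)
    refine MW.intro n1 (Or.inl .Qn1) (hFr _ _ (Or.inl ⟨_, _, le_rfl, rfl⟩) (Or.inr (Or.inl rfl))) ?_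
    intro b' hb hu
    have hm' := hm.step (by omega) (fun _ => hctx.ins1) (nJG_ln _ _ _) ⟨by simp [inC], by simp [inC]⟩ hb hu
    have hne : s(n1, n2) ∉ insert s(b, b') (insert s(ln false p.Len false, n1) U) := by
      rintro (h | h | h)
      · have hz := hm.nZ
        rcases Sym2.eq_iff.1 h with ⟨h, _⟩ | ⟨_, h⟩
        · exact hz (h ▸ Or.inr (Or.inr (Or.inr (Or.inr (Or.inl rfl)))))
        · exact hz (h ▸ Or.inr (Or.inr (Or.inr (Or.inr (Or.inr rfl)))))
      · rcases Sym2.eq_iff.1 h with ⟨h, _⟩ | ⟨_, h⟩ <;> simp at h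
      · exact hFr _ _ (Or.inr (Or.inl rfl)) (Or.inr (Or.inr rfl)) h
    refine MW.intro n2 (Or.inl .n1n2) hne ?_
    intro b'' hb' hu'
    have hm'' := hm'.step (a := n1) (a' := n2) (by omega) (fun _ => hctx.ins2.ins1) ⟨by simp [inC], by simp [inC]⟩
      ⟨by simp [inC], by simp [inC]⟩ hb' hu'
    refine fast_fin (by omega) (by omega) ⟨hctx.ins2.ins2, mem3 (mem3 huq), mem3 (mem3 (hq1 ?_)),
      ?_, ?_⟩ hm''
    · omega
    · exact mem3 (Or.inr (Or.inl rfl))
    · exact Or.inr (Or.inl rfl)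
  | succ n ih =>
    intro i t U b hin hFr hctx huq hq1 ht2 hm
    have hadj : p.Adj (ln false i false) (ln false (i + 1) false) :=
      Or.inl (.lane false i false false (by omega) (Or.inl rfl) (Or.inl rfl) (fun _ _ => rfl))
    refine MW.intro _ hadj (hFr _ _ (Or.inl ⟨i, _, le_rfl, rfl⟩)
      (Or.inl ⟨i + 1, _, by omega, rfl⟩)) ?_
    intro b' hb hu
    have hm' := hm.step (by omega) (fun _ => hctx.ins1) (nJG_ln _ _ _) (nJG_ln _ _ _) hb hu
    refine ih (i + 1) (t + 1) _ b' (by omega) ?_ hctx.ins2 (mem3 huq) ?_ (by omega) hm'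
    · refine ((hFr.mono ?_).insl ?_).insl (fun h => hm.nZ h.TZ)
      · rintro v (⟨j, s', h1, h2⟩ | h)
        · exact Or.inl ⟨j, s', by omega, h2⟩
        · exact Or.inr h
      · rintro (⟨j, s', h1, h2⟩ | h | h)
        · have := (V.ln.inj h2).2.1
          omega
        · simp at h
        · simp at h
    · intro _
      rcases Nat.eq_zero_or_pos i with rfl | h0
      · exact Or.inr (Or.inl rfl)
      · exact mem3 (hq1 h0)

/-- From `u2`. -/
theorem fast_u2 {f t : ℕ} {U : Set (Sym2 V)} {b : V} (hf : f % 2 = 1) (ht : t ≤ 4)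
    (hctx : p.ctxF U) (hFr : Fr (fun v => v = u2 ∨ TQ 0 v) U) (hm : p.FM f t U b) :
    MW p.Adj U u2 b := by
  refine MW.intro (ln false 0 false) (Or.inl .u2q) (hFr _ _ (Or.inl rfl)
    (Or.inr (Or.inl ⟨0, _, le_rfl, rfl⟩))) ?_
  intro b' hb hu
  have hm' := hm.step (a := u2) (by omega) (fun _ => hctx.ins1) ⟨by simp [inC], by simp [inC]⟩ (nJG_ln _ _ _) hb hu
  have hm2 : p.FM 0 (t + 1) (insert s(b, b') (insert s(u2, ln false 0 false) U)) b' := by
    cases hm' with
    | lv i s hi hst =>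
      refine .lv i s hi ?_
      rcases hst with ⟨h1, h2⟩ | h
      · exact Or.inl ⟨h1, by omega⟩
      · exact Or.inr h
    | lp k h1 h2 hk hst => exact .lp k h1 h2 hk ⟨hst.1, by have := hst.2; omega⟩
    | w1 h hG hph => exact .w1 h hG (by omega)
    | w2 h hG hph => exact .w2 h hG (by omega)
    | w3 h hG hph => exact .w3 h hG (by omega)
    | w4 h hG hph => exact .w4 h hG (by omega)
    | w5 h hG hph => exact .w5 h hG (by omega)
    | dw _ h h1 h2 hG => exact .dw _ h h1 h2 hG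
    | kk c r d k hc h1 h2 hk he hst =>
      refine .kk c r d k hc h1 h2 hk he ?_
      rcases hst with ⟨h1, h2⟩ | h
      · exact Or.inl ⟨h1, by omega⟩
      · exact Or.inr h
    | jh k h1 h2 hk hst => exact .jh k h1 h2 hk ⟨hst.1, by have := hst.2; omega⟩
    | jn k h1 h2 hk htk hG => exact .jn k h1 h2 hk htk hG
    | gn k h1 h2 hk htk hfr hph => exact .gn k h1 h2 hk htk hfr (by omega)
    | gh k h1 h2 hk hG => exact .gh k h1 h2 hk hG
  refine fast_lane p.Len 0 (t + 1) _ b' (by omega) ?_ hctx.ins2 (Or.inr (Or.inl rfl)) (by omega)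
    (by omega) hm2
  refine ((hFr.mono (fun v h => Or.inr h)).insl ?_).insl (fun h => hm.nZ h.TZ)
  rintro (⟨j, s', h1, h2⟩ | h | h) <;> simp_all

/-- **The fast road, from `y2`.** -/
theorem fast_core {f t : ℕ} {U : Set (Sym2 V)} {b : V} (ht : t ≤ 2) (hctx : p.ctxF U) (hFr : Fr TZ U)
    (hm : p.FM f t U b) : MW p.Adj U y2 b := by
  have hy : ¬ (y2 = u2 ∨ TQ 0 y2) := by
    rintro (h | ⟨j, s', h1, h2⟩ | h | h) <;> simp_all
  have hmm : ¬ (m2 = u2 ∨ TQ 0 m2) := by
    rintro (h | ⟨j, s', h1, h2⟩ | h | h) <;> simp_all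
  by_cases hf : f % 2 = 0
  · -- direct
    refine MW.intro u2 (Or.inl .y2u2) (hFr _ _ (Or.inl rfl) (Or.inr (Or.inr (Or.inl rfl)))) ?_
    intro b' hb hu
    have hm' := hm.step (a := y2) (a' := u2) (by omega) (fun _ => hctx.ins1) ⟨by simp [inC], by simp [inC]⟩
      ⟨by simp [inC], by simp [inC]⟩ hb hu
    refine fast_u2 (by omega) (by omega) hctx.ins2 ?_ hm'
    exact ((hFr.mono (fun v h => Or.inr (Or.inr h))).insl hy).insl
      (fun h => hm.nZ (Or.inr (Or.inr h)))
  · -- via `m2`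
    refine MW.intro m2 (Or.inl .y2m2) (hFr _ _ (Or.inl rfl) (Or.inr (Or.inl rfl))) ?_
    intro b' hb hu
    have hm' := hm.step (a := y2) (a' := m2) (by omega) (fun _ => hctx.ins1) ⟨by simp [inC], by simp [inC]⟩
      ⟨by simp [inC], by simp [inC]⟩ hb hu
    have hFr' : Fr (fun v => v = m2 ∨ v = u2 ∨ TQ 0 v) (insert s(b, b') (insert s(y2, m2) U)) := by
      refine ((hFr.mono (fun v h => Or.inr h)).insl ?_).insl (fun h => hm.nZ (Or.inr h))
      rintro (h | h)
      · simp at h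
      · exact hy h
    refine MW.intro u2 (Or.inl .m2u2) (hFr' _ _ (Or.inl rfl) (Or.inr (Or.inl rfl))) ?_
    intro b'' hb' hu'
    have hm'' := hm'.step (a := m2) (a' := u2) (by omega) (fun _ => hctx.ins2.ins1) ⟨by simp [inC], by simp [inC]⟩
      ⟨by simp [inC], by simp [inC]⟩ hb' hu'
    refine fast_u2 (by omega) (by omega) hctx.ins2.ins2 ?_ hm''
    exact ((hFr'.mono (fun v h => Or.inr h)).insl hmm).insl (fun h => hm'.nZ (Or.inr (Or.inr h)))

end Pool.Agent.H33.TT
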