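import Mathlib
import Pool.Agent.H33.TT.Slow4

/-!
# Paths in the lanes and the state of the formula game
-/

namespace Pool.Agent.H33.TT

open V Cor

variable {p : Par}

/-- The number of gadgets entered when the position is `i`. -/
def Par.D (p : Par) (i : ℕ) : ℕ := i / p.P + (if p.inn i then 1 else 0)

/-- Choice of the side `s` when leaving the position `i`. -/
def Par.upd (p : Par) (xs : ℕ → Bool) (i : ℕ) (s : Bool) : ℕ → Bool :=
  if i % p.P = p.sg then Function.update xs (i / p.P) s else xs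

lemma Par.rep (p : Par) (i : ℕ) : ∃ n k, i = n * p.P + k ∧ k < p.P :=
  ⟨i / p.P, i % p.P, by have := Nat.div_add_mod i p.P; rw [mul_comm]; omega,
    Nat.mod_lt _ p.P_pos⟩

lemma Par.inn_rep {n k : ℕ} (hk : k < p.P) : p.inn (n * p.P + k) ↔ p.sg < k := by
  unfold Par.inn; rw [p.mod_of hk]

lemma Par.D_rep {n k : ℕ} (hk : k < p.P) :
    p.D (n * p.P + k) = n + (if p.sg < k then 1 else 0) := by
  unfold Par.D
  simp only [p.inn_rep hk, p.div_of hk]

lemma Par.D_succ_eq {i : ℕ} (h : i % p.P = p.sg) : p.D i = i / p.P ∧ p.D (i + 1) = p.D i + 1 := by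
  obtain ⟨n, k, rfl, hk⟩ := p.rep i
  rw [p.mod_of hk] at h
  subst h
  have hP := p.hP'
  rw [p.D_rep hk, p.div_of hk]
  refine ⟨by simp, ?_⟩
  by_cases h : p.sg + 1 < p.P
  · rw [Nat.add_assoc, p.D_rep h]
    simp
  · have e : n * p.P + p.sg + 1 = (n + 1) * p.P + 0 := by
      have : (n + 1) * p.P = n * p.P + p.P := by ring
      omega
    rw [e, p.D_rep p.P_pos]
    simp

lemma Par.D_succ_ne {i : ℕ} (h : i % p.P ≠ p.sg) : p.D (i + 1) = p.D i := by
  obtain ⟨n, k, rfl, hk⟩ := p.rep i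
  rw [p.mod_of hk] at h
  have hP := p.hP'
  rw [p.D_rep hk]
  by_cases h2 : k + 1 < p.P
  · rw [Nat.add_assoc, p.D_rep h2]
    split_ifs <;> omega
  · have e : n * p.P + k + 1 = (n + 1) * p.P + 0 := by
      have : (n + 1) * p.P = n * p.P + p.P := by ring
      omega
    rw [e, p.D_rep p.P_pos]
    split_ifs <;> omega

lemma Par.lp_upd {l : Bool} {xs : ℕ → Bool} {i j : ℕ} {s : Bool} (hj : j ≤ i) :
    p.lp l (p.upd xs i s) j = p.lp l xs j := by
  unfold Par.lp Par.upd
  split_ifs with h1 h2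
  · congr 1
    apply Function.update_of_ne
    intro h
    obtain ⟨n, k, rfl, hk⟩ := p.rep i
    obtain ⟨n', k', rfl, hk'⟩ := p.rep j
    rw [p.div_of hk, p.div_of hk'] at h
    rw [p.mod_of hk] at h2
    rw [p.inn_rep hk'] at h1
    subst h h2
    omega
  · rfl
  · rfl

lemma Par.le_upd {l : Bool} {xs : ℕ → Bool} {i j : ℕ} {s : Bool} (hj : j < i) :
    p.le l (p.upd xs i s) j = p.le l xs j := by
  unfold Par.le
  rw [p.lp_upd (by omega), p.lp_upd (by omega)]

/-- A forward move in the lane. -/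
lemma Par.lp_next {l : Bool} {xs : ℕ → Bool} {i : ℕ} {s : Bool} (hok : p.ok (i + 1) s)
    (h : p.inn i → p.inn (i + 1) → (if p.inn i then xs (i / p.P) else false) = s) :
    ln l (i + 1) s = p.lp l (p.upd xs i s) (i + 1) := by
  unfold Par.lp
  congr 1
  by_cases h1 : p.inn (i + 1)
  · rw [if_pos h1]
    obtain ⟨n, k, rfl, hk⟩ := p.rep i
    have hP := p.hP'
    have h2 : k + 1 < p.P := by
      by_contra h3
      have e : n * p.P + k + 1 = (n + 1) * p.P + 0 := by
        have : (n + 1) * p.P = n * p.P + p.P := by ring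
        omega
      rw [e, p.inn_rep p.P_pos] at h1
      omega
    have hd : (n * p.P + k + 1) / p.P = n := by rw [Nat.add_assoc, p.div_of h2]
    rw [hd]
    rw [Nat.add_assoc, p.inn_rep h2] at h1
    unfold Par.upd
    rw [p.mod_of hk, p.div_of hk]
    by_cases h4 : k = p.sg
    · rw [if_pos h4]; simp
    · rw [if_neg h4]
      have h5 : p.inn (n * p.P + k) := (p.inn_rep hk).2 (by omega)
      have h6 : p.inn (n * p.P + k + 1) := by rw [Nat.add_assoc, p.inn_rep h2]; exact h1
      have := h h5 h6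
      rw [if_pos h5, p.div_of hk] at this
      exact this.symm
  · rw [if_neg h1]
    rcases hok with h2 | h2
    · exact h2
    · exact absurd h2 h1

/-- A backward move in the lane. -/
lemma Par.lp_prev {l : Bool} {xs : ℕ → Bool} {i : ℕ} {s : Bool} (hok : p.ok i s)
    (h : p.inn i → p.inn (i + 1) → s = (if p.inn (i + 1) then xs ((i + 1) / p.P) else false)) :
    ln l i s = p.lp l xs i ∨ (p.inn i ∧ ¬ p.inn (i + 1) ∧ s = !xs (i / p.P)) := by
  unfold Par.lp
  by_cases h1 : p.inn i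
  · rw [if_pos h1]
    by_cases h2 : p.inn (i + 1)
    · left
      have := h h1 h2
      rw [if_pos h2, ← p.inn_div h1 h2] at this
      rw [this]
    · by_cases h3 : s = xs (i / p.P)
      · left; rw [h3]
      · right
        exact ⟨h1, h2, by cases s <;> cases h4 : xs (i / p.P) <;> simp_all⟩
  · left
    rw [if_neg h1]
    rcases hok with h2 | h2
    · rw [h2]
    · exact absurd h2 h1

/-! ### The formula game -/

/-- The state of the formula game, the first player being at the position `i1`, the second at the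
position `i2`. -/
def Par.QC (p : Par) (i1 i2 : ℕ) (xs ys : ℕ → Bool) : Prop :=
  (p.D i1 = p.D i2 ∧ p.D i2 ≤ p.N ∧ p.QT (p.N - p.D i2) (p.D i2) xs ys) ∨
  (p.D i1 = p.D i2 + 1 ∧ p.D i2 < p.N ∧
    ∀ b, p.QT (p.N - (p.D i2 + 1)) (p.D i2 + 1) xs (Function.update ys (p.D i2) b))

lemma Par.QC.init (h : p.truth) : p.QC (2 * p.M + 5) 0 (fun _ => false) (fun _ => false) := by
  have hP := p.hP'
  have hsg := p.hsg
  have h1 : p.D (0 * p.P + (2 * p.M + 5)) = 0 := by
    rw [p.D_rep (by omega), if_neg (by omega)]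
  have h2 : p.D (0 * p.P + 0) = 0 := by
    rw [p.D_rep (by omega), if_neg (by omega)]
  simp only [zero_mul, zero_add] at h1 h2
  left
  rw [h1, h2]
  exact ⟨rfl, by omega, h⟩

lemma Par.QC.stepA {i1 i2 : ℕ} {xs ys : ℕ → Bool} (h : p.QC i1 i2 xs ys) (hi : i1 = i2 + (2 * p.M + 5))
    (hi1 : i1 < p.Len) : ∃ a, p.QC (i1 + 1) i2 (p.upd xs i1 a) ys := by
  have hP := p.hP'
  have hsg := p.hsg
  by_cases hd : i1 % p.P = p.sg
  · obtain ⟨d1, d2⟩ := p.D_succ_eq hd
    obtain ⟨n, k, hi1r, hk⟩ := p.rep i1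
    rw [hi1r, p.mod_of hk] at hd
    subst hd
    have hi2 : i2 = n * p.P + 4 := by omega
    have hD2 : p.D i2 = n := by
      rw [hi2, p.D_rep (by omega), if_neg (by omega)]; rfl
    have hD1 : p.D i1 = n := by
      rw [hi1r, p.D_rep hk]; simp
    have hnN : n < p.N := by
      have h1 := p.hLen
      by_contra h2
      have : p.N * p.P ≤ n * p.P := Nat.mul_le_mul_right _ (by omega)
      omega
    rcases h with ⟨h1, h2, h3⟩ | ⟨h1, _⟩
    · rw [hD2] at h3
      obtain ⟨m, hm⟩ : ∃ m, p.N - n = m + 1 := ⟨p.N - n - 1, by omega⟩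
      rw [hm] at h3
      obtain ⟨a, ha⟩ := h3
      refine ⟨a, Or.inr ⟨by omega, by omega, ?_⟩⟩
      intro b
      have := ha b
      rw [hD2, show p.N - (n + 1) = m by omega]
      unfold Par.upd
      rw [hi1r, p.mod_of hk, if_pos rfl, p.div_of hk]
      exact this
    · omega
  · refine ⟨false, ?_⟩
    have d := p.D_succ_ne hd
    unfold Par.QC Par.upd
    rw [if_neg hd, d]
    exact h

lemma Par.QC.stepB {i1 i2 : ℕ} {xs ys : ℕ → Bool} (h : p.QC (i1 + 1) i2 xs ys)
    (hi : i1 = i2 + (2 * p.M + 5)) (s : Bool) : p.QC (i1 + 1) (i2 + 1) xs (p.upd ys i2 s) := by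
  have hP := p.hP'
  have hsg := p.hsg
  by_cases hd : i2 % p.P = p.sg
  · obtain ⟨d1, d2⟩ := p.D_succ_eq hd
    obtain ⟨n, k, hi2r, hk⟩ := p.rep i2
    rw [hi2r, p.mod_of hk] at hd
    subst hd
    have hi1 : i1 + 1 = (n + 1) * p.P + 5 := by
      have : (n + 1) * p.P = n * p.P + p.P := by ring
      omega
    have hD2 : p.D i2 = n := by
      rw [hi2r, p.D_rep hk]; simp
    have hD1 : p.D (i1 + 1) = n + 1 := by
      rw [hi1, p.D_rep (by omega), if_neg (by omega)]
    rcases h with ⟨h1, _⟩ | ⟨h1, h2, h3⟩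
    · omega
    · left
      rw [d2]
      refine ⟨by omega, by omega, ?_⟩
      have := h3 s
      unfold Par.upd
      rw [hi2r, p.mod_of hk, if_pos rfl, p.div_of hk]
      rw [hi2r] at hD2 this
      rw [hD2] at this ⊢
      exact this
  · have d := p.D_succ_ne hd
    unfold Par.QC Par.upd
    rw [if_neg hd, d]
    exact h

lemma Par.QC.final {xs ys : ℕ → Bool} (h : p.QC p.Len (p.N * p.P + 4) xs ys) : p.mat xs ys := by
  have hP := p.hP'
  have hsg := p.hsg
  have h1 : p.D (p.N * p.P + 4) = p.N := by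
    rw [p.D_rep (by omega), if_neg (by omega)]; rfl
  have h2 : p.D p.Len = p.N := by
    rw [p.hLen, p.D_rep (by omega), if_neg (by omega)]; rfl
  rcases h with ⟨_, _, h3⟩ | ⟨h3, _⟩
  · rw [h1, Nat.sub_self] at h3
    exact h3
  · omega

end Pool.Agent.H33.TT
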