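import Mathlib
import Pool.Agent.H33.TT.Lane
import Pool.Agent.H33.TT.Fast4

/-!
# Turning round behind a gadget; cutting from `h`
-/

namespace Pool.Agent.H33.TT

open V Cor

variable {p : Par}

/-- Entering a clause corridor from a lane. -/
lemma Par.K_of {l : Bool} {i : ℕ} {s : Bool} {v : V}
    (h : ∃ c r, c < p.M ∧ r < 3 ∧ l = p.lane c r ∧ s = p.sd c r ∧
      ((i = p.ai c r ∧ v = I (K c r) (p.lK - 1)) ∨
       (i = p.ai c r + 1 ∧ v = I (K c (r + 1)) 1))) :
    ∃ c r d, p.vc (K c r) ∧ v = p.cp (K c r) d (p.lK - 1) ∧ ln l i s = p.cp (K c r) d p.lK := by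
  obtain ⟨c, r, hc, hr, rfl, rfl, ⟨rfl, rfl⟩ | ⟨rfl, rfl⟩⟩ := h
  · obtain ⟨h1, h2⟩ := p.I_dst (c := c) (r := r)
    exact ⟨c, r, true, ⟨hc, by omega⟩, h1, by rw [h2]; simp [Par.dst, hr]⟩
  · obtain ⟨h1, h2⟩ := p.I_src (c := c) (r := r + 1)
    exact ⟨c, r + 1, false, ⟨hc, by omega⟩, h1, by rw [h2]; simp [Par.src]⟩

lemma Par.K_ne_Len {i : ℕ} {l : Bool} {s : Bool} {v : V}
    (h : ∃ c r, c < p.M ∧ r < 3 ∧ l = p.lane c r ∧ s = p.sd c r ∧
      ((i = p.ai c r ∧ v = I (K c r) (p.lK - 1)) ∨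
       (i = p.ai c r + 1 ∧ v = I (K c (r + 1)) 1))) : p.inn i := by
  obtain ⟨c, r, hc, hr, _, _, ⟨rfl, _⟩ | ⟨rfl, _⟩⟩ := h
  · exact p.inn_ai hc
  · exact p.inn_ai1 hc

/-- Moves from the path in a lane. -/
lemma Par.lane_moves {l : Bool} {xs : ℕ → Bool} {i : ℕ} {U : Set (Sym2 V)} {v : V}
    (hi : i < p.Len) (hpath : ∀ j, j < i → p.le l xs j ∈ U) (hb : p.Adj (p.lp l xs i) v)
    (hu : s(p.lp l xs i, v) ∉ U) :
    (∃ s, v = p.lp l (p.upd xs i s) (i + 1)) ∨
    (∃ j, i = j + 1 ∧ p.inn j ∧ ¬ p.inn i ∧ v = ln l j (!xs (j / p.P))) ∨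
    (i = 0 ∧ ((l = true ∧ v = I lam (p.la - 1)) ∨
      (l = false ∧ (v = u2 ∨ v = I kap (p.ka - 1))))) ∨
    (∃ c r d, p.vc (K c r) ∧ v = p.cp (K c r) d (p.lK - 1) ∧
      p.lp l xs i = p.cp (K c r) d p.lK) := by
  unfold Par.lp at hb hu
  rcases p.nb_ln hb with ⟨s', rfl, h1, h2, h3, h4⟩ | ⟨s', i', rfl, rfl, h1, h2, h3, h4⟩ |
    ⟨h0, _, h1, h⟩ | ⟨h0, _, h1, h⟩ | ⟨h, _⟩ | ⟨h, _⟩ | h
  · left
    exact ⟨s', p.lp_next h3 h4⟩
  · rcases p.lp_prev (xs := xs) h3 h4 with h5 | ⟨h5, h6, h7⟩
    · exfalso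
      apply hu
      rw [h5, Sym2.eq_swap]
      exact hpath i' (by omega)
    · right; left
      exact ⟨i', rfl, h5, h6, by rw [h7]⟩
  · right; right; left
    exact ⟨h0, Or.inl ⟨h1, h⟩⟩
  · right; right; left
    exact ⟨h0, Or.inr ⟨h1, h⟩⟩
  · omega
  · omega
  · right; right; right
    exact p.K_of h

/-- The opponent has turned round behind a gadget of lane `l`. -/
inductive Par.BK (p : Par) (l : Bool) (U : Set (Sym2 V)) : V → Prop
  | mid (n k : ℕ) (s : Bool) (h1 : 1 ≤ k) (h2 : p.sg + k < p.P) (hn : n < p.N)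
      (hf : s(ln l (n * p.P + p.sg + k) s, ln l (n * p.P + p.sg + k + 1)
        (p.nx (n * p.P + p.sg + k) s)) ∈ U)
      (ht : s(ln l (n * p.P + p.sg - 1) false, ln l (n * p.P + p.sg) false) ∈ U)
      (ho : s(ln l (n * p.P + p.sg) false, ln l (n * p.P + p.sg + 1) (!s)) ∈ U) :
      Par.BK p l U (ln l (n * p.P + p.sg + k) s)
  | stk (i : ℕ) (s : Bool) (h : ∀ v, p.Adj (ln l i s) v → s(ln l i s, v) ∈ U) :
      Par.BK p l U (ln l i s)

lemma Par.BK.ln {l : Bool} {U : Set (Sym2 V)} {b : V} (h : p.BK l U b) : ∃ i s, b = V.ln l i s := by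
  cases h with
  | mid n k s => exact ⟨_, _, rfl⟩
  | stk i s h => exact ⟨_, _, rfl⟩

/-- Start of this mode. -/
lemma Par.BK_of {l : Bool} {xs : ℕ → Bool} {j : ℕ} {U : Set (Sym2 V)} {e : Sym2 V}
    (hj : j < p.Len) (hpath : ∀ i, i < j + 1 → p.le l xs i ∈ U) (h1 : p.inn j)
    (h2 : ¬ p.inn (j + 1)) :
    p.BK l (insert s(p.lp l xs (j + 1), V.ln l j (!xs (j / p.P))) (insert e U))
      (V.ln l j (!xs (j / p.P))) := by
  have hP := p.hP'
  have hsg := p.hsg
  obtain ⟨n, k, rfl, hk⟩ := p.rep j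
  have h1' := (p.inn_rep hk).1 h1
  have hnN : n < p.N := by
    have h3 := p.hLen
    by_contra h4
    have : p.N * p.P ≤ n * p.P := Nat.mul_le_mul_right _ (by omega)
    omega
  rw [p.div_of hk]
  have e1 : n * p.P + k = n * p.P + p.sg + (k - p.sg) := by omega
  have a1 : p.le l xs (n * p.P + p.sg - 1) ∈ U := hpath _ (by omega)
  have a2 : p.le l xs (n * p.P + p.sg) ∈ U := hpath _ (by omega)
  have n1 : ¬ p.inn (n * p.P + p.sg - 1) := by
    rw [show n * p.P + p.sg - 1 = n * p.P + (p.sg - 1) by omega, p.inn_rep (by omega)]; omega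
  have n2 : ¬ p.inn (n * p.P + p.sg) := by
    rw [p.inn_rep (by omega)]; omega
  have n3 : p.inn (n * p.P + p.sg + 1) := by
    rw [show n * p.P + p.sg + 1 = n * p.P + (p.sg + 1) by omega, p.inn_rep (by omega)]; omega
  have d3 : (n * p.P + p.sg + 1) / p.P = n := by
    rw [show n * p.P + p.sg + 1 = n * p.P + (p.sg + 1) by omega, p.div_of (by omega)]
  unfold Par.le Par.lp at a1 a2
  rw [show n * p.P + p.sg - 1 + 1 = n * p.P + p.sg by omega, if_neg n1, if_neg n2] at a1
  rw [if_neg n2, if_pos n3, d3] at a2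
  have hx : p.lp l xs (n * p.P + k + 1) = V.ln l (n * p.P + k + 1) false := by
    unfold Par.lp; rw [if_neg h2]
  rw [hx]
  have hnx : p.nx (n * p.P + k) (!xs n) = false := by unfold Par.nx; rw [if_neg h2]
  have key := Par.BK.mid (p := p) (l := l) n (k - p.sg) (!xs n)
    (U := insert s(V.ln l (n * p.P + k + 1) false, V.ln l (n * p.P + k) (!xs n)) (insert e U))
    (by omega) (by omega) hnN
  rw [← e1, hnx] at key
  exact key (Or.inl (by rw [Sym2.eq_swap])) (mem3 a1) (mem3 (by rw [Bool.not_not]; exact a2))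

lemma Par.BK.step {l : Bool} {U : Set (Sym2 V)} {b b' : V} {e : Sym2 V} (h : p.BK l U b)
    (hb : p.Adj b b') (hu : s(b, b') ∉ insert e U) :
    p.BK l (insert s(b, b') (insert e U)) b' ∨
    (∃ c r d, p.vc (K c r) ∧ b' = p.cp (K c r) d (p.lK - 1) ∧
      p.ce (K c r) d (p.lK - 1) ∈ insert s(b, b') (insert e U)) := by
  have hu' : s(b, b') ∉ U := fun h => hu (Or.inr h)
  have hP := p.hP'
  have hsg := p.hsg
  have hlK := p.hK
  cases h with
  | stk i s h => exact absurd (h _ hb) hu'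
  | mid n k s h1 h2 hn hf ht ho =>
    have hin : p.inn (n * p.P + p.sg + k) := by
      rw [Nat.add_assoc, p.inn_rep (by omega)]; omega
    rcases p.nb_ln hb with ⟨s', rfl, h3, h4, h5, h6⟩ | ⟨s', i', hi', rfl, h3, h4, h5, h6⟩ |
      ⟨h0, _⟩ | ⟨h0, _⟩ | ⟨h, _⟩ | ⟨h, _⟩ | h
    · exfalso
      apply hu'
      have : s' = p.nx (n * p.P + p.sg + k) s := by
        unfold Par.nx
        by_cases h7 : p.inn (n * p.P + p.sg + k + 1)
        · rw [if_pos h7]; exact (h6 hin h7).symm
        · rw [if_neg h7]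
          rcases h5 with h8 | h8
          · exact h8
          · exact absurd h8 h7
      rw [this]; exact hf
    · left
      by_cases hk : k = 1
      · subst hk
        have hi : i' = n * p.P + p.sg := by omega
        subst hi
        have hni : ¬ p.inn (n * p.P + p.sg) := by rw [p.inn_rep (by omega)]; omega
        have hs' : s' = false := by
          rcases h5 with h8 | h8
          · exact h8
          · exact absurd h8 hni
        subst hs'
        refine .stk _ _ (fun v hv => ?_)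
        rcases p.nb_ln hv with ⟨s2, rfl, _⟩ | ⟨s2, i2, hi2, rfl, _, _, h9, _⟩ |
          ⟨h0, _⟩ | ⟨h0, _⟩ | ⟨h, _⟩ | ⟨h, _⟩ | h
        · by_cases h8 : s2 = s
          · subst h8
            left; rw [Sym2.eq_swap]
          · have : s2 = !s := Bool.eq_not.2 h8
            subst this
            exact mem3 ho
        · have hi3 : i2 = n * p.P + p.sg - 1 := by omega
          have hn2 : ¬ p.inn i2 := by
            rw [hi3, show n * p.P + p.sg - 1 = n * p.P + (p.sg - 1) by omega,
              p.inn_rep (by omega)]; omega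
          have hs2 : s2 = false := by
            rcases h9 with h8 | h8
            · exact h8
            · exact absurd h8 hn2
          subst hs2
          rw [hi3]
          exact mem3 (by rw [Sym2.eq_swap]; exact ht)
        · omega
        · omega
        · exfalso
          have h3 := p.hLen
          have : (n + 1) * p.P ≤ p.N * p.P := Nat.mul_le_mul_right _ hn
          have h4 : (n + 1) * p.P = n * p.P + p.P := by ring
          omega
        · exfalso
          have h3 := p.hLen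
          have : (n + 1) * p.P ≤ p.N * p.P := Nat.mul_le_mul_right _ hn
          have h4 : (n + 1) * p.P = n * p.P + p.P := by ring
          omega
        · exact absurd (p.K_ne_Len h) hni
      · have hi : i' = n * p.P + p.sg + (k - 1) := by omega
        have hni : p.inn i' := by rw [hi, Nat.add_assoc, p.inn_rep (by omega)]; omega
        have hs' : s' = s := h6 hni hin
        subst hs'
        have hnx : p.nx i' s' = s' := by
          unfold Par.nx
          rw [if_pos]
          rw [← hi']; exact hin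
        have key := Par.BK.mid (p := p) (l := l) n (k - 1) s'
          (U := insert s(V.ln l (n * p.P + p.sg + k) s', V.ln l i' s') (insert e U))
          (by omega) (by omega) hn
        rw [← hi, hnx, ← hi'] at key
        exact key (Or.inl (by rw [Sym2.eq_swap])) (mem3 ht) (mem3 ho)
    · omega
    · omega
    · rw [h] at hin; exact absurd hin p.not_inn_Len
    · rw [h] at hin; exact absurd hin p.not_inn_Len
    · right
      obtain ⟨c, r, d, hc, h1, h2⟩ := p.K_of h
      refine ⟨c, r, d, hc, h1, Or.inl ?_⟩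
      rw [Par.ce, show p.lK - 1 + 1 = p.lK by omega, ← h1, ← h2, Sym2.eq_swap]

/-- **The run from `n2` through `G`** after a cut. -/
theorem cut_n2 {U : Set (Sym2 V)} {b : V} (hG : p.cfree G U) (hE : p.endE ∈ U)
    (h0 : p.ce J true 0 ∈ U) (h1 : p.ce J false 0 ∈ U) (b1 : b ≠ n2)
    (b2 : b ≠ ln true p.Len false) (b3 : ¬ inC J b) (b4 : ¬ inC G b) : MW p.Adj U n2 b := by
  have hlG : p.len G = p.lG := rfl
  have hGG := p.hG
  rw [← p.cp_Gf0]
  refine gfinal false p.lG le_rfl (fun i U b => b ≠ ln true p.Len false ∧ ¬ inC J b ∧ ¬ inC G b ∧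
    p.endE ∈ U ∧ p.ce J true 0 ∈ U ∧ p.ce J false 0 ∈ U ∧ (b = n2 → p.ce G false 0 ∈ U) ∧
    (1 ≤ i → p.ce G false 0 ∈ U)) ?_ 0 U _ (by omega) ?_ ?_
  · rintro i U b b' ⟨m1, m2, m3, m4, m5, m6, m7, m8⟩ hi hb hu hf
    left
    have hb'J : ¬ inC J b' := by
      intro h
      rcases p.nb_inJ hb h m2 with ⟨h1, _⟩ | ⟨h1, h2⟩
      · exact m1 h1
      · subst h1 h2
        exact hu (Or.inr (p.ceJf0 ▸ m6))
    have hb'G : ¬ inC G b' := by
      intro h
      rcases p.nb_inG hb h m3 with ⟨h1, _⟩ | ⟨h1, h2⟩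
      · exact m1 h1
      · subst h1 h2
        exact hu (Or.inr (p.ceGf0 ▸ m7 rfl))
    refine ⟨m3, hb'G, ?_, hb'J, hb'G, mem3 m4, mem3 m5, mem3 m6, ?_, ?_⟩
    · intro h
      subst h
      rcases p.nb_h' m4 hb (fun h => hu (Or.inr h)) with h | h
      · exact m2 h
      · exact m3 h
    · intro _
      rcases Nat.eq_zero_or_pos i with rfl | h0
      · exact Or.inr (Or.inl rfl)
      · exact mem3 (m8 h0)
    · intro _
      rcases Nat.eq_zero_or_pos i with rfl | h0
      · exact Or.inr (Or.inl rfl)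
      · exact mem3 (m8 h0)
  · intro j _ hj hmem
    exact p.cfree_rev hG false (by omega) hmem
  · exact ⟨b2, b3, b4, hE, h0, h1, fun h => absurd h b1, by omega⟩

/-- **The cut**, general form. -/
theorem cutJ (Md : ℕ → Set (Sym2 V) → V → Prop)
    (hcl : ∀ i U b b', i < p.lJ → Md i U b → p.Adj b b' → s(b, b') ∉ insert (p.ce J true i) U →
      Md (i + 1) (insert s(b, b') (insert (p.ce J true i) U)) b')
    (hnb : ∀ i U b, i ≤ p.lJ → Md i U b → b ≠ n2 ∧ b ≠ ln true p.Len false ∧ ¬ inC J b ∧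
      ¬ inC G b) :
    ∀ (n i : ℕ) (U : Set (Sym2 V)) (b : V), i + n = p.lJ →
      (∀ j, i ≤ j → j < p.lJ → p.ce J true j ∉ U) →
      (1 ≤ i → p.ce J true 0 ∈ U ∧ p.ce J true (i - 1) ∈ U) → p.cfree G U → p.endE ∈ U →
      Md i U b → MW p.Adj U (p.cp J true i) b := by
  have hlJ : p.len J = p.lJ := rfl
  have hlG : p.len G = p.lG := rfl
  have hJge := p.len_ge J
  intro n
  induction n with
  | zero =>
    intro i U b hin hfr hi1 hG hE hm
    have hi : i = p.lJ := by omega
    subst hi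
    rw [p.cp_Jl]
    obtain ⟨b1, b2, b3, b4⟩ := hnb _ _ _ le_rfl hm
    have h1 := hi1 (by omega)
    have e1 : p.ce J false 0 = p.ce J true (p.lJ - 1) := by
      rw [show (false : Bool) = !true from rfl, p.ce_rev (by omega)]; congr 1
    exact cut_n2 hG hE h1.1 (e1 ▸ h1.2) b1 b2 b3 b4
  | succ n ih =>
    intro i U b hin hfr hi1 hG hE hm
    obtain ⟨b1, b2, b3, b4⟩ := hnb _ _ _ (by omega) hm
    refine MW.intro (p.cp J true (i + 1)) (p.cp_adj (c := J) trivial true (by omega))
      (hfr i le_rfl (by omega)) ?_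
    intro b' hb hu
    have hm' := hcl i U b b' (by omega) hm hb hu
    obtain ⟨c1, c2, c3, c4⟩ := hnb _ _ _ (by omega) hm'
    refine ih (i + 1) _ b' (by omega) ?_ ?_ ?_ (mem3 hE) hm'
    · intro j hj1 hj2 hmem
      rcases hmem with hmem | hmem | hmem
      · exact p.ne_ce (c := J) (by omega) b3 c3 hmem.symm
      · have := p.ce_inj (c := J) (d := true) (i := j) (j := i) (by omega) (by omega) hmem
        omega
      · exact hfr j (by omega) hj2 hmem
    · intro _
      refine ⟨?_, ?_⟩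
      · rcases Nat.eq_zero_or_pos i with rfl | h0
        · exact Or.inr (Or.inl rfl)
        · exact mem3 (hi1 h0).1
      · rw [Nat.add_sub_cancel]
        exact Or.inr (Or.inl rfl)
    · refine (hG.ins ?_).ins ?_
      · intro k hk h
        exact p.ce_ne (c := J) (c' := G) (by omega) hk (by simp) h
      · intro k hk
        exact p.ne_ce hk b4 c4

/-- The cut, when the opponent has turned round. -/
theorem cut_bk {U : Set (Sym2 V)} {b : V} (hJG : p.JG U) (hE : p.endE ∈ U)
    (hm : p.BK false U b) : MW p.Adj U (ln true p.Len false) b := by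
  have hlJ : p.len J = p.lJ := rfl
  have hlK := p.hK
  rw [← p.cp_J0]
  refine cutJ (fun i U b => p.BK false U b ∨ ∃ c r d k, p.vc (K c r) ∧ 1 ≤ k ∧ k < p.lK ∧
    p.lK ≤ k + i + 1 ∧ b = p.cp (K c r) d k ∧ p.ce (K c r) d k ∈ U) ?_ ?_ p.lJ 0 U b (by omega)
    (fun j _ hj => hJG.1 j (by omega)) (by omega) hJG.2 hE (Or.inl hm)
  · rintro i U b b' hi (hm | ⟨c, r, d, k, hc, h1, h2, h3, rfl, h4⟩) hb hu
    · rcases hm.step hb hu with h | ⟨c, r, d, hc, h1, h2⟩
      · exact Or.inl h
      · exact Or.inr ⟨c, r, d, p.lK - 1, hc, by omega, by omega, by omega, h1, h2⟩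
    · have := p.cp_fwd (c := K c r) h1 h2 (Or.inr h4) hb hu
      subst this
      exact Or.inr ⟨c, r, d, k - 1, hc, by omega, by omega, by omega, rfl, p.ce_new h1⟩
  · rintro i U b hi (hm | ⟨c, r, d, k, hc, h1, h2, h3, rfl, h4⟩)
    · obtain ⟨i, s, rfl⟩ := hm.ln
      simp [inC]
    · rw [p.cp_mid (c := K c r) h1 h2]
      simp [inC]

/-- The slow road in the lane, when the opponent has turned round. -/
theorem bk_lane : ∀ (n i : ℕ) (s : Bool) (t : ℕ) (U : Set (Sym2 V)) (b : V), i + n = p.Len →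
    p.ok i s → Fr (lnS true i) U → p.ctx U → s(u1, I lam 1) ∈ U → (i = p.Len → p.endE ∈ U) →
    p.la + i + 2 ≤ t → t ≤ p.la + i + 5 → p.JG U → p.BK false U b →
    MW p.Adj U (ln true i s) b := by
  have hlK := p.hK
  intro n
  induction n with
  | zero =>
    intro i s t U b hin hs hFr hctx hL hE ht1 ht2 hJG hm
    have hi : i = p.Len := by omega
    subst hi
    have hs' : s = false := by
      rcases hs with h | h
      · exact h
      · exact absurd h p.not_inn_Len
    subst hs'
    exact cut_bk hJG (hE rfl) hm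
  | succ n ih =>
    intro i s t U b hin hs hFr hctx hL hE ht1 ht2 hJG hm
    obtain ⟨hadj, hok⟩ := p.nx_adj (l := true) (i := i) (by omega) hs
    refine MW.intro _ hadj (hFr _ _ ⟨i, s, le_rfl, rfl⟩ ⟨i + 1, _, by omega, rfl⟩) ?_
    intro b' hb hu
    obtain ⟨i0, s0, hb0⟩ := hm.ln
    have hFr' : Fr (lnS true (i + 1))
        (insert s(b, b') (insert s(ln true i s, ln true (i + 1) (p.nx i s)) U)) := by
      refine ((hFr.mono ?_).insl ?_).insl ?_
      · rintro v ⟨j, s', h1, h2⟩; exact ⟨j, s', by omega, h2⟩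
      · rintro ⟨j, s', h1, h2⟩
        have := (V.ln.inj h2).2.1
        omega
      · rintro ⟨j, s', _, h2⟩
        rw [hb0] at h2
        simp at h2
    have hE' : i + 1 = p.Len → p.endE ∈
        insert s(b, b') (insert s(ln true i s, ln true (i + 1) (p.nx i s)) U) := by
      intro hi
      have hs' : s = false := by
        rcases hs with h | h
        · exact h
        · have : i = p.Len - 1 := by omega
          rw [this] at h
          exact absurd h p.not_inn_Len1
      have hn : p.nx i s = false := by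
        unfold Par.nx
        rw [hs']; simp
      right; left
      rw [hn, hs', hi, Par.endE, show p.Len - 1 = i by omega]
    have hJG1 := hJG.ins (nJG_ln true i s) (nJG_ln true (i + 1) (p.nx i s))
    rcases hm.step hb hu with h | ⟨c, r, d, hc, h1, h2⟩
    · obtain ⟨i1, s1, hb1⟩ := h.ln
      refine ih (i + 1) _ (t + 1) _ b' (by omega) hok hFr' hctx.ins2 (mem3 hL) hE' (by omega)
        (by omega) ?_ h
      rw [hb0, hb1]
      exact hJG1.ins (nJG_ln _ _ _) (nJG_ln _ _ _)
    · have hJG' : p.JG (insert s(b, b')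
          (insert s(ln true i s, ln true (i + 1) (p.nx i s)) U)) := by
        refine hJG1.ins ?_ ?_
        · rw [hb0]; exact nJG_ln _ _ _
        · rw [h1]; exact p.cp_nJG_K (by omega) (by omega)
      have hsm : p.SM (i + 1) (t + 1) (insert s(b, b')
          (insert s(ln true i s, ln true (i + 1) (p.nx i s)) U)) b' := by
        right
        rw [h1] at h2 hJG' ⊢
        exact .ink c r d (p.lK - 1) hc (by omega) (by omega) h2 (by omega) (Or.inl hJG')
      exact slow_lane n (i + 1) _ (t + 1) _ b' (by omega) hok hFr' hctx.ins2 (mem3 hL) hE'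
        (by omega) (by omega) hsm

end Pool.Agent.H33.TT
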