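import Mathlib
import Pool.Agent.H33.TT.Back

/-!
# The normal play, true formula: the final run through `G`
-/

namespace Pool.Agent.H33.TT

open V Cor

variable {p : Par}

/-- The choices in the lane `l`. -/
def zs (xs ys : ℕ → Bool) (l : Bool) : ℕ → Bool := if l then xs else ys

/-- The literal `r` of the clause path `c` is open. -/
def Par.opn (p : Par) (xs ys : ℕ → Bool) (c r : ℕ) : Prop :=
  zs xs ys (p.lane c r) (p.st c r) ≠ p.sd c r

/-- The used paths in the lanes. -/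
def Par.BR (p : Par) (xs ys : ℕ → Bool) (j : ℕ) (U : Set (Sym2 V)) : Prop :=
  (∀ i, i < p.Len → p.le true xs i ∈ U) ∧ ∀ i, i < j → p.le false ys i ∈ U

lemma Par.BR.all {xs ys : ℕ → Bool} {U : Set (Sym2 V)} (h : p.BR xs ys p.Len U) (l : Bool) {i : ℕ}
    (hi : i < p.Len) : p.le l (zs xs ys l) i ∈ U := by
  cases l
  · exact h.2 i hi
  · exact h.1 i hi

lemma Par.BR.ins2 {xs ys : ℕ → Bool} {j : ℕ} {U : Set (Sym2 V)} {e e' : Sym2 V}
    (h : p.BR xs ys j U) : p.BR xs ys j (insert e (insert e' U)) :=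
  ⟨fun i hi => mem3 (h.1 i hi), fun i hi => mem3 (h.2 i hi)⟩

/-- Forward edges from the used path. -/
lemma Par.used_fwd {l : Bool} {z : ℕ → Bool} {j : ℕ} {s' : Bool} {U : Set (Sym2 V)}
    (hB : p.le l z j ∈ U) (hok : p.ok (j + 1) s')
    (h : p.inn j → p.inn (j + 1) → (if p.inn j then z (j / p.P) else false) = s')
    (hns : p.inn (j + 1) → p.inn j) : s(p.lp l z j, ln l (j + 1) s') ∈ U := by
  have : ln l (j + 1) s' = p.lp l z (j + 1) := by
    unfold Par.lp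
    congr 1
    by_cases h1 : p.inn (j + 1)
    · have h2 := hns h1
      rw [if_pos h1, ← p.inn_div h2 h1]
      rw [if_pos h2] at h
      exact (h h2 h1).symm
    · rw [if_neg h1]
      rcases hok with h2 | h2
      · exact h2
      · exact absurd h2 h1
  rw [this]; exact hB

/-- Backward edges from the used path. -/
lemma Par.used_bwd {l : Bool} {z : ℕ → Bool} {j : ℕ} {s' : Bool} {U : Set (Sym2 V)}
    (hB : p.le l z j ∈ U) (hok : p.ok j s')
    (h : p.inn j → p.inn (j + 1) → s' = (if p.inn (j + 1) then z ((j + 1) / p.P) else false))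
    (hns : p.inn j → p.inn (j + 1)) : s(p.lp l z (j + 1), ln l j s') ∈ U := by
  rcases p.lp_prev (l := l) hok h with h1 | ⟨h1, h2, _⟩
  · rw [h1, Sym2.eq_swap]; exact hB
  · exact absurd (hns h1) h2

/-- Modes of the opponent during the final run. -/
inductive Par.NF (p : Par) (xs ys : ℕ → Bool) (i : ℕ) (U : Set (Sym2 V)) : V → Prop
  | T (j : ℕ) (h1 : p.N * p.P + 4 ≤ j) (h2 : j ≤ p.Len) (hb : p.BR xs ys j U)
      (hph : (j + i) % 2 = 0) : Par.NF p xs ys i U (ln false j false)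
  | kk (c r : ℕ) (d : Bool) (k : ℕ) (hc : c < p.M) (hr : r ≤ 2) (h1 : 1 ≤ k) (h2 : k < p.lK)
      (hk : p.ce (K c r) d k ∈ U) (ho : ∀ r', r' < r → p.opn xs ys c r')
      (hb : p.BR xs ys p.Len U) (hph : (col (p.cp (K c r) d k) + i) % 2 = 0) :
      Par.NF p xs ys i U (p.cp (K c r) d k)
  | S (c r j : ℕ) (hc : c < p.M) (hr : r ≤ 1) (hj : p.inn j) (hj2 : j / p.P = p.st c r)
      (ho : ∀ r', r' ≤ r → p.opn xs ys c r') (hb : p.BR xs ys p.Len U)
      (hph : (j + i) % 2 = 0) : Par.NF p xs ys i U (ln (p.lane c r) j (p.sd c r))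
  | N1 (h : s(ln false p.Len false, n1) ∈ U) (hph : i % 2 = 0) : Par.NF p xs ys i U n1
  | N2 (h' : s(n1, n2) ∈ U) (hph : (1 + i) % 2 = 0) : Par.NF p xs ys i U n2
  | JH (k : ℕ) (h1 : 1 ≤ k) (h2 : k < p.lJ) (hk : p.ce J true k ∈ U) :
      Par.NF p xs ys i U (p.cp J true k)
  | dd (b : V) (h1 : s(ln false p.Len false, n1) ∈ U) (h2 : s(R, n1) ∈ U)
      (b1 : b ≠ n1) (b2 : b ≠ n2) (b3 : b ≠ ln true p.Len false) (b4 : ¬ inC J b)
      (b5 : ¬ inC G b) : Par.NF p xs ys i U b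
  | stk (b : V) (h : ∀ v, p.Adj b v → s(b, v) ∈ U) (b5 : ¬ inC G b) : Par.NF p xs ys i U b

lemma Par.NF.nG {xs ys : ℕ → Bool} {i : ℕ} {U : Set (Sym2 V)} {b : V} (h : p.NF xs ys i U b) :
    ¬ inC G b := by
  cases h with
  | T => simp [inC]
  | kk c r d k hc hr h1 h2 => rw [p.cp_mid (c := K c r) h1 h2]; simp [inC]
  | S => simp [inC]
  | N1 => simp [inC]
  | N2 => simp [inC]
  | JH k h1 h2 => exact p.cp_nG_J h2
  | dd _ _ _ _ _ _ _ b5 => exact b5
  | stk _ _ b5 => exact b5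

/-- Arriving at a used literal vertex. -/
lemma Par.stk_burn {l : Bool} {z : ℕ → Bool} {j : ℕ} {U : Set (Sym2 V)} (hj : p.inn j)
    (hB : ∀ i, i < p.Len → p.le l z i ∈ U)
    (hK : ∀ c r, c < p.M → r < 3 → l = p.lane c r → z (j / p.P) = p.sd c r →
      (j = p.ai c r → s(ln l j (z (j / p.P)), I (K c r) (p.lK - 1)) ∈ U) ∧
      (j = p.ai c r + 1 → s(ln l j (z (j / p.P)), I (K c (r + 1)) 1) ∈ U)) :
    ∀ v, p.Adj (ln l j (z (j / p.P))) v → s(ln l j (z (j / p.P)), v) ∈ U := by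
  have hlp : ln l j (z (j / p.P)) = p.lp l z j := by unfold Par.lp; rw [if_pos hj]
  have h0 : j ≠ 0 := fun h => p.not_inn_zero (h ▸ hj)
  have hL : j ≠ p.Len := fun h => p.not_inn_Len (h ▸ hj)
  intro v hv
  rcases p.nb_ln hv with ⟨s', rfl, h1, h2, h3, h4⟩ | ⟨s', i', rfl, rfl, h1, h2, h3, h4⟩ |
    ⟨h, _⟩ | ⟨h, _⟩ | ⟨h, _⟩ | ⟨h, _⟩ | ⟨c, r, hc, hr, hl, hs, h⟩
  · rw [hlp]
    exact p.used_fwd (hB j h1) h3 (by rw [if_pos hj]; exact h4) (fun _ => hj)
  · rw [hlp]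
    exact p.used_bwd (hB i' (by omega)) h3 (by rw [if_pos hj]; exact h4) (fun _ => hj)
  · exact absurd h h0
  · exact absurd h h0
  · exact absurd h hL
  · exact absurd h hL
  · rcases h with ⟨h1, rfl⟩ | ⟨h1, rfl⟩
    · exact (hK c r hc hr hl hs).1 h1
    · exact (hK c r hc hr hl hs).2 h1

/-- Stuck behind a gadget. -/
lemma Par.stk_t {l : Bool} {z : ℕ → Bool} {j : ℕ} {s : Bool} {U : Set (Sym2 V)}
    (hj : p.inn j) (hj1 : ¬ p.inn (j + 1)) (hjN : j / p.P < p.N)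
    (hB : ∀ i, i < p.Len → p.le l z i ∈ U) (hs : z (j / p.P) ≠ s)
    (hu : s(ln l j s, ln l (j + 1) false) ∈ U) :
    ∀ v, p.Adj (ln l (j + 1) false) v → s(ln l (j + 1) false, v) ∈ U := by
  have hP := p.hP'
  have hsg := p.hsg
  have hLen := p.hLen
  obtain ⟨n, k, rfl, hk⟩ := p.rep j
  rw [p.div_of hk] at hjN hs
  have h1' := (p.inn_rep hk).1 hj
  have hmul : (n + 1) * p.P ≤ p.N * p.P := Nat.mul_le_mul_right _ hjN
  have hmul2 : (n + 1) * p.P = n * p.P + p.P := by ring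
  have hk1 : k + 1 = p.P := by
    by_contra h
    apply hj1
    rw [Nat.add_assoc, p.inn_rep (by omega)]; omega
  have hlp : ln l (n * p.P + k + 1) false = p.lp l z (n * p.P + k + 1) := by
    unfold Par.lp; rw [if_neg hj1]
  have hj2 : ¬ p.inn (n * p.P + k + 1 + 1) := by
    rw [show n * p.P + k + 1 + 1 = (n + 1) * p.P + 1 by omega, p.inn_rep (by omega)]; omega
  intro v hv
  rcases p.nb_ln hv with ⟨s', rfl, h1, h2, h3, h4⟩ | ⟨s', i', hi', rfl, h1, h2, h3, h4⟩ |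
    ⟨h, _⟩ | ⟨h, _⟩ | ⟨h, _⟩ | ⟨h, _⟩ | h
  · rw [hlp]
    exact p.used_fwd (hB _ h1) h3 (fun h => absurd h hj1) (fun h => absurd h hj2)
  · have : i' = n * p.P + k := by omega
    subst this
    by_cases h5 : s' = s
    · subst h5; rw [Sym2.eq_swap]; exact hu
    · have h6 : s' = z n := by
        cases h7 : z n <;> cases h8 : s <;> cases h9 : s' <;> simp_all
      subst h6
      have h7 := hB (n * p.P + k) (by omega)
      unfold Par.le Par.lp at h7
      rw [if_pos hj, if_neg hj1, p.div_of hk] at h7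
      rw [Sym2.eq_swap]; exact h7
  · omega
  · omega
  · omega
  · omega
  · exact absurd (p.K_ne_Len h) hj1

/-- Stuck before a gadget. -/
lemma Par.stk_s {l : Bool} {z : ℕ → Bool} {j : ℕ} {s : Bool} {U : Set (Sym2 V)}
    (hj : ¬ p.inn j) (hj1 : p.inn (j + 1)) (hjN : (j + 1) / p.P < p.N)
    (hB : ∀ i, i < p.Len → p.le l z i ∈ U) (hs : z ((j + 1) / p.P) ≠ s)
    (hu : s(ln l j false, ln l (j + 1) s) ∈ U) :
    ∀ v, p.Adj (ln l j false) v → s(ln l j false, v) ∈ U := by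
  have hP := p.hP'
  have hsg := p.hsg
  have hLen := p.hLen
  obtain ⟨n, k, rfl, hk⟩ := p.rep j
  have hk1 : k + 1 < p.P := by
    by_contra h
    rw [show n * p.P + k + 1 = (n + 1) * p.P + 0 by
      have : (n + 1) * p.P = n * p.P + p.P := by ring
      omega, p.inn_rep p.P_pos] at hj1
    omega
  have h1' : ¬ p.sg < k := fun h => hj ((p.inn_rep hk).2 h)
  rw [Nat.add_assoc, p.div_of hk1] at hjN hs
  have hj1' := hj1
  rw [Nat.add_assoc, p.inn_rep hk1] at hj1'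
  have hmul : (n + 1) * p.P ≤ p.N * p.P := Nat.mul_le_mul_right _ hjN
  have hmul2 : (n + 1) * p.P = n * p.P + p.P := by ring
  have hlp : ln l (n * p.P + k) false = p.lp l z (n * p.P + k) := by
    unfold Par.lp; rw [if_neg hj]
  intro v hv
  rcases p.nb_ln hv with ⟨s', rfl, h1, h2, h3, h4⟩ | ⟨s', i', hi', rfl, h1, h2, h3, h4⟩ |
    ⟨h, _⟩ | ⟨h, _⟩ | ⟨h, _⟩ | ⟨h, _⟩ | h
  · by_cases h5 : s' = s
    · subst h5; exact hu
    · have h6 : s' = z n := by
        cases h7 : z n <;> cases h8 : s <;> cases h9 : s' <;> simp_all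
      subst h6
      have h7 := hB (n * p.P + k) (by omega)
      unfold Par.le Par.lp at h7
      rw [if_neg hj, if_pos hj1, Nat.add_assoc, p.div_of hk1] at h7
      exact h7
  · have hni : ¬ p.inn i' := by
      rw [show i' = n * p.P + (k - 1) by omega, p.inn_rep (by omega)]; omega
    rw [hlp, hi']
    exact p.used_bwd (hB i' (by omega)) h3 (fun h => absurd h hni) (fun h => absurd h hni)
  · omega
  · omega
  · omega
  · omega
  · exact absurd (p.K_ne_Len h) hj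

end Pool.Agent.H33.TT
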