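import Mathlib
import Pool.Agent.H33.TT.Fin1

/-!
# The normal play, true formula: the modes of the final run are closed
-/

namespace Pool.Agent.H33.TT

open V Cor

variable {p : Par}

lemma Par.lit_eq {c c' r r' : ℕ} (h1 : p.lane c r = p.lane c' r') (h2 : p.st c r = p.st c' r')
    (h3 : p.sd c r = p.sd c' r') : p.lit c r = p.lit c' r' := by
  unfold Par.lit; rw [h1, h2, h3]

lemma Par.opn_congr {xs ys : ℕ → Bool} {c c' r r' : ℕ} (h : p.lit c r = p.lit c' r')
    (ho : p.opn xs ys c r) : p.opn xs ys c' r' := by
  unfold Par.lit at h
  have h1 := congrArg Prod.fst h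
  have h2 := congrArg (fun x => x.2.1) h
  have h3 := congrArg (fun x => x.2.2) h
  simp only at h1 h2 h3
  unfold Par.opn at ho ⊢
  rw [← h1, ← h2, ← h3]; exact ho

/-- **Closure of the modes of the final run.** -/
theorem Par.NF.step {xs ys : ℕ → Bool} {i : ℕ} {U : Set (Sym2 V)} {b b' : V} (hT : p.Typed)
    (hmat : p.mat xs ys) (hE : p.endE ∈ U) (hi : i < p.lG) (hg : 1 ≤ i → p.ce G true 0 ∈ U)
    (h : p.NF xs ys i U b) (hb : p.Adj b b')
    (hu : s(b, b') ∉ insert (p.ce G true i) U) :
    p.NF xs ys (i + 1) (insert s(b, b') (insert (p.ce G true i) U)) b' ∨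
    (b = n2 ∧ b' = I G (p.lG - 1) ∧ (p.lG - i) % 2 = 1) := by
  have hu' : s(b, b') ∉ U := fun h => hu (Or.inr h)
  have hP := p.hP'
  have hsg := p.hsg
  have hLenE := p.hLen
  have hlK := p.hK
  have hLen := p.Len_odd
  have hG2 := p.hG2
  have hlJ := p.hJ
  have hNP : (p.N * p.P) % 2 = 0 := by
    have h1 : p.P % 2 = 0 := by have := p.hP; omega
    rw [Nat.mul_mod, h1, mul_zero, Nat.zero_mod]
  -- entering a clause corridor
  have enter : ∀ c r d, c < p.M → r ≤ 2 → (∀ r', r' < r → p.opn xs ys c r') →
      p.BR xs ys p.Len U → b = p.cp (K c r) d p.lK → b' = p.cp (K c r) d (p.lK - 1) →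
      (col b + i) % 2 = 0 →
      p.NF xs ys (i + 1) (insert s(b, b') (insert (p.ce G true i) U)) b' := by
    intro c r d hc hr ho hB h1 h2 hph
    have e1 : p.ce (K c r) d (p.lK - 1) = s(b, b') := by
      rw [Par.ce, show p.lK - 1 + 1 = p.lK by omega, h1, h2, Sym2.eq_swap]
    have hcc := p.col_K_succ (c := c) (r := r) ⟨hc, by omega⟩ (d := d) (k := p.lK - 1) (by omega)
    rw [show p.lK - 1 + 1 = p.lK by omega, ← h1] at hcc
    have hbb : p.ce (K c r) d (p.lK - 1) ∈ insert s(b, b') (insert (p.ce G true i) U) := Or.inl e1
    rw [h2] at hbb ⊢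
    exact .kk c r d (p.lK - 1) hc hr (by omega) (by omega) hbb ho hB.ins2 (by omega)
  cases h with
  | T j h1 h2 hB hph =>
    left
    have hnj : ¬ p.inn j := by
      rw [show j = p.N * p.P + (j - p.N * p.P) by omega, p.inn_rep (by omega)]; omega
    have hlp : p.lp false ys j = ln false j false := by unfold Par.lp; rw [if_neg hnj]
    rcases Nat.lt_or_ge j p.Len with hj | hj
    · have hnj1 : ¬ p.inn (j + 1) := by
        rw [show j + 1 = p.N * p.P + (j + 1 - p.N * p.P) by omega, p.inn_rep (by omega)]; omega
      rw [← hlp] at hb hu hu' ⊢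
      rcases p.lane_moves hj (fun j' hj' => hB.2 j' hj') hb hu' with ⟨s, rfl⟩ |
        ⟨j', hj', h3, _⟩ | ⟨h3, _⟩ | ⟨c, r, d, hc, h3, h4⟩
      · have hus : p.upd ys j s = ys := by
          unfold Par.upd
          rw [if_neg]
          rw [show j = p.N * p.P + (j - p.N * p.P) by omega, p.mod_of (by omega)]; omega
        rw [hus]
        have hlp1 : p.lp false ys (j + 1) = ln false (j + 1) false := by
          unfold Par.lp; rw [if_neg hnj1]
        have hB' : p.BR xs ys (j + 1)
            (insert s(p.lp false ys j, p.lp false ys (j + 1)) (insert (p.ce G true i) U)) := by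
          refine ⟨fun i hi => mem3 (hB.1 i hi), fun i hi => ?_⟩
          by_cases h : i = j
          · subst h; exact Or.inl rfl
          · exact mem3 (hB.2 i (by omega))
        rw [hlp1] at hB' ⊢
        exact .T (j + 1) (by omega) (by omega) hB' (by omega)
      · exfalso
        have : ¬ p.inn j' := by
          rw [show j' = p.N * p.P + (j' - p.N * p.P) by omega, p.inn_rep (by omega)]; omega
        exact this h3
      · omega
      · exfalso
        -- a trunk vertex is not the end of a clause corridor
        rw [hlp] at h4
        have hl : p.lK = p.len (K c r) := rfl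
        rw [hl, Par.cp_len] at h4
        cases d
        · simp only [Par.fin, Bool.not_false, if_true] at h4
          rcases r with _ | r
          · simp only [Par.src] at h4
            have := (V.ln.inj h4).2.1
            omega
          · simp only [Par.src] at h4
            have := (V.ln.inj h4).2.1
            exact hnj (this ▸ p.inn_ai1 hc.1)
        · simp only [Par.fin, Bool.not_true, Bool.false_eq_true, if_false, Par.dst] at h4
          split_ifs at h4 with h5
          have := (V.ln.inj h4).2.1
          exact hnj (this ▸ p.inn_ai hc.1)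
    · have hj' : j = p.Len := by omega
      subst hj'
      rcases p.nb_ln hb with ⟨s', rfl, h3, _⟩ | ⟨s', i', hi', rfl, h3, h4, h5, h6⟩ |
        ⟨h, _⟩ | ⟨h, _⟩ | ⟨_, _, h, _⟩ | ⟨_, _, _, h⟩ | h
      · omega
      · exfalso
        have hni : ¬ p.inn i' := by
          have : i' = p.Len - 1 := by omega
          rw [this]; exact p.not_inn_Len1
        have hs' : s' = false := by
          rcases h5 with h | h
          · exact h
          · exact absurd h hni
        subst hs'
        have h7 := hB.2 i' (by omega)
        unfold Par.le Par.lp at h7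
        rw [if_neg hni, ← hi', if_neg hnj] at h7
        rw [Sym2.eq_swap] at hu'
        exact hu' h7
      · omega
      · omega
      · simp at h
      · rcases h with rfl | ⟨c, hc, rfl⟩
        · exact .N1 (Or.inl rfl) (by omega)
        · obtain ⟨h1, h2⟩ := p.I_src (c := c) (r := 0)
          exact enter c 0 false hc (by omega) (by omega) hB (by rw [h2]; rfl) h1
            (by simpa [col] using hph)
      · exact absurd (p.K_ne_Len h) hnj
  | kk c r d k hc hr h1 h2 hk ho hB hph =>
    left
    have hvc : p.vc (K c r) := ⟨hc, by omega⟩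
    have := p.cp_fwd (c := K c r) h1 h2 (Or.inr hk) hb hu
    subst this
    have hcc := p.col_K_succ hvc (d := d) (k := k - 1) (by omega)
    rw [show k - 1 + 1 = k by omega] at hcc
    have hn := p.ce_new (c := K c r) (d := d) (U := insert (p.ce G true i) U) (k := k) h1
    rcases Nat.lt_or_ge 1 k with h3 | h3
    · exact .kk c r d (k - 1) hc hr (by omega) (by omega) hn ho hB.ins2 (by omega)
    · have : k = 1 := by omega
      subst this
      rw [Nat.sub_self] at hn hcc ⊢
      have hne : p.cp (K c r) d 0 = p.fin (K c r) d := p.cp_zero _ _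
      have hI : p.cp (K c r) d 1 = I (K c r) (if d then 1 else p.lK - 1) := by
        rw [p.cp_mid (c := K c r) le_rfl (by show 1 < p.lK; omega)]; rfl
      have hB' : p.BR xs ys p.Len
          (insert s(p.cp (K c r) d 1, p.cp (K c r) d 0) (insert (p.ce G true i) U)) := hB.ins2
      cases d with
      | true =>
        simp only [Par.fin, if_true] at hne
        rcases r with _ | r
        · rw [hne] at hcc hB' ⊢
          have hcs : col (p.src (K c 0)) = p.Len := rfl
          rw [hcs] at hcc
          exact .T p.Len (by omega) le_rfl hB' (by omega)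
        · rw [hne] at hcc hB' ⊢
          have hcs : col (p.src (K c (r + 1))) = p.ai c r + 1 := rfl
          rw [hcs] at hcc
          exact .S c r _ hc (by omega) (p.inn_ai1 hc) (p.ai1_div hc)
            (fun r' hr' => ho r' (by omega)) hB' (by omega)
      | false =>
        have hne' : p.cp (K c r) false 0 = ln (p.lane c r) (p.ai c r) (p.sd c r) := by
          rw [hne]; simp [Par.fin, Par.dst, show r < 3 by omega]
        by_cases hop : p.opn xs ys c r
        · have hr2 : r ≤ 1 := by
            by_contra hr2
            have hr3 : r = 2 := by omega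
            subst hr3
            obtain ⟨r', hr', he⟩ := hmat c hc
            have : p.opn xs ys c r' := by
              by_cases h : r' = 2
              · subst h; exact hop
              · exact ho r' (by omega)
            unfold Par.opn zs at this
            apply this
            rw [← he]
          rw [hne'] at hcc hB' ⊢
          have hcs : col (ln (p.lane c r) (p.ai c r) (p.sd c r)) = p.ai c r := rfl
          rw [hcs] at hcc
          refine .S c r _ hc hr2 (p.inn_ai hc) (p.ai_div hc) ?_ hB' (by omega)
          intro r' hr'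
          by_cases h : r' = r
          · subst h; exact hop
          · exact ho r' (by omega)
        · have hz : zs xs ys (p.lane c r) (p.ai c r / p.P) = p.sd c r := by
            unfold Par.opn at hop
            rw [p.ai_div hc]
            exact not_not.1 hop
          rw [hne', ← hz, hI]
          rw [hne', ← hz, hI] at hB'
          refine .stk _ (p.stk_burn (p.inn_ai hc) (fun i hi => hB'.all _ hi) ?_) (by simp [inC])
          intro c' r' hc' hr' hl' hs'
          refine ⟨fun ha => ?_, fun ha => ?_⟩
          · have hcc' : c' = c := by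
              have h3 := p.ai_mod (r := r) hc
              have h4 := p.ai_mod (r := r') hc'
              rw [← ha] at h4
              omega
            subst hcc'
            have hst : p.st c' r = p.st c' r' := by
              have h3 := p.ai_div (r := r) hc'
              have h4 := p.ai_div (r := r') hc'
              rw [← ha] at h4
              omega
            have hrr : r = r' := by
              by_contra hne2
              refine hT.ne c' c' r r' hc' hc' (by omega) hr' hne2 (p.lit_eq hl' hst ?_)
              rw [← hz]; exact hs'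
            subst hrr
            left
            rw [Sym2.eq_swap]
            simp
          · exfalso
            have h3 := p.ai_even (c := c) (r := r)
            have h4 := p.ai_even (c := c') (r := r')
            omega
  | S c r j hc hr hj hj2 ho hB hph =>
    left
    have hjN : j / p.P < p.N := by rw [hj2]; exact p.hst c r hc (by omega)
    have hz : zs xs ys (p.lane c r) (j / p.P) ≠ p.sd c r := by
      rw [hj2]; exact ho r le_rfl
    have h0 : j ≠ 0 := fun h => p.not_inn_zero (h ▸ hj)
    have hL : j ≠ p.Len := fun h => p.not_inn_Len (h ▸ hj)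
    have hB' : p.BR xs ys p.Len (insert s(ln (p.lane c r) j (p.sd c r), b')
      (insert (p.ce G true i) U)) := hB.ins2
    rcases p.nb_ln hb with ⟨s', rfl, h1, h2, h3, h4⟩ | ⟨s', i', rfl, rfl, h1, h2, h3, h4⟩ |
      ⟨h, _⟩ | ⟨h, _⟩ | ⟨h, _⟩ | ⟨h, _⟩ | ⟨c', r', hc', hr', hl', hs', h⟩
    · by_cases h5 : p.inn (j + 1)
      · have := h4 hj h5
        subst this
        exact .S c r (j + 1) hc hr h5 (by rw [← p.inn_div hj h5]; exact hj2) ho hB' (by omega)
      · have hs' : s' = false := by
          rcases h3 with h | h
          · exact h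
          · exact absurd h h5
        subst hs'
        exact .stk _ (p.stk_t hj h5 hjN (fun i hi => hB'.all _ hi) hz (Or.inl rfl)) (by simp [inC])
    · by_cases h5 : p.inn i'
      · have := h4 h5 hj
        subst this
        exact .S c r i' hc hr h5 (by rw [p.inn_div h5 hj]; exact hj2) ho hB' (by omega)
      · have hs' : s' = false := by
          rcases h3 with h | h
          · exact h
          · exact absurd h h5
        subst hs'
        exact .stk _ (p.stk_s h5 hj hjN (fun i hi => hB'.all _ hi) hz
          (Or.inl (by rw [Sym2.eq_swap]))) (by simp [inC])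
    · exact absurd h h0
    · exact absurd h h0
    · exact absurd h hL
    · exact absurd h hL
    · have hst : p.st c' r' = j / p.P := by
        rcases h with ⟨h, _⟩ | ⟨h, _⟩
        · rw [h, p.ai_div hc']
        · rw [h, p.ai1_div hc']
      have hlit : p.lit c r = p.lit c' r' := p.lit_eq hl' (by omega) hs'
      have hrr : r = r' := by
        by_contra hne
        exact hT.ne c c' r r' hc hc' (by omega) hr' hne hlit
      subst hrr
      have ho' : ∀ r', r' ≤ r → p.opn xs ys c' r' := by
        rcases Nat.eq_zero_or_pos r with h0 | h0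
        · intro r' hr'
          have : r' = r := by omega
          subst this
          exact p.opn_congr hlit (ho _ le_rfl)
        · have hr1 : r = 1 := by omega
          subst hr1
          have : c = c' := by
            by_contra hne
            exact hT.mid c c' hc hc' hne hlit
          subst this
          exact ho
      rcases h with ⟨rfl, rfl⟩ | ⟨rfl, rfl⟩
      · obtain ⟨h1, h2⟩ := p.I_dst (c := c') (r := r)
        refine enter c' r true hc' (by omega) (fun r' hr' => ho' r' (by omega)) hB ?_ h1
          (by simpa [col] using hph)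
        rw [h2]; simp [Par.dst, show r < 3 by omega, hl', hs']
      · obtain ⟨h1, h2⟩ := p.I_src (c := c') (r := r + 1)
        refine enter c' (r + 1) false hc' (by omega) (fun r' hr' => ho' r' (by omega)) hB ?_ h1
          (by simpa [col] using hph)
        rw [h2]; simp [Par.src, hl', hs']
  | N1 h hph =>
    left
    rcases p.nb_n1 hb with rfl | rfl | rfl
    · rw [Sym2.eq_swap] at hu'; exact absurd h hu'
    · exact .dd _ (mem3 h) (Or.inl (by rw [Sym2.eq_swap])) (by simp) (by simp) (by simp)
        (by simp [inC]) (by simp [inC])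
    · exact .N2 (Or.inl rfl) (by omega)
  | N2 h hph =>
    rcases p.nb_n2 hb with rfl | rfl | rfl
    · rw [Sym2.eq_swap] at hu'; exact absurd h hu'
    · left
      have e1 : I J (p.lJ - 1) = p.cp J true (p.lJ - 1) := by
        rw [p.cp_mid (c := J) (by omega) (by show p.lJ - 1 < p.lJ; omega)]; simp
      have e2 : p.cp J true (p.lJ - 1 + 1) = n2 := by
        rw [show p.lJ - 1 + 1 = p.lJ by omega, p.cp_Jl]
      have hbb : p.ce J true (p.lJ - 1) ∈
          insert s(n2, I J (p.lJ - 1)) (insert (p.ce G true i) U) := by
        left; rw [Par.ce, e2, ← e1, Sym2.eq_swap]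
      rw [e1] at hbb ⊢
      exact .JH (p.lJ - 1) (by omega) (by omega) hbb
    · right
      exact ⟨rfl, rfl, by omega⟩
  | JH k h1 h2 hk =>
    left
    have := p.cp_fwd (c := J) h1 h2 (Or.inr hk) hb hu
    subst this
    have hn := p.ce_new (c := J) (d := true) (U := insert (p.ce G true i) U) (k := k) h1
    rcases Nat.lt_or_ge 1 k with h3 | h3
    · exact .JH (k - 1) (by omega) (by omega) hn
    · have : k = 1 := by omega
      subst this
      rw [Nat.sub_self] at hn ⊢
      rw [p.cp_J0] at hn ⊢
      refine .stk _ (fun v hv => ?_) (by simp [inC])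
      by_contra hc
      rcases p.nb_h (mem3 hE) hv hc with rfl | rfl
      · rw [← p.ceJ0] at hc; exact hc hn
      · rw [← p.ceG0] at hc
        apply hc
        rcases Nat.eq_zero_or_pos i with rfl | h0
        · exact Or.inr (Or.inl rfl)
        · exact mem3 (hg h0)
  | dd _ h1 h2 b1 b2 b3 b4 b5 =>
    left
    refine .dd _ (mem3 h1) (mem3 h2) ?_ ?_ ?_ ?_ ?_
    · rintro rfl
      rcases p.nb_n1 hb.symm with rfl | rfl | rfl
      · exact hu' h1
      · exact hu' h2
      · exact b2 rfl
    · rintro rfl
      rcases p.nb_n2 hb.symm with rfl | rfl | rfl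
      · exact b1 rfl
      · exact b4 ⟨_, rfl⟩
      · exact b5 ⟨_, rfl⟩
    · rintro rfl
      rcases p.nb_h' hE hb hu' with h | h
      · exact b4 h
      · exact b5 h
    · intro h
      rcases p.nb_inJ hb h b4 with ⟨h, _⟩ | ⟨h, _⟩
      · exact b3 h
      · exact b2 h
    · intro h
      rcases p.nb_inG hb h b5 with ⟨h, _⟩ | ⟨h, _⟩
      · exact b3 h
      · exact b2 h
  | stk _ h _ => exact absurd (h _ hb) hu'

/-- **The decision at `h` in the normal play, true formula.** -/
theorem n1_fin {xs ys : ℕ → Bool} {U : Set (Sym2 V)} (hT : p.Typed) (hmat : p.mat xs ys)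
    (hE : p.endE ∈ U) (hG : p.cfree G U) (hB : p.BR xs ys (p.N * p.P + 4) U) :
    MW p.Adj U (ln true p.Len false) (ln false (p.N * p.P + 4) false) := by
  have hGG := p.hG
  have hLenE := p.hLen
  have hsg := p.hsg
  have hNP : (p.N * p.P) % 2 = 0 := by
    have h1 : p.P % 2 = 0 := by have := p.hP; omega
    rw [Nat.mul_mod, h1, mul_zero, Nat.zero_mod]
  rw [← p.cp_G0]
  refine gfinal true p.lG le_rfl (fun i U b => p.endE ∈ U ∧ (1 ≤ i → p.ce G true 0 ∈ U) ∧
    p.NF xs ys i U b) ?_ 0 U _ (by omega) ?_ ⟨hE, by omega, ?_⟩
  · rintro i U b b' ⟨h1, h2, h3⟩ hi hb hu _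
    rcases h3.step hT hmat h1 hi h2 hb hu with h | ⟨rfl, rfl, h5⟩
    · left
      refine ⟨h3.nG, h.nG, mem3 h1, ?_, h⟩
      intro _
      rcases Nat.eq_zero_or_pos i with rfl | h0
      · exact Or.inr (Or.inl rfl)
      · exact mem3 (h2 h0)
    · right
      refine ⟨rfl, rfl, ?_, h5⟩
      rw [p.cp_mid (c := G) (by omega) (by show p.lG - 1 < p.lG; omega)]
      simp
  · intro j _ hj
    exact hG j (by show j < p.lG; omega)
  · exact .T _ le_rfl (by omega) hB (by omega)

end Pool.Agent.H33.TT
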