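import Mathlib
import Pool.Agent.H33.TT.Fin2

/-!
# The normal play, true formula
-/

namespace Pool.Agent.H33.TT

open V Cor

variable {p : Par}

/-- **The normal play in the lanes, true formula.** -/
theorem n1_lane (hT : p.Typed) : ∀ (m i2 : ℕ) (xs ys : ℕ → Bool) (U : Set (Sym2 V)),
    i2 + m = p.N * p.P + 4 → p.ctx U → s(u1, I lam 1) ∈ U →
    s(ln false 0 false, I kap (p.ka - 1)) ∈ U → p.JG U → Fr (lnS true (i2 + (2 * p.M + 5))) U →
    (∀ j, j < i2 + (2 * p.M + 5) → p.le true xs j ∈ U) → (∀ j, j < i2 → p.le false ys j ∈ U) →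
    p.QC (i2 + (2 * p.M + 5)) i2 xs ys →
    MW p.Adj U (p.lp true xs (i2 + (2 * p.M + 5))) (p.lp false ys i2) := by
  have hP := p.hP'
  have hsg := p.hsg
  have hLen := p.hLen
  have hlK := p.hK
  intro m
  induction m with
  | zero =>
    intro i2 xs ys U him hctx hL hq hJG hFr hB1 hB2 hQ
    have hi2 : i2 = p.N * p.P + 4 := by omega
    subst hi2
    have e1 : p.N * p.P + 4 + (2 * p.M + 5) = p.Len := by omega
    rw [e1] at hB1 hQ ⊢
    have hn2 : ¬ p.inn (p.N * p.P + 4) := by rw [p.inn_rep (by omega)]; omega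
    have l1 : p.lp true xs p.Len = ln true p.Len false := by
      unfold Par.lp; rw [if_neg p.not_inn_Len]
    have l2 : p.lp false ys (p.N * p.P + 4) = ln false (p.N * p.P + 4) false := by
      unfold Par.lp; rw [if_neg hn2]
    rw [l1, l2]
    refine n1_fin hT hQ.final ?_ hJG.2 ⟨hB1, hB2⟩
    have h1 := hB1 (p.Len - 1) (by omega)
    unfold Par.le at h1
    rw [show p.Len - 1 + 1 = p.Len by omega, l1] at h1
    unfold Par.lp at h1
    rw [if_neg p.not_inn_Len1] at h1
    exact h1
  | succ m ih =>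
    intro i2 xs ys U him hctx hL hq hJG hFr hB1 hB2 hQ
    obtain ⟨a, hQ'⟩ := hQ.stepA rfl (by omega)
    set i1 := i2 + (2 * p.M + 5) with hi1
    set xs' := p.upd xs i1 a with hxs'
    have hlp : p.lp true xs i1 = p.lp true xs' i1 := (p.lp_upd le_rfl).symm
    rw [hlp]
    refine MW.intro (p.lp true xs' (i1 + 1)) (p.lp_adj true xs' (by omega))
      (hFr _ _ ⟨i1, _, le_rfl, rfl⟩ ⟨i1 + 1, _, by omega, rfl⟩) ?_
    intro b' hb hu
    have hu' : s(p.lp false ys i2, b') ∉ U := fun h => hu (Or.inr h)
    have hFr' : Fr (lnS true (i1 + 1)) (insert s(p.lp false ys i2, b')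
        (insert s(p.lp true xs' i1, p.lp true xs' (i1 + 1)) U)) := by
      refine ((hFr.mono ?_).insl ?_).insl ?_
      · rintro v ⟨j, s', h1, h2⟩; exact ⟨j, s', by omega, h2⟩
      · rintro ⟨j, s', h1, h2⟩
        have := (V.ln.inj h2).2.1
        omega
      · rintro ⟨j, s', _, h2⟩
        have := (V.ln.inj h2).1
        simp at this
    have hE' : i1 + 1 = p.Len → p.endE ∈ insert s(p.lp false ys i2, b')
        (insert s(p.lp true xs' i1, p.lp true xs' (i1 + 1)) U) := by
      intro hi
      right; left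
      have e1 : p.lp true xs' (i1 + 1) = ln true p.Len false := by
        unfold Par.lp; rw [hi, if_neg p.not_inn_Len]
      have e2 : p.lp true xs' i1 = ln true (p.Len - 1) false := by
        unfold Par.lp
        rw [show i1 = p.Len - 1 by omega, if_neg p.not_inn_Len1]
      rw [e1, e2]; rfl
    have hJG1 : p.JG (insert s(p.lp true xs' i1, p.lp true xs' (i1 + 1)) U) :=
      hJG.ins (nJG_ln _ _ _) (nJG_ln _ _ _)
    -- the slow road applies after a deviation
    have slow : p.SM (i1 + 1) (p.la + (i1 + 1) + 2) (insert s(p.lp false ys i2, b')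
        (insert s(p.lp true xs' i1, p.lp true xs' (i1 + 1)) U)) b' →
        MW p.Adj (insert s(p.lp false ys i2, b')
          (insert s(p.lp true xs' i1, p.lp true xs' (i1 + 1)) U)) (p.lp true xs' (i1 + 1)) b' :=
      fun hm => slow_lane (p.Len - (i1 + 1)) (i1 + 1) _ (p.la + (i1 + 1) + 2) _ b' (by omega)
        (p.lp_ok xs' (i1 + 1)) hFr' hctx.ins2 (mem3 hL) hE' (by omega) (by omega) hm
    rcases p.lane_moves (by omega) hB2 hb hu' with ⟨s, rfl⟩ | ⟨j, hj, h3, h4, rfl⟩ |
      ⟨h3, ⟨h4, _⟩ | ⟨_, rfl | rfl⟩⟩ | ⟨c, r, d, hc, h3, h4⟩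
    · -- forward
      set ys' := p.upd ys i2 s with hys'
      have hlp2 : p.lp false ys i2 = p.lp false ys' i2 := (p.lp_upd le_rfl).symm
      rw [hlp2] at hFr' ⊢
      have e1 : i1 + 1 = i2 + 1 + (2 * p.M + 5) := by omega
      have := ih (i2 + 1) xs' ys' (insert s(p.lp false ys' i2, p.lp false ys' (i2 + 1))
        (insert s(p.lp true xs' i1, p.lp true xs' (i1 + 1)) U)) (by omega) hctx.ins2 (mem3 hL)
        (mem3 hq) (hJG1.ins (nJG_ln _ _ _) (nJG_ln _ _ _))
      rw [← e1] at this
      refine this hFr' ?_ ?_ ?_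
      · intro j hj
        by_cases h : j = i1
        · subst h; exact Or.inr (Or.inl rfl)
        · have := hB1 j (by omega)
          rw [← p.le_upd (l := true) (xs := xs) (s := a) (i := i1) (by omega)] at this
          exact mem3 this
      · intro j hj
        by_cases h : j = i2
        · subst h; exact Or.inl rfl
        · have := hB2 j (by omega)
          rw [← p.le_upd (l := false) (xs := ys) (s := s) (i := i2) (by omega)] at this
          exact mem3 this
      · exact hQ'.stepB rfl s
    · -- turning round behind a gadget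
      subst hj
      have hbk := p.BK_of (l := false) (xs := ys) (j := j) (U := U)
        (e := s(p.lp true xs' i1, p.lp true xs' (i1 + 1))) (by omega) (fun i hi => hB2 i hi) h3 h4
      exact bk_lane (p.Len - (i1 + 1)) (i1 + 1) _ (p.la + (i1 + 1) + 2) _ _ (by omega)
        (p.lp_ok xs' (i1 + 1)) hFr' hctx.ins2 (mem3 hL) hE' (by omega) (by omega)
        (hJG1.ins (nJG_ln _ _ _) (nJG_ln _ _ _)) hbk
    · simp at h4
    · -- to `u2`
      refine slow (Or.inr (.de _ (by simp) (Or.inl ?_) ?_))
      · rw [h3]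
        have : p.lp false ys 0 = ln false 0 false := by
          unfold Par.lp; rw [if_neg p.not_inn_zero]
        rw [this, Sym2.eq_swap]
      · exact (hJG1.ins (nJG_ln _ _ _) ⟨by simp [inC], by simp [inC]⟩).GS
    · exfalso
      apply hu'
      rw [h3]
      have : p.lp false ys 0 = ln false 0 false := by
        unfold Par.lp; rw [if_neg p.not_inn_zero]
      rw [this]; exact hq
    · -- into a clause corridor
      have hJG' : p.JG (insert s(p.lp false ys i2, b')
          (insert s(p.lp true xs' i1, p.lp true xs' (i1 + 1)) U)) := by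
        refine hJG1.ins (nJG_ln _ _ _) ?_
        rw [h3]; exact p.cp_nJG_K (by omega) (by omega)
      have hbb : p.ce (K c r) d (p.lK - 1) ∈ insert s(p.lp false ys i2, b')
          (insert s(p.lp true xs' i1, p.lp true xs' (i1 + 1)) U) := by
        left
        rw [Par.ce, show p.lK - 1 + 1 = p.lK by omega, ← h3, ← h4, Sym2.eq_swap]
      apply slow
      right
      rw [h3] at hbb hJG' ⊢
      exact .ink c r d (p.lK - 1) hc (by omega) (by omega) hbb (by omega) (Or.inl hJG')

/-- The normal play while the opponent is in `kap`. -/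
theorem n1_kap (hT : p.Typed) (hF : p.truth) : ∀ (m i : ℕ) (U : Set (Sym2 V)),
    i + m = 2 * p.M + 5 → p.ctx U → s(u1, I lam 1) ∈ U → p.ce kap false m ∈ U → p.JG U →
    Fr (lnS true i) U → (∀ j, j < i → s(ln true j false, ln true (j + 1) false) ∈ U) →
    MW p.Adj U (ln true i false) (p.cp kap false m) := by
  have hP := p.hP'
  have hsg := p.hsg
  have hLen := p.hLen
  have hka := p.hka
  have hlk : p.len kap = p.ka := rfl
  intro m
  induction m with
  | zero =>
    intro i U him hctx hL hq hJG hFr hB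
    have hi : i = 2 * p.M + 5 := by omega
    subst hi
    have l1 : ∀ j l, p.lp l (fun _ => false) j = ln l j false := by
      intro j l; unfold Par.lp; split_ifs <;> rfl
    have key := n1_lane hT (p.N * p.P + 4) 0 (fun _ => false) (fun _ => false) U (by omega) hctx hL
      ?_ hJG (by rw [zero_add]; exact hFr) ?_ (fun j hj => by omega)
      (by rw [zero_add]; exact Par.QC.init hF)
    · rw [zero_add, l1, l1] at key
      rw [Par.cp_zero]
      exact key
    · have e1 : p.ce kap false 0 = s(ln false 0 false, I kap (p.ka - 1)) := by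
        rw [Par.ce, p.cp_zero, p.cp_mid (c := kap) (k := 0 + 1) (by omega) (by omega)]
        simp [Par.fin, Par.dst, Par.len]
      rw [← e1]; exact hq
    · intro j hj
      unfold Par.le
      rw [l1, l1]
      exact hB j (by omega)
  | succ m ih =>
    intro i U him hctx hL hq hJG hFr hB
    have hi : i < p.sg := by omega
    have hadj : p.Adj (ln true i false) (ln true (i + 1) false) :=
      Or.inl (.lane true i false false (by omega) (Or.inl rfl) (Or.inl rfl) (fun _ _ => rfl))
    refine MW.intro _ hadj (hFr _ _ ⟨i, _, le_rfl, rfl⟩ ⟨i + 1, _, by omega, rfl⟩) ?_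
    intro b' hb hu
    have := p.cp_fwd (c := kap) (by omega) (by omega) (Or.inr hq) hb hu
    subst this
    have hn := p.ce_new (c := kap) (d := false) (k := m + 1)
      (U := insert s(ln true i false, ln true (i + 1) false) U) (by omega)
    rw [Nat.add_sub_cancel] at hn ⊢
    refine ih (i + 1) _ (by omega) hctx.ins2 (mem3 hL) hn ?_ ?_ ?_
    · exact (hJG.ins (nJG_ln _ _ _) (nJG_ln _ _ _)).ins
        (p.cp_le_nJG (by simp) (by simp) (by omega)) (p.cp_le_nJG (by simp) (by simp) (by omega))
    · refine ((hFr.mono ?_).insl ?_).insl ?_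
      · rintro v ⟨j, s', h1, h2⟩; exact ⟨j, s', by omega, h2⟩
      · rintro ⟨j, s', h1, h2⟩
        have := (V.ln.inj h2).2.1
        omega
      · rintro ⟨j, s', _, h2⟩
        rw [p.cp_mid (c := kap) (by omega) (by omega)] at h2
        simp at h2
    · intro j hj
      by_cases h : j = i
      · subst h; exact Or.inr (Or.inl rfl)
      · exact mem3 (hB j (by omega))

/-- **The normal play, true formula.** -/
theorem n1_core (hT : p.Typed) (hF : p.truth) :
    MW p.Adj ({s(x2, I kap 1), s(x, y1), s(w, x2), s(z, x)} : Set (Sym2 V)) y1 (I kap 1) := by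
  have hka := p.hka
  have hlk : p.len kap = p.ka := rfl
  have hll : p.len lam = p.la := rfl
  have hla := p.la_pos
  have e1 : I kap 1 = p.cp kap false (p.ka - 1) := by
    rw [p.cp_mid (c := kap) (by omega) (by omega)]
    simp only [Bool.false_eq_true, if_false]; congr 1; omega
  have e2 : p.cp kap false (p.ka - 1 + 1) = x2 := by
    rw [show p.ka - 1 + 1 = p.len kap by omega, Par.cp_len]; rfl
  have e3 : s(x2, I kap 1) = p.ce kap false (p.ka - 1) := by
    rw [Par.ce, e2, ← e1, Sym2.eq_swap]
  refine MW.intro u1 (Or.inl .y1u1) ?_ ?_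
  · simp
  intro b' hb hu
  have hxk : p.ce kap false (p.ka - 1) ∈ insert s(y1, u1)
      ({s(x2, I kap 1), s(x, y1), s(w, x2), s(z, x)} : Set (Sym2 V)) := by
    rw [← e3]; simp
  have hb1 := hb
  rw [e1] at hb1
  have hu1 : s(p.cp kap false (p.ka - 1), b') ∉ insert s(y1, u1)
      ({s(x2, I kap 1), s(x, y1), s(w, x2), s(z, x)} : Set (Sym2 V)) := by
    rw [← e1]; exact hu
  have hbb := p.cp_fwd (c := kap) (by omega) (by omega) hxk hb1 hu1
  subst hbb
  have hn := p.ce_new (c := kap) (d := false) (k := p.ka - 1)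
    (U := insert s(y1, u1) ({s(x2, I kap 1), s(x, y1), s(w, x2), s(z, x)} : Set (Sym2 V)))
    (by omega)
  rw [← e1] at hn
  have hk2 : p.ka - 1 - 1 = p.ka - 2 := by omega
  rw [hk2] at hn hu ⊢
  have e0 : p.cp lam true 0 = u1 := by rw [Par.cp_zero]; rfl
  rw [← e0]
  have hI2 : p.cp kap false (p.ka - 2) = I kap 2 := by
    rw [p.cp_mid (c := kap) (by omega) (by omega)]
    simp only [Bool.false_eq_true, if_false]; congr 1; omega
  -- all edges used so far avoid the corridor `lam`, the lane, `J` and `G`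
  have hU : ∀ e, e ∈ insert s(I kap 1, p.cp kap false (p.ka - 2)) (insert s(y1, p.cp lam true 0)
      ({s(x2, I kap 1), s(x, y1), s(w, x2), s(z, x)} : Set (Sym2 V))) →
      ∃ v w, e = s(v, w) ∧ nJG v ∧ nJG w ∧ ¬ inC lam v ∧ ¬ inC lam w ∧ ¬ lnS true 0 v := by
    rw [hI2, e0]
    intro e he
    simp only [Set.mem_insert_iff, Set.mem_singleton_iff] at he
    rcases he with rfl | rfl | rfl | rfl | rfl | rfl <;>
      exact ⟨_, _, rfl, ⟨by simp [inC], by simp [inC]⟩, ⟨by simp [inC], by simp [inC]⟩,
        by simp [inC], by simp [inC], by simp [lnS]⟩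
  refine trapped (c := lam) (c' := kap) trivial (by simp) true false p.la 0 (p.ka - 2) _
    (by omega) (by omega) (by omega) ?_ hn ?_
  · intro j _ hj hmem
    obtain ⟨v, w, rfl' , _, _, h3, h4, _⟩ := hU _ hmem
    exact p.ne_ce (c := lam) (d := true) (k := j) (by omega) h3 h4 rfl'.symm
  · intro U' hU' h1 h2 h3
    have e4 : p.cp lam true (0 + p.la) = ln true 0 false := by
      rw [zero_add, ← hll, Par.cp_len]; rfl
    have e5 : p.ka - 2 - p.la = 2 * p.M + 5 := by omega
    rw [e4, e5]
    rw [e5] at h2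
    refine n1_kap hT hF (2 * p.M + 5) 0 U' (by omega) ⟨hU' (by simp), Or.inl (hU' (by simp))⟩ ?_ h2
      ⟨?_, ?_⟩ ?_ (fun j hj => by omega)
    · have := h1 0 le_rfl (by omega)
      rw [Par.ce, e0, p.cp_mid (c := lam) (k := 0 + 1) (by omega) (by omega)] at this
      simpa using this
    · intro k hk hmem
      rcases h3 _ hmem with h | ⟨j, _, hj, h⟩ | ⟨j, _, hj, h⟩
      · obtain ⟨v, w, he, h5, h6, _⟩ := hU _ h
        exact p.ne_ce hk h5.1 h6.1 he.symm
      · exact p.ce_ne (c := J) (c' := lam) hk (by omega) (by simp) h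
      · exact p.ce_ne (c := J) (c' := kap) hk (by omega) (by simp) h
    · intro k hk hmem
      rcases h3 _ hmem with h | ⟨j, _, hj, h⟩ | ⟨j, _, hj, h⟩
      · obtain ⟨v, w, he, h5, h6, _⟩ := hU _ h
        exact p.ne_ce hk h5.2 h6.2 he.symm
      · exact p.ce_ne (c := G) (c' := lam) hk (by omega) (by simp) h
      · exact p.ce_ne (c := G) (c' := kap) hk (by omega) (by simp) h
    · intro v w hv hw hmem
      obtain ⟨i1, s1, _, rfl⟩ := hv
      obtain ⟨i2, s2, _, rfl⟩ := hw
      rcases h3 _ hmem with h | ⟨j, _, hj, h⟩ | ⟨j, _, hj, h⟩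
      · obtain ⟨v, w, he, _, _, _, _, h7⟩ := hU _ h
        rcases Sym2.eq_iff.1 he with ⟨h8, _⟩ | ⟨_, h8⟩
        · exact h7 (h8 ▸ ⟨i1, s1, by omega, rfl⟩)
        · exact h7 (h8 ▸ ⟨i2, s2, by omega, rfl⟩)
      · exact p.ne_ce (c := lam) (by omega) (by simp [inC]) (by simp [inC]) h
      · exact p.ne_ce (c := kap) (by omega) (by simp [inC]) (by simp [inC]) h

end Pool.Agent.H33.TT
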