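import Mathlib
import Pool.Agent.H33.TT.N1

/-!
# The start: modes after the first moves
-/

namespace Pool.Agent.H33.TT

open V Cor

variable {p : Par}

/-- Modes of the opponent, the player being on `x` and about to take the slow road. -/
inductive Par.MS (p : Par) (t : ℕ) (U : Set (Sym2 V)) : V → Prop
  | se (b : V) (f : ℕ) (h : p.SE f t U b) (hy : b ≠ y1) : Par.MS p t U b
  | mx (h : s(x, y2) ∈ U) (hG : p.JG U) : Par.MS p t U x
  | my (h : s(x, y2) ∈ U) (h1 : s(y2, m2) ∉ U) (h2 : s(y2, u2) ∉ U) (h3 : s(m2, u2) ∉ U)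
      (hG : p.JG U) : Par.MS p t U y2
  | wk (k : ℕ) (h1 : 1 ≤ k) (h2 : k < p.ka) (hb : p.ce kap true k ∈ U) (hG : p.GS U) :
      Par.MS p t U (p.cp kap true k)
  | wx2 (hb : s(x2, I kap 1) ∈ U) (hG : p.GS U) : Par.MS p t U x2
  | ww (hb : s(w, x2) ∈ U) (hG : p.GS U) : Par.MS p t U w

/-- Modes of the opponent, the player being on `x` and about to take the fast road. -/
inductive Par.MF (p : Par) (t : ℕ) (U : Set (Sym2 V)) : V → Prop
  | fm (b : V) (f : ℕ) (h : p.FM f t U b) : Par.MF p t U b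
  | my (h : s(x, y1) ∈ U ∨ s(x2, y1) ∈ U) (h1 : s(y1, m1) ∉ U) (h2 : s(y1, u1) ∉ U)
      (h3 : s(m1, u1) ∉ U) (hG : p.cfree G U) : Par.MF p t U y1

/-- What the slow road needs. -/
structure Par.BaseS (p : Par) (U : Set (Sym2 V)) : Prop where
  zx : s(z, x) ∈ U
  xy1 : s(x, y1) ∉ U
  fr : Fr (p.TL 0) U
  y1u1 : s(y1, u1) ∉ U
  y1m1 : s(y1, m1) ∉ U
  m1u1 : s(m1, u1) ∉ U

/-- What the fast road needs. -/
structure Par.BaseF (p : Par) (U : Set (Sym2 V)) : Prop where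
  zx : s(z, x) ∈ U
  xy2 : s(x, y2) ∉ U
  fr : Fr TZ U

/-- A vertex with no relation to the slow road. -/
lemma Par.nTL {v : V} (hv : nA v) (h : v ≠ u1) : ¬ p.TL 0 v := by
  have hl : p.len lam = p.la := rfl
  rintro (⟨j, h1, h2, h3⟩ | ⟨i, s, rfl⟩)
  · rcases Nat.eq_zero_or_pos j with rfl | h0
    · rw [Par.cp_zero] at h3; exact h h3
    · rw [p.cp_mid (c := lam) h0 (by omega)] at h3
      exact hv.2 _ h3
  · exact hv.1 _ _ rfl

lemma Par.MS.nb {t : ℕ} {U : Set (Sym2 V)} {b : V} (h : p.MS t U b) :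
    nA b ∧ b ≠ u1 ∧ b ≠ m1 ∧ b ≠ y1 := by
  cases h with
  | se _ f h hy => exact ⟨h.nA.1, h.nA.2.1, h.nA.2.2, hy⟩
  | mx => exact ⟨⟨by simp, by simp⟩, by simp, by simp, by simp⟩
  | my => exact ⟨⟨by simp, by simp⟩, by simp, by simp, by simp⟩
  | wk k h1 h2 =>
    rw [p.cp_mid (c := kap) h1 h2]
    exact ⟨⟨by simp, by simp⟩, by simp, by simp, by simp⟩
  | wx2 => exact ⟨⟨by simp, by simp⟩, by simp, by simp, by simp⟩
  | ww => exact ⟨⟨by simp, by simp⟩, by simp, by simp, by simp⟩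

lemma Par.MF.nZ {t : ℕ} {U : Set (Sym2 V)} {b : V} (h : p.MF t U b) : ¬ TZ b := by
  cases h with
  | fm _ f h => exact h.nZ
  | my => rintro (h | h | h | ⟨_, _, _, h⟩ | h | h) <;> simp at h

/-- **The slow road from `x`.** -/
theorem start_slow {t : ℕ} {U : Set (Sym2 V)} {b : V} (ht : t ≤ 1) (hB : p.BaseS U)
    (hm : p.MS t U b) : MW p.Adj U x b := by
  refine MW.intro y1 (Or.inl .xy1) hB.xy1 (fun b' hb hu => ?_)
  have hu' : s(b, b') ∉ U := fun h => hu (Or.inr h)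
  obtain ⟨n0, n1, n2, n3⟩ := hm.nb
  have hka := p.len_ge kap
  have hka' : p.len kap = p.ka := rfl
  have njn : ∀ v, v = x ∨ v = y1 ∨ v = y2 ∨ v = m2 ∨ v = u2 ∨ v = x2 ∨ v = w → nJG v := by
    rintro v (rfl | rfl | rfl | rfl | rfl | rfl | rfl) <;> exact ⟨by simp [inC], by simp [inC]⟩
  have hctx : p.ctx (insert s(b, b') (insert s(x, y1) U)) :=
    ⟨mem3 hB.zx, Or.inl (Or.inr (Or.inl rfl))⟩
  have hFr : Fr (p.TL 0) (insert s(b, b') (insert s(x, y1) U)) :=
    (hB.fr.insl (p.nTL ⟨by simp, by simp⟩ (by simp))).insl (p.nTL n0 n1)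
  have hT : ∀ v v', (v = y1 ∨ v = u1 ∨ v = m1) → (v' = y1 ∨ v' = u1 ∨ v' = m1) → s(v, v') ∉ U →
      s(v, v') ∉ insert s(b, b') (insert s(x, y1) U) := by
    intro v v' hv hv' hU
    rintro (h | h | h)
    · rcases Sym2.eq_iff.1 h with ⟨h, _⟩ | ⟨_, h⟩
      · rcases hv with rfl | rfl | rfl
        · exact n3 h.symm
        · exact n1 h.symm
        · exact n2 h.symm
      · rcases hv' with rfl | rfl | rfl
        · exact n3 h.symm
        · exact n1 h.symm
        · exact n2 h.symm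
    · rcases Sym2.eq_iff.1 h with ⟨h, _⟩ | ⟨_, h⟩
      · rcases hv with rfl | rfl | rfl <;> simp at h
      · rcases hv' with rfl | rfl | rfl <;> simp at h
    · exact hU h
  have t1 := hT y1 u1 (by simp) (by simp) hB.y1u1
  have t2 := hT y1 m1 (by simp) (by simp) hB.y1m1
  have t3 := hT m1 u1 (by simp) (by simp) hB.m1u1
  have core := fun (f : ℕ) hm' => slow_core (p := p) (f := f) (t := t + 1) (b := b')
    (U := insert s(b, b') (insert s(x, y1) U)) (by omega) (by omega) hctx hFr t1 t2 t3 hm'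
  cases hm with
  | se _ f h hy =>
    rcases h.step (a := x) (a' := y1) (by omega) (fun _ _ => ⟨Or.inr hB.zx, Or.inl rfl⟩)
      (njn _ (by simp)) (njn _ (by simp)) hb hu with ⟨h1, h2, h3⟩ | h
    · exact core 0 (Or.inl ⟨⟨p.ka - 1, by omega, by omega, h1, h2⟩, h3⟩)
    · exact core _ (Or.inr (Or.inr (Or.inr (Or.inr h))))
  | mx h hG =>
    exfalso
    rcases p.nb_x hb with rfl | rfl | rfl
    · rw [Sym2.eq_swap] at hu'; exact hu' hB.zx
    · exact hu (Or.inl rfl)
    · exact hu' h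
  | my h h1 h2 h3 hG =>
    rcases p.nb_y2 hb with rfl | rfl | rfl
    · rw [Sym2.eq_swap] at hu'; exact absurd h hu'
    · exact core 1 (Or.inr (Or.inr (Or.inr (Or.inr (.lt2 (Or.inl rfl) (by omega)
        ((hG.ins (njn x (by simp)) (njn y1 (by simp))).ins (njn y2 (by simp)) (njn m2 (by simp)))
        rfl)))))
    · exact core 0 (Or.inr (Or.inr (Or.inr (Or.inr (.lt1 (Or.inl (Or.inl rfl)) (by omega)
        ((hG.ins (njn x (by simp)) (njn y1 (by simp))).ins (njn y2 (by simp)) (njn u2 (by simp)))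
        rfl)))))
  | wk k h1 h2 hk hG =>
    have := p.cp_fwd (c := kap) h1 (by omega) (Or.inr hk) hb hu
    subst this
    have hG' := (hG.ins (njn x (by simp)).2 (njn y1 (by simp)).2).ins
      (v := p.cp kap true k) (w := p.cp kap true (k - 1)) (p.cp_nJG_kap h1 h2).2
      (p.cp_le_nJG_kap (by omega)).2
    have hn := p.ce_new (c := kap) (d := true) (U := insert s(x, y1) U) (k := k) h1
    rcases Nat.lt_or_ge 1 k with h3 | h3
    · exact core 0 (Or.inl ⟨⟨k - 1, by omega, by omega, rfl, hn⟩, hG'⟩)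
    · have : k = 1 := by omega
      subst this
      have e1 : p.cp kap true (1 - 1) = x2 := by simp [Par.cp, Par.src]
      have e2 : p.cp kap true 1 = I kap 1 := p.cp_mid (c := kap) le_rfl (by omega)
      refine core 0 (Or.inr (Or.inl ⟨e1, ?_, hG'⟩))
      rw [e1, e2, Sym2.eq_swap]
      exact Or.inl rfl
  | wx2 hx hG =>
    rcases p.nb_x2 hb with rfl | rfl | rfl
    · exact core 0 (Or.inr (Or.inr (Or.inr (Or.inl ⟨rfl, Or.inr (Or.inl rfl), Or.inl rfl,
        (hG.ins (njn x (by simp)).2 (njn y1 (by simp)).2).ins (njn x2 (by simp)).2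
          (njn y1 (by simp)).2⟩))))
    · exact core 0 (Or.inr (Or.inr (Or.inl ⟨rfl, Or.inl (by rw [Sym2.eq_swap]),
        (hG.ins (njn x (by simp)).2 (njn y1 (by simp)).2).ins (njn x2 (by simp)).2
          (njn w (by simp)).2⟩)))
    · exact absurd hx hu'
  | ww hw hG =>
    have := p.nb_w hb
    subst this
    exact absurd hw hu'

/-- **The fast road from `x`.** -/
theorem start_fast {t : ℕ} {U : Set (Sym2 V)} {b : V} (ht : t ≤ 1) (hB : p.BaseF U)
    (hm : p.MF t U b) : MW p.Adj U x b := by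
  refine MW.intro y2 (Or.inl .xy2) hB.xy2 (fun b' hb hu => ?_)
  have hu' : s(b, b') ∉ U := fun h => hu (Or.inr h)
  have hnZ := hm.nZ
  have njn : ∀ v, v = x ∨ v = y1 ∨ v = y2 ∨ v = m1 ∨ v = u1 ∨ v = x2 ∨ v = w → nJG v := by
    rintro v (rfl | rfl | rfl | rfl | rfl | rfl | rfl) <;> exact ⟨by simp [inC], by simp [inC]⟩
  have hctx1 : p.ctxF (insert s(x, y2) U) := ⟨Or.inr hB.zx, Or.inl rfl⟩
  have hctx : p.ctxF (insert s(b, b') (insert s(x, y2) U)) :=
    ⟨mem3 hB.zx, Or.inr (Or.inl rfl)⟩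
  have hFr : Fr TZ (insert s(b, b') (insert s(x, y2) U)) := by
    refine (hB.fr.insl ?_).insl hnZ
    rintro (h | h | h | ⟨_, _, _, h⟩ | h | h) <;> simp at h
  have core := fun (f : ℕ) hm' => fast_core (p := p) (f := f) (t := t + 1) (b := b')
    (U := insert s(b, b') (insert s(x, y2) U)) (by omega) hctx hFr hm'
  have cg : ∀ {v v' : V}, p.cfree G U → nJG v → nJG v' →
      p.cfree G (insert s(v, v') (insert s(x, y2) U)) :=
    fun h h1 h2 => Par.cG.ins (Par.cG.ins h (njn x (by simp)).2 (njn y2 (by simp)).2) h1.2 h2.2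
  cases hm with
  | fm _ f h =>
    exact core _ (h.step (a := x) (a' := y2) (by omega) (fun _ => hctx1) (njn _ (by simp))
      (njn _ (by simp)) hb hu)
  | my h h1 h2 h3 hG =>
    have hk0 : ∀ (v : V), (∀ j, v ≠ I kap j) → ∀ k, v = p.cp kap false k → 1 ≤ k → k < p.ka →
        p.Len + 12 ≤ k + (t + 1) := by
      intro v hv k hk h1 h2
      rw [p.cp_mid (c := kap) h1 h2] at hk; exact absurd hk (hv _)
    rcases p.nb_y1 hb with rfl | rfl | rfl | rfl
    · exact core 0 (.dw _ (.d4 (Or.inl (by rw [Sym2.eq_swap]))) (hk0 _ (by simp)) (by simp)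
        (p.GT_of (cg hG (njn _ (by simp)) (njn _ (by simp)))))
    · exact core 0 (.dw _ (.d5 (Or.inl (by rw [Sym2.eq_swap]))) (hk0 _ (by simp)) (by simp)
        (p.GT_of (cg hG (njn _ (by simp)) (njn _ (by simp)))))
    · exact core 0 (.w2 (Or.inl rfl) (cg hG (njn _ (by simp)) (njn _ (by simp))) rfl)
    · exact core 1 (.w1 (Or.inl (Or.inl rfl)) (cg hG (njn _ (by simp)) (njn _ (by simp))) rfl)

end Pool.Agent.H33.TT
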