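import Mathlib
import Pool.Agent.H33.TT.Start0

/-!
# The start: classification of the first edge
-/

namespace Pool.Agent.H33.TT

open V Cor

variable {p : Par}

lemma Par.ce_I {c : Cor} {d : Bool} {k : ℕ} (hk : k < p.len c) :
    ∃ j v, p.ce c d k = s(I c j, v) := by
  have hl := p.len_ge c
  rcases Nat.eq_zero_or_pos k with rfl | h0
  · refine ⟨if d then 0 + 1 else p.len c - (0 + 1), p.cp c d 0, ?_⟩
    rw [Par.ce, p.cp_mid (c := c) (k := 0 + 1) (by omega) (by omega), Sym2.eq_swap]
  · refine ⟨if d then k else p.len c - k, p.cp c d (k + 1), ?_⟩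
    rw [Par.ce, p.cp_mid (c := c) (k := k) h0 hk]

lemma Par.BaseS_of {a b : V} (h1 : nA a) (h2 : a ≠ u1) (h3 : a ≠ m1) (h4 : a ≠ y1)
    (h5 : a = x → b ≠ y1) : p.BaseS {s(a, b), s(z, x)} := by
  have key : ∀ v w, s(v, w) ∈ ({s(a, b), s(z, x)} : Set (Sym2 V)) → (v = a ∨ w = a) ∨
      (v = x ∨ w = x) := by
    intro v w h
    rcases h with h | h
    · rcases Sym2.eq_iff.1 h with ⟨h, _⟩ | ⟨_, h⟩
      · exact Or.inl (Or.inl h)
      · exact Or.inl (Or.inr h)
    · rcases Sym2.eq_iff.1 h with ⟨_, h⟩ | ⟨h, _⟩
      · exact Or.inr (Or.inr h)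
      · exact Or.inr (Or.inl h)
  refine ⟨Or.inr rfl, ?_, ?_, ?_, ?_, ?_⟩
  · rintro (h | h)
    · rcases Sym2.eq_iff.1 h with ⟨h6, h7⟩ | ⟨_, h6⟩
      · exact h5 h6.symm h7.symm
      · exact h4 h6.symm
    · rcases Sym2.eq_iff.1 h with ⟨h6, h7⟩ | ⟨_, h6⟩ <;> simp_all
  · intro v w hv hw h
    rcases key v w h with (rfl | rfl) | (rfl | rfl)
    · exact p.nTL h1 h2 hv
    · exact p.nTL h1 h2 hw
    · exact p.nTL ⟨by simp, by simp⟩ (by simp) hv
    · exact p.nTL ⟨by simp, by simp⟩ (by simp) hw
  · intro h
    rcases key _ _ h with (h | h) | (h | h)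
    · exact h4 h.symm
    · exact h2 h.symm
    · simp at h
    · simp at h
  · intro h
    rcases key _ _ h with (h | h) | (h | h)
    · exact h4 h.symm
    · exact h3 h.symm
    · simp at h
    · simp at h
  · intro h
    rcases key _ _ h with (h | h) | (h | h)
    · exact h3 h.symm
    · exact h2 h.symm
    · simp at h
    · simp at h

lemma Par.BaseF_of {a b : V} (h1 : ¬ TZ a) (h5 : a = x → b ≠ y2) :
    p.BaseF {s(a, b), s(z, x)} := by
  refine ⟨Or.inr rfl, ?_, ?_⟩
  · rintro (h | h)
    · rcases Sym2.eq_iff.1 h with ⟨h6, h7⟩ | ⟨_, h6⟩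
      · exact h5 h6.symm h7.symm
      · exact h1 (Or.inl h6.symm)
    · rcases Sym2.eq_iff.1 h with ⟨h6, h7⟩ | ⟨_, h6⟩ <;> simp_all
  · intro v w hv hw h
    rcases h with h | h
    · rcases Sym2.eq_iff.1 h with ⟨h, _⟩ | ⟨_, h⟩
      · exact h1 (h ▸ hv)
      · exact h1 (h ▸ hw)
    · have hx : ¬ TZ x := by rintro (h | h | h | ⟨_, _, _, h⟩ | h | h) <;> simp at h
      rcases Sym2.eq_iff.1 h with ⟨_, h⟩ | ⟨h, _⟩
      · exact hx (h ▸ hw)
      · exact hx (h ▸ hv)

lemma nTZ_I (c : Cor) (j : ℕ) : ¬ TZ (I c j) := by
  rintro (h | h | h | ⟨_, _, _, h⟩ | h | h) <;> simp at h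

/-- The end of a clause corridor. -/
lemma Par.fin_K {c r : ℕ} (hc : p.vc (K c r)) (d : Bool) :
    p.zn (p.fin (K c r) d) ∨ ∃ i s, i ≤ p.Len ∧ p.fin (K c r) d = ln true i s := by
  cases d with
  | true =>
    rcases r with _ | r
    · exact Or.inl (Par.zn.ln le_rfl)
    · simp only [Par.fin, if_true, Par.src]
      have := p.ai_le (c := c) (r := r) hc.1 (by have := hc.2; omega)
      cases p.lane c r
      · exact Or.inl (Par.zn.ln this)
      · exact Or.inr ⟨_, _, this, rfl⟩
  | false =>
    simp only [Par.fin, Bool.false_eq_true, if_false, Par.dst]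
    split_ifs with h
    · have := p.ai_le (c := c) (r := r) hc.1 h
      cases p.lane c r
      · exact Or.inl (Par.zn.ln (by omega))
      · exact Or.inr ⟨_, _, by omega, rfl⟩
    · exact Or.inl Par.zn.R

lemma Par.zn.ne_y1 {b : V} (h : p.zn b) : b ≠ y1 := by
  rcases h with ⟨i, s, rfl, _⟩ | rfl | rfl <;> simp

/-- Classification for the corridors. -/
theorem cls_cor (c : Cor) (d : Bool) (k : ℕ) (hc : p.vc c) (hk : k < p.len c) :
    (p.BaseS {p.ce c d k, s(z, x)} ∧ p.MS 0 {p.ce c d k, s(z, x)} (p.cp c d k)) ∨
    (p.BaseF {p.ce c d k, s(z, x)} ∧ p.MF 0 {p.ce c d k, s(z, x)} (p.cp c d k)) := by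
  have hmem : p.ce c d k ∈ ({p.ce c d k, s(z, x)} : Set (Sym2 V)) := Or.inl rfl
  have hlK := p.hK
  have hlJ := p.hJ
  have hlG := p.hG
  have hka := p.hka
  have hla := p.la_pos
  have hJ2 := p.hJ2
  have hG2 := p.hG2
  have el : p.len lam = p.la := rfl
  have ek : p.len kap = p.ka := rfl
  have eJ : p.len J = p.lJ := rfl
  have eG : p.len G = p.lG := rfl
  have nx : ¬ inC J z ∧ ¬ inC G z ∧ ¬ inC J x ∧ ¬ inC G x := by simp [inC]
  -- base facts
  have bF : p.BaseF {p.ce c d k, s(z, x)} := by
    obtain ⟨j, v, h⟩ := p.ce_I (c := c) (d := d) hk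
    rw [h]
    exact p.BaseF_of (nTZ_I c j) (by simp)
  have bS : c ≠ lam → p.BaseS {p.ce c d k, s(z, x)} := by
    intro hcl
    obtain ⟨j, v, h⟩ := p.ce_I (c := c) (d := d) hk
    rw [h]
    exact p.BaseS_of ⟨by simp, by simpa using hcl⟩ (by simp) (by simp) (by simp) (by simp)
  have cfr : ∀ c', c' ≠ c → p.cfree c' {p.ce c d k, s(z, x)} := by
    intro c' hne j hj h
    rcases h with h | h
    · exact p.ce_ne hj hk hne h
    · exact p.ne_ce hj (by simp [inC]) (by simp [inC]) h.symm
  have jg : c ≠ J → c ≠ G → p.JG {p.ce c d k, s(z, x)} := fun h1 h2 =>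
    ⟨cfr J (Ne.symm h1), cfr G (Ne.symm h2)⟩
  have hn0 : ∀ v : V, (∀ j, v ≠ I kap j) → ∀ k', v = p.cp kap false k' → 1 ≤ k' → k' < p.ka →
      p.Len + 12 ≤ k' + 0 := by
    intro v hv k' hk' h1 h2
    rw [p.cp_mid (c := kap) h1 h2] at hk'; exact absurd hk' (hv _)
  rcases Nat.eq_zero_or_pos k with h0 | h0
  · -- at the end of the corridor
    subst h0
    have hfin : p.cp c d 0 = p.fin c d := p.cp_zero _ _
    cases c with
    | kap =>
      left
      refine ⟨bS (by simp), ?_⟩
      cases d with
      | true =>
        have e1 : p.cp kap true 0 = x2 := by rw [hfin]; rfl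
        have e2 : p.ce kap true 0 = s(x2, I kap 1) := by
          rw [Par.ce, e1, p.cp_mid (c := kap) (k := 0 + 1) (by omega) (by omega)]; simp
        rw [e2] at jg hmem ⊢
        rw [e1]
        exact .wx2 hmem (jg (by simp) (by simp)).GS
      | false =>
        have e1 : p.cp kap false 0 = ln false 0 false := by rw [hfin]; rfl
        rw [e1]
        exact .se _ 1 (.mzn _ (Par.zn.ln (by omega)) (by omega)
          (Or.inl ⟨jg (by simp) (by simp), rfl⟩)) (by simp)
    | lam =>
      right
      refine ⟨bF, ?_⟩
      cases d with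
      | true =>
        have e1 : p.cp lam true 0 = u1 := by rw [hfin]; rfl
        have e2 : p.ce lam true 0 = s(u1, I lam 1) := by
          rw [Par.ce, e1, p.cp_mid (c := lam) (k := 0 + 1) (by omega) (by omega)]; simp
        rw [e2] at jg hmem ⊢
        rw [e1]
        exact .fm _ 0 (.dw _ (.d2 _ (by simp) hmem) (hn0 _ (by simp)) (by simp)
          (p.GT_of (jg (by simp) (by simp)).2))
      | false =>
        have e1 : p.cp lam false 0 = ln true 0 false := by rw [hfin]; rfl
        rw [e1]
        exact .fm _ 1 (.lv 0 false (by omega) (Or.inl ⟨cfr G (by simp), rfl⟩))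
    | J =>
      cases d with
      | true =>
        right
        refine ⟨bF, ?_⟩
        rw [p.cp_J0]
        exact .fm _ (p.Len + 1) (.lv _ false le_rfl (Or.inl ⟨cfr G (by simp), by omega⟩))
      | false =>
        left
        refine ⟨bS (by simp), ?_⟩
        rw [p.cp_Jf0]
        exact .se _ 0 (.mn2 (by omega) (fun j hj => cfr G (by simp) j (by omega))
          (Or.inr ⟨cfr G (by simp), rfl⟩)) (by simp)
    | G =>
      cases d with
      | true =>
        right
        refine ⟨bF, ?_⟩
        rw [p.cp_G0]
        refine .fm _ 0 (.lv _ false le_rfl (Or.inr ⟨?_, hmem⟩))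
        intro j hj h
        rcases h with h | h
        · rw [show (false : Bool) = !true from rfl, p.ce_rev (by omega)] at h
          have := p.ce_inj (c := G) (by omega) (by omega) h
          omega
        · exact p.ne_ce (by omega) (by simp [inC]) (by simp [inC]) h.symm
      | false =>
        left
        refine ⟨bS (by simp), ?_⟩
        rw [p.cp_Gf0]
        refine .se _ 0 (.mn2 (by omega) ?_ (Or.inl hmem)) (by simp)
        intro j hj h
        rcases h with h | h
        · rw [show (false : Bool) = !true from rfl, p.ce_rev (by omega)] at h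
          have := p.ce_inj (c := G) (by omega) (by omega) h
          omega
        · exact p.ne_ce (by omega) (by simp [inC]) (by simp [inC]) h.symm
    | K c r =>
      rcases p.fin_K hc d with h | ⟨i, s, hi, h⟩
      · left
        refine ⟨bS (by simp), ?_⟩
        rw [hfin]
        exact .se _ (chi (p.fin (K c r) d) + 1) (.mzn _ h (by omega)
          (Or.inl ⟨jg (by simp) (by simp), by omega⟩)) h.ne_y1
      · right
        refine ⟨bF, ?_⟩
        rw [hfin, h]
        exact .fm _ (i + 1) (.lv i s hi (Or.inl ⟨cfr G (by simp), by omega⟩))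
  · -- inside of the corridor
    cases c with
    | kap =>
      have hny : p.cp kap d k ≠ y1 := by rw [p.cp_mid (c := kap) h0 (by omega)]; simp
      cases d with
      | true =>
        left
        exact ⟨bS (by simp), .wk k h0 (by omega) hmem (jg (by simp) (by simp)).GS⟩
      | false =>
        by_cases h : k ≤ p.Len + 20
        · left
          exact ⟨bS (by simp), .se _ (k + 1) (.eikap k h0 (by omega) hmem (by omega)
            (jg (by simp) (by simp)) (by omega)) hny⟩
        · right
          refine ⟨bF, .fm _ 0 (.dw _ (.d7 k h0 (by omega) hmem) ?_ ?_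
            (p.GT_of (jg (by simp) (by simp)).2))⟩
          · intro k' h1 h2 h3
            have := p.I_inj_cp (c := kap) h2 (by omega) (by omega) h1.symm
            omega
          · rw [p.cp_mid (c := kap) h0 (by omega)]; simp
    | lam =>
      right
      refine ⟨bF, ?_⟩
      cases d with
      | true =>
        refine .fm _ 0 (.dw _ (.d1 k h0 (by omega) hmem) (hn0 _ ?_) ?_
          (p.GT_of (jg (by simp) (by simp)).2))
        · rw [p.cp_mid (c := lam) h0 (by omega)]; simp
        · rw [p.cp_mid (c := lam) h0 (by omega)]; simp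
      | false =>
        exact .fm _ (k + 1) (.lp k h0 (by omega) hmem ⟨cfr G (by simp), by omega⟩)
    | J =>
      cases d with
      | true =>
        right
        exact ⟨bF, .fm _ k (.jh k h0 (by omega) hmem ⟨cfr G (by simp), by omega⟩)⟩
      | false =>
        by_cases h : k ≤ p.Len + 20
        · left
          refine ⟨bS (by simp), .se _ k (.eiJ k h0 (by omega) hmem (by omega)
            (cfr G (by simp)) (by omega)) ?_⟩
          rw [p.cp_mid (c := J) h0 (by omega)]; simp
        · right
          exact ⟨bF, .fm _ 0 (.jn k h0 (by omega) hmem (by omega) (p.GT_of (cfr G (by simp))))⟩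
    | G =>
      have hzx : ∀ d' j, j < p.lG → p.ce G d' j ≠ s(z, x) := fun d' j hj h =>
        p.ne_ce (c := G) (d := d') (k := j) (by omega) (by simp [inC]) (by simp [inC]) h.symm
      cases d with
      | true =>
        by_cases h : k ≤ p.la + p.Len + 15
        · right
          refine ⟨bF, .fm _ 0 (.gh k h0 h hmem ?_)⟩
          intro j hj h
          rcases h with h | h
          · rw [show (false : Bool) = !true from rfl, p.ce_rev (by omega)] at h
            have := p.ce_inj (c := G) (by omega) (by omega) h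
            omega
          · exact hzx _ _ (by omega) h
        · left
          refine ⟨bS (by simp), .se _ k (.ing k h0 (by omega) hmem ?_ (by omega) (by omega)) ?_⟩
          · intro j hj h
            rcases h with h | h
            · have := p.ce_inj (c := G) (by omega) (by omega) h
              omega
            · exact hzx _ _ (by omega) h
          · rw [p.cp_mid (c := G) h0 (by omega)]; simp
      | false =>
        by_cases h : k ≤ p.Len + 20
        · left
          refine ⟨bS (by simp), .se _ 0 (.eiG k h0 (by omega) hmem (by omega) ?_) ?_⟩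
          · intro j hj h
            rcases h with h | h
            · rw [show (false : Bool) = !true from rfl, p.ce_rev (by omega)] at h
              have := p.ce_inj (c := G) (by omega) (by omega) h
              omega
            · exact hzx _ _ (by omega) h
          · rw [p.cp_mid (c := G) h0 (by omega)]; simp
        · right
          refine ⟨bF, .fm _ k (.gn k h0 (by omega) hmem (by omega) ?_ (by omega))⟩
          intro j hj h
          rcases h with h | h
          · have := p.ce_inj (c := G) (by omega) (by omega) h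
            omega
          · exact hzx _ _ (by omega) h
    | K c r =>
      have ekk : p.len (K c r) = p.lK := rfl
      by_cases h : p.zn (p.fin (K c r) d) ∧ k ≤ p.Len + 20
      · left
        refine ⟨bS (by simp), .se _ (chi (p.fin (K c r) d) + k + 1) (.eiK c r d k hc h0 (by omega)
          hmem (by omega) h.1 (jg (by simp) (by simp)) (by omega)) ?_⟩
        rw [p.cp_mid (c := K c r) h0 hk]; simp
      · right
        refine ⟨bF, .fm _ (col (p.cp (K c r) d k) + 1) (.kk c r d k hc h0 (by omega) hmem ?_
          (Or.inl ⟨cfr G (by simp), by omega⟩))⟩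
        rcases p.fin_K hc d with h1 | h1
        · left
          by_contra h2
          exact h ⟨h1, by omega⟩
        · exact Or.inr h1

end Pool.Agent.H33.TT
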