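import Mathlib
import Pool.Agent.H33.TT.Start1

/-!
# The start: classification of the first edge, player 1 wins if the formula is true
-/

namespace Pool.Agent.H33.TT

open V Cor

variable {p : Par}

/-- Edges outside of the corridors. -/
inductive Par.ES (p : Par) : V → V → Prop
  | zx : Par.ES p z x
  | xy1 : Par.ES p x y1
  | xy2 : Par.ES p x y2
  | x2y1 : Par.ES p x2 y1
  | wx2 : Par.ES p w x2
  | y1m1 : Par.ES p y1 m1
  | y1u1 : Par.ES p y1 u1
  | m1u1 : Par.ES p m1 u1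
  | y2m2 : Par.ES p y2 m2
  | y2u2 : Par.ES p y2 u2
  | m2u2 : Par.ES p m2 u2
  | u2q : Par.ES p u2 (ln false 0 false)
  | Qn1 : Par.ES p (ln false p.Len false) n1
  | Rn1 : Par.ES p R n1
  | n1n2 : Par.ES p n1 n2
  | lane (l : Bool) (i : ℕ) (s s' : Bool) (hi : i < p.Len) : Par.ES p (ln l i s) (ln l (i + 1) s')

lemma Par.E_cases {v v' : V} (h : p.E v v') :
    (∃ c j, p.vc c ∧ j < p.len c ∧ v = p.pt c j ∧ v' = p.pt c (j + 1)) ∨ p.ES v v' := by
  have hl := fun c => p.len_ge c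
  cases h with
  | zx => exact Or.inr .zx
  | xy1 => exact Or.inr .xy1
  | xy2 => exact Or.inr .xy2
  | x2y1 => exact Or.inr .x2y1
  | wx2 => exact Or.inr .wx2
  | y1m1 => exact Or.inr .y1m1
  | y1u1 => exact Or.inr .y1u1
  | m1u1 => exact Or.inr .m1u1
  | y2m2 => exact Or.inr .y2m2
  | y2u2 => exact Or.inr .y2u2
  | m2u2 => exact Or.inr .m2u2
  | u2q => exact Or.inr .u2q
  | Qn1 => exact Or.inr .Qn1
  | Rn1 => exact Or.inr .Rn1
  | n1n2 => exact Or.inr .n1n2
  | lane l i s s' hi h1 h2 h3 => exact Or.inr (.lane l i s s' hi)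
  | kap0 =>
    have := hl kap
    exact Or.inl ⟨kap, 0, trivial, by omega, (p.pt_zero kap).symm,
      (p.pt_mid (by omega) (by omega)).symm⟩
  | lam0 =>
    have := hl lam
    exact Or.inl ⟨lam, 0, trivial, by omega, (p.pt_zero lam).symm,
      (p.pt_mid (by omega) (by omega)).symm⟩
  | J0 =>
    have := hl J
    exact Or.inl ⟨J, 0, trivial, by omega, (p.pt_zero J).symm,
      (p.pt_mid (by omega) (by omega)).symm⟩
  | G0 =>
    have := hl G
    exact Or.inl ⟨G, 0, trivial, by omega, (p.pt_zero G).symm,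
      (p.pt_mid (by omega) (by omega)).symm⟩
  | KQ c hc =>
    have := hl (K c 0)
    exact Or.inl ⟨K c 0, 0, ⟨hc, by omega⟩, by omega, (p.pt_zero (K c 0)).symm,
      (p.pt_mid (by omega) (by omega)).symm⟩
  | Ks c r hc hr =>
    have := hl (K c (r + 1))
    exact Or.inl ⟨K c (r + 1), 0, ⟨hc, by omega⟩, by omega, (p.pt_zero (K c (r + 1))).symm,
      (p.pt_mid (by omega) (by omega)).symm⟩
  | mid c hc j h1 h2 =>
    exact Or.inl ⟨c, j, hc, by omega, (p.pt_mid h1 (by omega)).symm,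
      (p.pt_mid (by omega) h2).symm⟩
  | kape =>
    have := hl kap
    have e : p.len kap = p.ka := rfl
    refine Or.inl ⟨kap, p.ka - 1, trivial, by omega, (p.pt_mid (by omega) (by omega)).symm, ?_⟩
    rw [show p.ka - 1 + 1 = p.len kap by omega, p.pt_len]; rfl
  | lame =>
    have := hl lam
    have e : p.len lam = p.la := rfl
    refine Or.inl ⟨lam, p.la - 1, trivial, by omega, (p.pt_mid (by omega) (by omega)).symm, ?_⟩
    rw [show p.la - 1 + 1 = p.len lam by omega, p.pt_len]; rfl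
  | Je =>
    have := hl J
    have e : p.len J = p.lJ := rfl
    refine Or.inl ⟨J, p.lJ - 1, trivial, by omega, (p.pt_mid (by omega) (by omega)).symm, ?_⟩
    rw [show p.lJ - 1 + 1 = p.len J by omega, p.pt_len]; rfl
  | Ge =>
    have := hl G
    have e : p.len G = p.lG := rfl
    refine Or.inl ⟨G, p.lG - 1, trivial, by omega, (p.pt_mid (by omega) (by omega)).symm, ?_⟩
    rw [show p.lG - 1 + 1 = p.len G by omega, p.pt_len]; rfl
  | Ke c r hc hr =>
    have := hl (K c r)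
    have e : p.len (K c r) = p.lK := rfl
    refine Or.inl ⟨K c r, p.lK - 1, ⟨hc, by omega⟩, by omega,
      (p.pt_mid (by omega) (by omega)).symm, ?_⟩
    rw [show p.lK - 1 + 1 = p.len (K c r) by omega, p.pt_len]; simp [Par.dst, hr]
  | KR c hc =>
    have := hl (K c 3)
    have e : p.len (K c 3) = p.lK := rfl
    refine Or.inl ⟨K c 3, p.lK - 1, ⟨hc, by omega⟩, by omega,
      (p.pt_mid (by omega) (by omega)).symm, ?_⟩
    rw [show p.lK - 1 + 1 = p.len (K c 3) by omega, p.pt_len]; simp [Par.dst]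

lemma Par.JG_two {v v' : V} (h1 : nJG v) (h2 : nJG v') : p.JG {s(v, v'), s(z, x)} := by
  constructor
  · intro k hk h
    rcases h with h | h
    · exact p.ne_ce hk h1.1 h2.1 h.symm
    · exact p.ne_ce hk (by simp [inC]) (by simp [inC]) h.symm
  · intro k hk h
    rcases h with h | h
    · exact p.ne_ce hk h1.2 h2.2 h.symm
    · exact p.ne_ce hk (by simp [inC]) (by simp [inC]) h.symm

/-- The result of the classification. -/
def Par.Cls (p : Par) (v v' : V) : Prop :=
  (p.BaseS {s(v, v'), s(z, x)} ∧ p.MS 0 {s(v, v'), s(z, x)} v') ∨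
  (p.BaseF {s(v, v'), s(z, x)} ∧ p.MF 0 {s(v, v'), s(z, x)} v') ∨ (v = w ∧ v' = x2)

lemma cls_pt {c : Cor} {j : ℕ} (hc : p.vc c) (hj : j < p.len c) :
    p.Cls (p.pt c j) (p.pt c (j + 1)) ∧ p.Cls (p.pt c (j + 1)) (p.pt c j) := by
  have hl := p.len_ge c
  constructor
  · have h := cls_cor c false (p.len c - 1 - j) hc (by omega)
    rw [show (false : Bool) = !true from rfl, p.ce_rev (by omega),
      show p.len c - 1 - (p.len c - 1 - j) = j by omega] at h
    have e : p.cp c (!true) (p.len c - 1 - j) = p.pt c (j + 1) := by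
      unfold Par.cp
      simp only [Bool.not_true, Bool.false_eq_true, if_false]
      congr 1; omega
    rw [e] at h
    have e2 : p.ce c true j = s(p.pt c j, p.pt c (j + 1)) := rfl
    rw [e2] at h
    rcases h with h | h
    · exact Or.inl h
    · exact Or.inr (Or.inl h)
  · have h := cls_cor c true j hc hj
    have e2 : p.ce c true j = s(p.pt c (j + 1), p.pt c j) := Sym2.eq_swap
    have e : p.cp c true j = p.pt c j := rfl
    rw [e2, e] at h
    rcases h with h | h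
    · exact Or.inl h
    · exact Or.inr (Or.inl h)

/-- **Classification of the first edge.** -/
theorem cls (v v' : V) (h : p.Adj v v') (hne : s(v, v') ≠ s(z, x)) : p.Cls v v' := by
  have hLen := p.Len_odd
  have hk0 : ∀ v : V, (∀ j, v ≠ I kap j) → ∀ k', v = p.cp kap false k' → 1 ≤ k' → k' < p.ka →
      p.Len + 12 ≤ k' + 0 := by
    intro v hv k' hk' h1 h2
    rw [p.cp_mid (c := kap) h1 h2] at hk'; exact absurd hk' (hv _)
  have e1 : ∀ {v v' : V}, s(v, v') ∈ ({s(v, v'), s(z, x)} : Set (Sym2 V)) := fun {_ _} => Or.inl rfl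
  have e2 : ∀ {v v' : V}, s(v', v) ∈ ({s(v, v'), s(z, x)} : Set (Sym2 V)) :=
    fun {_ _} => Or.inl Sym2.eq_swap
  have njn : ∀ v, v = x ∨ v = y1 ∨ v = y2 ∨ v = m1 ∨ v = m2 ∨ v = u1 ∨ v = u2 ∨ v = x2 ∨ v = w ∨
      v = R ∨ v = n1 ∨ v = n2 ∨ (∃ l i s, v = ln l i s) → nJG v := by
    rintro v (rfl | rfl | rfl | rfl | rfl | rfl | rfl | rfl | rfl | rfl | rfl | rfl |
      ⟨l, i, s, rfl⟩) <;> exact ⟨by simp [inC], by simp [inC]⟩
  -- short forms of the results
  have S1 : ∀ {v v' : V}, nA v → v ≠ u1 → v ≠ V.m1 → v ≠ y1 → (v = x → v' ≠ y1) →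
      p.MS 0 {s(v, v'), s(z, x)} v' → p.Cls v v' := fun h1 h2 h3 h4 h5 h =>
    Or.inl ⟨p.BaseS_of h1 h2 h3 h4 h5, h⟩
  have S2 : ∀ {v v' : V}, nA v' → v' ≠ u1 → v' ≠ V.m1 → v' ≠ y1 → (v' = x → v ≠ y1) →
      p.MS 0 {s(v, v'), s(z, x)} v' → p.Cls v v' := fun {v v'} h1 h2 h3 h4 h5 h =>
    Or.inl ⟨by rw [show s(v, v') = s(v', v) from Sym2.eq_swap]; exact p.BaseS_of h1 h2 h3 h4 h5, h⟩
  have F1 : ∀ {v v' : V}, ¬ TZ v → (v = x → v' ≠ y2) →
      p.MF 0 {s(v, v'), s(z, x)} v' → p.Cls v v' := fun h1 h5 h =>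
    Or.inr (Or.inl ⟨p.BaseF_of h1 h5, h⟩)
  have nTZ : ∀ v, v = x ∨ v = y1 ∨ v = x2 ∨ v = w ∨ v = V.m1 ∨ v = u1 ∨ (∃ i s, v = ln true i s) →
      ¬ TZ v := by
    rintro v (rfl | rfl | rfl | rfl | rfl | rfl | ⟨i, s, rfl⟩) <;>
      rintro (h | h | h | ⟨_, _, _, h⟩ | h | h) <;> simp at h
  have nAn : ∀ v, v = x ∨ v = y2 ∨ v = x2 ∨ v = w ∨ v = V.m2 ∨ v = u2 ∨ v = R ∨ v = n1 ∨ v = n2 ∨
      (∃ i s, v = ln false i s) → nA v ∧ v ≠ u1 ∧ v ≠ V.m1 ∧ v ≠ y1 := by
    rintro v (rfl | rfl | rfl | rfl | rfl | rfl | rfl | rfl | rfl | ⟨i, s, rfl⟩) <;>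
      exact ⟨⟨by simp, by simp⟩, by simp, by simp, by simp⟩
  -- zone vertices
  have Z : ∀ {v v' : V}, (v = u2 ∨ v = R ∨ v = n1 ∨ (∃ i s, v = ln false i s)) → p.zn v' →
      p.Cls v v' := by
    intro v v' hv hz
    have ha : nA v ∧ v ≠ u1 ∧ v ≠ V.m1 ∧ v ≠ y1 ∧ v ≠ x := by
      rcases hv with rfl | rfl | rfl | ⟨i, s, rfl⟩ <;>
        exact ⟨⟨by simp, by simp⟩, by simp, by simp, by simp, by simp⟩
    have hj : nJG v := by
      rcases hv with rfl | rfl | rfl | ⟨i, s, rfl⟩ <;> exact ⟨by simp [inC], by simp [inC]⟩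
    exact S1 ha.1 ha.2.1 ha.2.2.1 ha.2.2.2.1 (fun h => absurd h ha.2.2.2.2)
      (.se _ (chi v' + 1) (.mzn _ hz (by omega) (Or.inl ⟨p.JG_two hj hz.nJG, by omega⟩)) hz.ne_y1)
  rcases h with h | h
  · rcases p.E_cases h with ⟨c, j, hc, hj, rfl, rfl⟩ | h
    · exact (cls_pt hc hj).1
    cases h with
    | zx => exact absurd rfl hne
    | xy1 =>
      refine F1 (nTZ _ (by simp)) (by simp) (.my (Or.inl e1) ?_ ?_ ?_
        (p.JG_two (njn _ (by simp)) (njn _ (by simp))).2) <;> simp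
    | xy2 =>
      refine S1 ⟨by simp, by simp⟩ (by simp) (by simp) (by simp) (by simp) (.my e1 ?_ ?_ ?_
        (p.JG_two (njn _ (by simp)) (njn _ (by simp)))) <;> simp
    | x2y1 =>
      refine F1 (nTZ _ (by simp)) (by simp) (.my (Or.inr e1) ?_ ?_ ?_
        (p.JG_two (njn _ (by simp)) (njn _ (by simp))).2) <;> simp
    | wx2 => exact Or.inr (Or.inr ⟨rfl, rfl⟩)
    | y1m1 =>
      exact F1 (nTZ _ (by simp)) (by simp) (.fm _ 0 (.w2 e1
        (p.JG_two (njn _ (by simp)) (njn _ (by simp))).2 rfl))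
    | y1u1 =>
      exact F1 (nTZ _ (by simp)) (by simp) (.fm _ 1 (.w1 (Or.inl e1)
        (p.JG_two (njn _ (by simp)) (njn _ (by simp))).2 rfl))
    | m1u1 =>
      exact F1 (nTZ _ (by simp)) (by simp) (.fm _ 1 (.w1 (Or.inr e1)
        (p.JG_two (njn _ (by simp)) (njn _ (by simp))).2 rfl))
    | y2m2 =>
      exact S1 ⟨by simp, by simp⟩ (by simp) (by simp) (by simp) (by simp) (.se _ 1 (.lt2 e1
        (by omega) (p.JG_two (njn _ (by simp)) (njn _ (by simp))) rfl) (by simp))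
    | y2u2 =>
      exact S1 ⟨by simp, by simp⟩ (by simp) (by simp) (by simp) (by simp) (.se _ 0
        (.lt1 (Or.inl e1) (by omega) (p.JG_two (njn _ (by simp)) (njn _ (by simp))) rfl) (by simp))
    | m2u2 =>
      exact S1 ⟨by simp, by simp⟩ (by simp) (by simp) (by simp) (by simp) (.se _ 0
        (.lt1 (Or.inr e1) (by omega) (p.JG_two (njn _ (by simp)) (njn _ (by simp))) rfl) (by simp))
    | u2q => exact Z (by simp) (Par.zn.ln (by omega))
    | Qn1 => exact Z (by simp) Par.zn.n1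
    | Rn1 => exact Z (by simp) Par.zn.n1
    | n1n2 =>
      have hj := p.JG_two (njn V.n1 (by simp)) (njn n2 (by simp))
      exact S1 ⟨by simp, by simp⟩ (by simp) (by simp) (by simp) (by simp) (.se _ 0
        (.mn2 (by omega) hj.GS (Or.inr ⟨hj.2, rfl⟩)) (by simp))
    | lane l i s s' hi =>
      cases l with
      | true =>
        exact F1 (nTZ _ (by simp)) (by simp) (.fm _ (i + 1 + 1) (.lv (i + 1) s' (by omega)
          (Or.inl ⟨(p.JG_two (njn _ (by simp)) (njn _ (by simp))).2, by omega⟩)))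
      | false => exact Z (by simp) (Par.zn.ln (by omega))
  · rcases p.E_cases h with ⟨c, j, hc, hj, rfl, rfl⟩ | h
    · exact (cls_pt hc hj).2
    cases h with
    | zx => exact absurd Sym2.eq_swap hne
    | xy1 =>
      exact F1 (nTZ _ (by simp)) (by simp) (.fm _ 0 (.dw _ (.d4 e2) (hk0 _ (by simp)) (by simp)
        (p.GT_of (p.JG_two (njn _ (by simp)) (njn _ (by simp))).2)))
    | xy2 =>
      exact S1 ⟨by simp, by simp⟩ (by simp) (by simp) (by simp) (by simp)
        (.mx e2 (p.JG_two (njn _ (by simp)) (njn _ (by simp))))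
    | x2y1 =>
      exact F1 (nTZ _ (by simp)) (by simp) (.fm _ 0 (.dw _ (.d5 e2) (hk0 _ (by simp)) (by simp)
        (p.GT_of (p.JG_two (njn _ (by simp)) (njn _ (by simp))).2)))
    | wx2 =>
      exact S1 ⟨by simp, by simp⟩ (by simp) (by simp) (by simp) (by simp)
        (.ww e2 (p.JG_two (njn _ (by simp)) (njn _ (by simp))).GS)
    | y1m1 =>
      exact F1 (nTZ _ (by simp)) (by simp) (.fm _ 0 (.w4 e2
        (p.JG_two (njn _ (by simp)) (njn _ (by simp))).2 rfl))
    | y1u1 =>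
      exact F1 (nTZ _ (by simp)) (by simp) (.fm _ 1 (.w5 e2
        (p.JG_two (njn _ (by simp)) (njn _ (by simp))).2 rfl))
    | m1u1 =>
      exact F1 (nTZ _ (by simp)) (by simp) (.fm _ 1 (.w3 e2
        (p.JG_two (njn _ (by simp)) (njn _ (by simp))).2 rfl))
    | y2m2 =>
      exact S1 ⟨by simp, by simp⟩ (by simp) (by simp) (by simp) (by simp) (.se _ 1 (.lt4 e2
        (by omega) (p.JG_two (njn _ (by simp)) (njn _ (by simp))) rfl) (by simp))
    | y2u2 =>
      exact S1 ⟨by simp, by simp⟩ (by simp) (by simp) (by simp) (by simp) (.se _ 0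
        (.lt5 e2 (by omega) (p.JG_two (njn _ (by simp)) (njn _ (by simp))) rfl) (by simp))
    | m2u2 =>
      exact S1 ⟨by simp, by simp⟩ (by simp) (by simp) (by simp) (by simp) (.se _ 0
        (.lt3 e2 (by omega) (p.JG_two (njn _ (by simp)) (njn _ (by simp))) rfl) (by simp))
    | u2q =>
      exact S1 ⟨by simp, by simp⟩ (by simp) (by simp) (by simp) (by simp) (.se _ 0
        (.de _ (by simp) e2 (p.JG_two (njn _ (by simp)) (njn _ (by simp))).GS) (by simp))
    | Qn1 => exact Z (by simp) (Par.zn.ln le_rfl)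
    | Rn1 => exact Z (by simp) Par.zn.R
    | n1n2 =>
      exact S1 ⟨by simp, by simp⟩ (by simp) (by simp) (by simp) (by simp) (.se _ 0
        (.mzn _ Par.zn.n1 (by omega) (Or.inr ⟨e2,
          (p.JG_two (njn _ (by simp)) (njn _ (by simp))).GS⟩)) (by simp))
    | lane l i s s' hi =>
      cases l with
      | true =>
        exact F1 (nTZ _ (by simp)) (by simp) (.fm _ (i + 1) (.lv i s (by omega)
          (Or.inl ⟨(p.JG_two (njn _ (by simp)) (njn _ (by simp))).2, by omega⟩)))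
      | false => exact Z (by simp) (Par.zn.ln (by omega))

/-- **Player 1 wins if the formula is true.** -/
theorem winsT (p : Par) (hT : p.Typed) (hF : p.truth) : p.WinsT := by
  intro v v' h hne
  rcases cls v v' h hne with ⟨h1, h2⟩ | ⟨h1, h2⟩ | ⟨rfl, rfl⟩
  · exact start_slow (by omega) h1 h2
  · exact start_fast (by omega) h1 h2
  · refine MW.intro y1 (Or.inl .xy1) (by simp) (fun b' hb hu => ?_)
    have hctx : p.ctx (insert s(x2, b') (insert s(x, y1) {s(w, x2), s(z, x)})) :=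
      ⟨by simp, by simp⟩
    rcases p.nb_x2 hb with rfl | rfl | rfl
    · refine slow_core (f := 0) (t := 1) le_rfl (by omega) hctx ?_ (by simp) (by simp) (by simp)
        (Or.inr (Or.inr (Or.inr (Or.inl ⟨rfl, by simp, by simp, ?_⟩))))
      · intro v v' hv hv' h
        have n1 : ¬ p.TL 0 x := p.nTL ⟨by simp, by simp⟩ (by simp)
        have n2 : ¬ p.TL 0 x2 := p.nTL ⟨by simp, by simp⟩ (by simp)
        simp only [Set.mem_insert_iff, Set.mem_singleton_iff] at h
        rcases h with h | h | h | h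
        · rcases Sym2.eq_iff.1 h with ⟨rfl, _⟩ | ⟨_, rfl⟩
          · exact n2 hv
          · exact n2 hv'
        · rcases Sym2.eq_iff.1 h with ⟨rfl, _⟩ | ⟨_, rfl⟩
          · exact n1 hv
          · exact n1 hv'
        · rcases Sym2.eq_iff.1 h with ⟨_, rfl⟩ | ⟨rfl, _⟩
          · exact n2 hv'
          · exact n2 hv
        · rcases Sym2.eq_iff.1 h with ⟨_, rfl⟩ | ⟨rfl, _⟩
          · exact n1 hv'
          · exact n1 hv
      · have hj := (p.JG_two (v := w) (v' := x2) ⟨by simp [inC], by simp [inC]⟩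
          ⟨by simp [inC], by simp [inC]⟩).GS
        exact (hj.ins (by simp [inC]) (by simp [inC])).ins (by simp [inC]) (by simp [inC])
    · exact absurd (by simp [Sym2.eq_swap]) hu
    · exact n1_core hT hF

end Pool.Agent.H33.TT
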